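import Mathlib

/-!
Axial algebras, for an algebra given as a vector space `V` with a bilinear product `m`.
-/

namespace Pool.Agent.H.MP_8db76d_al.Bil

/-- A fusion law over a field `K`: a set of eigenvalues containing `1`, and a map `star`
assigning to two eigenvalues a set of eigenvalues. -/
structure FusionLaw (K : Type*) [Field K] where
  /-- the set of eigenvalues -/
  carrier : Set K
  one_mem : (1 : K) ∈ carrier
  /-- the fusion map (only its values on `carrier` matter) -/
  star : K → K → Set K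
  star_subset : ∀ l ∈ carrier, ∀ m ∈ carrier, star l m ⊆ carrier

/-- The Monster type fusion law `M(α, β)` on `{1, 0, α, β}`: `1⋆1 = {1}`, `1⋆0 = ∅`, `1⋆α = {α}`,
`1⋆β = {β}`, `0⋆0 = {0}`, `0⋆α = {α}`, `0⋆β = {β}`, `α⋆α = {1, 0}`, `α⋆β = {β}`,
`β⋆β = {1, 0, α}`, and `⋆` is symmetric. -/
def monsterLaw {K : Type*} [Field K] (α β : K) : FusionLaw K where
  carrier := {1, 0, α, β}
  one_mem := Or.inl rfl
  star l m := {n | (l, m, n) ∈ ({(1, 1, 1), (1, α, α), (α, 1, α), (1, β, β), (β, 1, β),
    (0, 0, 0), (0, α, α), (α, 0, α), (0, β, β), (β, 0, β), (α, α, 1), (α, α, 0),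
    (α, β, β), (β, α, β), (β, β, 1), (β, β, 0), (β, β, α)} : Set (K × K × K))}
  star_subset := by
    rintro l - m - n hn
    simp only [Set.mem_ofPred_eq, Set.mem_insert_iff, Set.mem_singleton_iff, Prod.mk.injEq] at hn ⊢
    tauto

variable {K : Type*} [Field K] {V : Type*} [AddCommGroup V] [Module K V]
  (m : V →ₗ[K] V →ₗ[K] V)

/-- The eigenspace `V_l(a) = {v | m a v = l • v}`. -/
def eig (a : V) (l : K) : Submodule K V := Module.End.eigenspace (m a) l

/-- `a` is a primitive axis for the fusion law `F`: a nonzero idempotent such that `V` is the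
direct sum of the eigenspaces `V_l(a)`, `l` in the law, these multiply according to the law, and
`V_1(a) = K a`. -/
structure IsPrimitiveAxis (F : FusionLaw K) (a : V) : Prop where
  ne_zero : a ≠ 0
  idem : m a a = a
  indep : iSupIndep (fun l : F.carrier => eig m a (l : K))
  span : (⨆ l : F.carrier, eig m a (l : K)) = ⊤
  fusion : ∀ l ∈ F.carrier, ∀ k ∈ F.carrier, ∀ u ∈ eig m a l, ∀ v ∈ eig m a k,
    m u v ∈ ⨆ n ∈ F.star l k, eig m a n
  primitive : eig m a (1 : K) = Submodule.span K {a}

/-- `(V, m, X)` is a primitive axial algebra for the fusion law `F`: the product `m` is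
commutative, `X` consists of primitive axes, and `X` generates the algebra. -/
def IsPrimitiveAxialAlgebra (F : FusionLaw K) (X : Set V) : Prop :=
  (∀ u v, m u v = m v u) ∧ (∀ a ∈ X, IsPrimitiveAxis m F a) ∧
    ∀ S : Submodule K V, X ⊆ S → (∀ u ∈ S, ∀ v ∈ S, m u v ∈ S) → S = ⊤

/-- The non-annihilation graph: vertices `X`, distinct `a, b` joined exactly when `a b ≠ 0`. -/
def nonAnnGraph (X : Set V) : SimpleGraph X :=
  SimpleGraph.fromRel fun a b : X => m (a : V) (b : V) ≠ 0

/-- An ideal of the (commutative) algebra `(V, m)`. -/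
def IsIdeal (I : Submodule K V) : Prop := ∀ x ∈ I, ∀ y : V, m y x ∈ I

/-- `(V, m)` is simple: the product is not identically zero and the only ideals are `0`
and `V`. -/
def IsSimpleAlg : Prop :=
  (∃ x y : V, m x y ≠ 0) ∧ ∀ I : Submodule K V, IsIdeal m I → I = ⊥ ∨ I = ⊤

/-- `(V, m)` is the direct sum of `k` nonzero ideals with zero mutual products. -/
def HasDecomposition (k : ℕ) : Prop :=
  ∃ I : Fin k → Submodule K V,
    (∀ i, I i ≠ ⊥) ∧ (∀ i, IsIdeal m (I i)) ∧ iSupIndep I ∧ (⨆ i, I i) = ⊤ ∧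
      ∀ i j, i ≠ j → ∀ x ∈ I i, ∀ y ∈ I j, m x y = 0

/-- `(V, m)` is indecomposable: `V ≠ 0` and there is no direct sum decomposition with `k ≥ 2`
summands. -/
def Indecomposable : Prop := Nontrivial V ∧ ∀ k : ℕ, 2 ≤ k → ¬ HasDecomposition m k

/-- A Frobenius form: a symmetric bilinear form with `(x y, z) = (x, y z)`. -/
def IsFrobenius (B : LinearMap.BilinForm K V) : Prop :=
  (∀ x y, B x y = B y x) ∧ ∀ x y z, B (m x y) z = B x (m y z)

variable {m}

theorem IsSimpleAlg.indecomposable (h : IsSimpleAlg m) : Indecomposable m := by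
  obtain ⟨⟨x, y, hxy⟩, hI⟩ := h
  refine ⟨⟨x, 0, ?_⟩, ?_⟩
  · rintro rfl
    exact hxy (by simp)
  · rintro k hk ⟨I, hne, hid, hind, -, -⟩
    have h0 : I ⟨0, by omega⟩ = ⊤ := (hI _ (hid _)).resolve_left (hne _)
    have h1 : I ⟨1, by omega⟩ = ⊤ := (hI _ (hid _)).resolve_left (hne _)
    have hd : Disjoint (I ⟨0, by omega⟩) (I ⟨1, by omega⟩) :=
      hind.pairwiseDisjoint (by simp)
    rw [h0, h1] at hd
    have hbot : (⊤ : Submodule K V) = ⊥ := by simpa using hd
    exact hne _ (h0.trans hbot)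

theorem mem_eig {a : V} {l : K} {v : V} : v ∈ eig m a l ↔ m a v = l • v := by
  unfold eig
  rw [Module.End.mem_eigenspace_iff]

theorem eig_indep (F : FusionLaw K) (a : V) : iSupIndep (fun l : F.carrier => eig m a (l : K)) :=
  (Module.End.eigenspaces_iSupIndep (m a)).comp Subtype.val_injective

theorem eig_map (φ : V ≃ₗ[K] V) (hφ : ∀ u v, φ (m u v) = m (φ u) (φ v)) (a : V) (l : K) :
    eig m (φ a) l = (eig m a l).map (φ : V →ₗ[K] V) := by
  ext v
  rw [mem_eig, Submodule.mem_map_equiv, mem_eig]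
  constructor
  · intro h
    apply φ.injective
    rw [hφ, map_smul, φ.apply_symm_apply, h]
  · intro h
    have := congrArg φ h
    rwa [hφ, map_smul, φ.apply_symm_apply] at this

/-- Automorphisms map primitive axes to primitive axes. -/
theorem IsPrimitiveAxis.map {F : FusionLaw K} (φ : V ≃ₗ[K] V)
    (hφ : ∀ u v, φ (m u v) = m (φ u) (φ v)) {a : V} (h : IsPrimitiveAxis m F a) :
    IsPrimitiveAxis m F (φ a) := by
  obtain ⟨h0, h1, h2, h3, h4, h5⟩ := h
  refine ⟨?_, ?_, eig_indep _ _, ?_, ?_, ?_⟩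
  · simpa using h0
  · rw [← hφ, h1]
  · simp_rw [eig_map φ hφ]
    rw [← Submodule.map_iSup, h3, Submodule.map_top]
    exact LinearEquiv.range φ
  · intro l hl m hm u hu v hv
    rw [eig_map φ hφ] at hu hv
    obtain ⟨u, hu, rfl⟩ := hu
    obtain ⟨v, hv, rfl⟩ := hv
    have := h4 l hl m hm u hu v hv
    simp_rw [eig_map φ hφ, ← Submodule.map_iSup]
    refine ⟨_, this, ?_⟩
    exact hφ u v
  · rw [eig_map φ hφ, h5, Submodule.map_span, Set.image_singleton]
    rfl

/-- A criterion for primitive axes of Monster type. -/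
theorem isPrimitiveAxis_monster {α β : K} (hcomm : ∀ u v, m u v = m v u)
    {a : V} (ha : a ≠ 0) (haa : m a a = a)
    (hspan : ∀ v, v ∈ eig m a (1 : K) ⊔ eig m a (0 : K) ⊔ eig m a α ⊔ eig m a β)
    (hprim : eig m a (1 : K) ≤ Submodule.span K {a})
    (h00 : ∀ u ∈ eig m a (0 : K), ∀ v ∈ eig m a (0 : K), m u v ∈ eig m a (0 : K))
    (h0a : ∀ u ∈ eig m a (0 : K), ∀ v ∈ eig m a α, m u v ∈ eig m a α)
    (h0b : ∀ u ∈ eig m a (0 : K), ∀ v ∈ eig m a β, m u v ∈ eig m a β)
    (haa' : ∀ u ∈ eig m a α, ∀ v ∈ eig m a α, m u v ∈ eig m a (1 : K) ⊔ eig m a (0 : K))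
    (hab : ∀ u ∈ eig m a α, ∀ v ∈ eig m a β, m u v ∈ eig m a β)
    (hbb : ∀ u ∈ eig m a β, ∀ v ∈ eig m a β,
      m u v ∈ eig m a (1 : K) ⊔ eig m a (0 : K) ⊔ eig m a α) :
    IsPrimitiveAxis m (monsterLaw α β) a := by
  have ha1 : a ∈ eig m a (1 : K) := by rw [mem_eig, haa, one_smul]
  have key1 : ∀ u ∈ eig m a (1 : K), ∀ l : K, ∀ v ∈ eig m a l, m u v ∈ eig m a l := by
    intro u hu l v hv
    obtain ⟨c, rfl⟩ := Submodule.mem_span_singleton.mp (hprim hu)
    rw [map_smul, LinearMap.smul_apply]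
    refine Submodule.smul_mem _ _ ?_
    rw [mem_eig.mp hv]
    exact Submodule.smul_mem _ _ hv
  have key10 : ∀ u ∈ eig m a (1 : K), ∀ v ∈ eig m a (0 : K), m u v = 0 := by
    intro u hu v hv
    obtain ⟨c, rfl⟩ := Submodule.mem_span_singleton.mp (hprim hu)
    rw [map_smul, LinearMap.smul_apply, mem_eig.mp hv, zero_smul, smul_zero]
  have le1 : ∀ (S : Set K) (n : K), n ∈ S → eig m a n ≤ ⨆ n ∈ S, eig m a n :=
    fun S n hn => le_iSup₂_of_le n hn le_rfl
  refine ⟨ha, haa, eig_indep _ a, ?_, ?_, le_antisymm hprim ?_⟩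
  · rw [eq_top_iff]
    intro v _
    refine (?_ : eig m a (1 : K) ⊔ eig m a (0 : K) ⊔ eig m a α ⊔ eig m a β ≤ _) (hspan v)
    refine sup_le (sup_le (sup_le ?_ ?_) ?_) ?_
    · exact le_iSup (fun l : (monsterLaw α β).carrier => eig m a (l : K)) ⟨1, Or.inl rfl⟩
    · exact le_iSup (fun l : (monsterLaw α β).carrier => eig m a (l : K))
        ⟨0, Or.inr (Or.inl rfl)⟩
    · exact le_iSup (fun l : (monsterLaw α β).carrier => eig m a (l : K))
        ⟨α, Or.inr (Or.inr (Or.inl rfl))⟩
    · exact le_iSup (fun l : (monsterLaw α β).carrier => eig m a (l : K))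
        ⟨β, Or.inr (Or.inr (Or.inr rfl))⟩
  · intro l hl k hk u hu v hv
    have memstar : ∀ n, (l, k, n) ∈ ({(1, 1, 1), (1, α, α), (α, 1, α), (1, β, β), (β, 1, β),
      (0, 0, 0), (0, α, α), (α, 0, α), (0, β, β), (β, 0, β), (α, α, 1), (α, α, 0),
      (α, β, β), (β, α, β), (β, β, 1), (β, β, 0), (β, β, α)} : Set (K × K × K)) →
      eig m a n ≤ ⨆ n ∈ (monsterLaw α β).star l k, eig m a n := fun n hn => le1 _ n hn
    rcases hl with rfl | rfl | rfl | rfl <;> rcases hk with rfl | rfl | rfl | rfl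
    · exact memstar 1 (by simp) (key1 u hu 1 v hv)
    · rw [key10 u hu v hv]; exact Submodule.zero_mem _
    · exact memstar _ (by simp) (key1 u hu _ v hv)
    · exact memstar _ (by simp) (key1 u hu _ v hv)
    · rw [hcomm, key10 v hv u hu]; exact Submodule.zero_mem _
    · exact memstar 0 (by simp) (h00 u hu v hv)
    · exact memstar _ (by simp) (h0a u hu v hv)
    · exact memstar _ (by simp) (h0b u hu v hv)
    · rw [hcomm]; exact memstar _ (by simp) (key1 v hv _ u hu)
    · rw [hcomm]; exact memstar _ (by simp) (h0a v hv u hu)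
    · exact (sup_le (memstar 1 (by simp)) (memstar 0 (by simp))) (haa' u hu v hv)
    · exact memstar _ (by simp) (hab u hu v hv)
    · rw [hcomm]; exact memstar _ (by simp) (key1 v hv _ u hu)
    · rw [hcomm]; exact memstar _ (by simp) (h0b v hv u hu)
    · rw [hcomm]; exact memstar _ (by simp) (hab v hv u hu)
    · exact (sup_le (sup_le (memstar 1 (by simp)) (memstar 0 (by simp)))
        (memstar _ (by simp))) (hbb u hu v hv)
  · rw [Submodule.span_singleton_le_iff_mem]
    exact ha1

/-- If an ideal contains an element which is not orthogonal to the axis `x`, it contains `x`. -/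
theorem axis_mem_of_form {α β : K} {x : V} (hcomm : ∀ u v, m u v = m v u)
    (hax : IsPrimitiveAxis m (monsterLaw α β) x) {B : LinearMap.BilinForm K V}
    (hB : IsFrobenius m B) (hα : α ≠ 1) (hβ : β ≠ 1) {I : Submodule K V} (hI : IsIdeal m I)
    {u : V} (hu : u ∈ I) (hux : B u x ≠ 0) : x ∈ I := by
  set p : V →ₗ[K] V := (m x) ∘ₗ (m x) ∘ₗ (m x) - (α + β) • ((m x) ∘ₗ (m x)) + (α * β) • (m x)
    with hp
  have happ : ∀ v, p v = m x (m x (m x v)) - (α + β) • m x (m x v) + (α * β) • m x v := by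
    intro v; simp [hp]
  have hp1 : ∀ v, p v ∈ eig m x (1 : K) := by
    intro v
    have hv : v ∈ ⨆ l : (monsterLaw α β).carrier, eig m x (l : K) := by
      rw [hax.span]; exact Submodule.mem_top
    induction hv using Submodule.iSup_induction' with
    | mem l y hy =>
      obtain ⟨l, hl⟩ := l
      rw [mem_eig] at hy
      have hpy : p y = (l * l * l - (α + β) * (l * l) + α * β * l) • y := by
        rw [happ]
        simp only [hy, map_smul, smul_smul]
        module
      rw [hpy]
      rcases hl with rfl | rfl | rfl | rfl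
      · refine Submodule.smul_mem _ _ ?_
        rw [mem_eig]; exact hy
      · simp
      · have : l * l * l - (l + β) * (l * l) + l * β * l = 0 := by ring
        rw [this, zero_smul]; exact Submodule.zero_mem _
      · have : l * l * l - (α + l) * (l * l) + α * l * l = 0 := by ring
        rw [this, zero_smul]; exact Submodule.zero_mem _
    | zero => rw [map_zero]; exact Submodule.zero_mem _
    | add y z _ _ hy hz => rw [map_add]; exact add_mem hy hz
  have hpI : p u ∈ I := by
    rw [happ]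
    exact add_mem (sub_mem (hI _ (hI _ (hI _ hu _) _) _) (I.smul_mem _ (hI _ (hI _ hu _) _)))
      (I.smul_mem _ (hI _ hu _))
  have hself : ∀ v, B (m x v) x = B v x := by
    intro v
    rw [hcomm, hB.2, hax.idem]
  have hBp : B (p u) x = (1 - α) * (1 - β) * B u x := by
    rw [happ]
    simp only [map_add, map_sub, map_smul, LinearMap.add_apply, LinearMap.sub_apply,
      LinearMap.smul_apply, smul_eq_mul, hself]
    ring
  have h1 := hp1 u
  rw [hax.primitive] at h1
  obtain ⟨c, hc⟩ := Submodule.mem_span_singleton.mp h1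
  have hc0 : c ≠ 0 := by
    rintro rfl
    rw [zero_smul] at hc
    rw [← hc] at hBp
    simp only [map_zero, LinearMap.zero_apply] at hBp
    exact mul_ne_zero (mul_ne_zero (sub_ne_zero.mpr hα.symm) (sub_ne_zero.mpr hβ.symm)) hux
      hBp.symm
  rw [← hc] at hpI
  have := I.smul_mem c⁻¹ hpI
  rwa [smul_smul, inv_mul_cancel₀ hc0, one_smul] at this

/-- Simplicity criterion. -/
theorem isSimple_of {α β : K} (hα : α ≠ 1) (hβ : β ≠ 1) {X : Set V}
    (hX : IsPrimitiveAxialAlgebra m (monsterLaw α β) X)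
    {B : LinearMap.BilinForm K V} (hB : IsFrobenius m B) (hnd : ∀ u, (∀ v, B u v = 0) → u = 0)
    (hne : X.Nonempty) (htop : ∀ I : Submodule K V, IsIdeal m I → ∀ x ∈ X, x ∈ I → I = ⊤) :
    IsSimpleAlg m := by
  obtain ⟨hcomm, hax, hgen⟩ := hX
  refine ⟨?_, ?_⟩
  · obtain ⟨x, hx⟩ := hne
    exact ⟨x, x, by rw [(hax x hx).idem]; exact (hax x hx).ne_zero⟩
  · intro I hI
    by_cases h : ∃ x ∈ X, x ∈ I
    · obtain ⟨x, hx, hxI⟩ := h
      exact Or.inr (htop I hI x hx hxI)
    · left
      push Not at h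
      have h0 : ∀ u ∈ I, ∀ x ∈ X, B u x = 0 := by
        intro u hu x hx
        by_contra hux
        exact h x hx (axis_mem_of_form hcomm (hax x hx) hB hα hβ hI hu hux)
      let S : Submodule K V :=
        { carrier := {v | ∀ u ∈ I, B u v = 0}
          add_mem' := by
            intro a b ha hb u hu
            rw [map_add, ha u hu, hb u hu, add_zero]
          zero_mem' := by
            intro u _
            rw [map_zero]
          smul_mem' := by
            intro c a ha u hu
            rw [map_smul, ha u hu, smul_zero] }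
      have hS : S = ⊤ := by
        apply hgen
        · intro x hx u hu
          exact h0 u hu x hx
        · intro a ha b hb u hu
          show B u (m a b) = 0
          rw [← hB.2]
          apply hb
          rw [hcomm]
          exact hI _ hu _
      rw [eq_bot_iff]
      intro u hu
      rw [Submodule.mem_bot]
      apply hnd
      intro v
      have hv : v ∈ S := by rw [hS]; exact Submodule.mem_top
      exact hv u hu

end Pool.Agent.H.MP_8db76d_al.Bil
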