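import Pool.Agent.H.MP_8db76d_al.Ext

/-!
The 18-dimensional algebra `D`: coordinates `4 k + g` (`k < 3`, `g < 4`) for the basis vectors
`x^g_k`, coordinates `12 + i` for `p_i` and `15 + i` for `r_i` (`i < 3`).
-/

namespace Pool.Agent.H.MP_8db76d_al.D18

open Pool.Agent.H.MP_8db76d_al.Bil Pool.Agent.H.MP_8db76d_al.Ext

noncomputable section

/-- The product of `D`. -/
def mulF (η : ℝ) (u v : Fin 18 → ℝ) : Fin 18 → ℝ :=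
  ![
    u 0 * v 0 + η * (u 0 * (v 1 + v 2) + v 0 * (u 1 + u 2)) +
      η / 2 * (u 0 * (v 13 + v 14 + v 16 + v 17 + v 4 + v 5 + v 6 + v 7 + v 8 + v 9 + v 10 + v 11) +
        v 0 * (u 13 + u 14 + u 16 + u 17 + u 4 + u 5 + u 6 + u 7 + u 8 + u 9 + u 10 + u 11)) -
      η / 2 * (u 1 * (v 13 + v 14) + v 1 * (u 13 + u 14) +
        u 2 * (v 16 + v 17) + v 2 * (u 16 + u 17)) -
      η / 2 * (u 4 * v 8 + v 4 * u 8 +
        u 5 * v 9 + v 5 * u 9 +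
        u 6 * v 10 + v 6 * u 10 +
        u 7 * v 11 + v 7 * u 11),
    u 1 * v 1 + η * (u 1 * (v 0 + v 3) + v 1 * (u 0 + u 3)) +
      η / 2 * (u 1 * (v 13 + v 14 + v 16 + v 17 + v 4 + v 5 + v 6 + v 7 + v 8 + v 9 + v 10 + v 11) +
        v 1 * (u 13 + u 14 + u 16 + u 17 + u 4 + u 5 + u 6 + u 7 + u 8 + u 9 + u 10 + u 11)) -
      η / 2 * (u 0 * (v 13 + v 14) + v 0 * (u 13 + u 14) +
        u 3 * (v 16 + v 17) + v 3 * (u 16 + u 17)) -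
      η / 2 * (u 4 * v 9 + v 4 * u 9 +
        u 5 * v 8 + v 5 * u 8 +
        u 6 * v 11 + v 6 * u 11 +
        u 7 * v 10 + v 7 * u 10),
    u 2 * v 2 + η * (u 2 * (v 3 + v 0) + v 2 * (u 3 + u 0)) +
      η / 2 * (u 2 * (v 13 + v 14 + v 16 + v 17 + v 4 + v 5 + v 6 + v 7 + v 8 + v 9 + v 10 + v 11) +
        v 2 * (u 13 + u 14 + u 16 + u 17 + u 4 + u 5 + u 6 + u 7 + u 8 + u 9 + u 10 + u 11)) -
      η / 2 * (u 3 * (v 13 + v 14) + v 3 * (u 13 + u 14) +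
        u 0 * (v 16 + v 17) + v 0 * (u 16 + u 17)) -
      η / 2 * (u 4 * v 10 + v 4 * u 10 +
        u 5 * v 11 + v 5 * u 11 +
        u 6 * v 8 + v 6 * u 8 +
        u 7 * v 9 + v 7 * u 9),
    u 3 * v 3 + η * (u 3 * (v 2 + v 1) + v 3 * (u 2 + u 1)) +
      η / 2 * (u 3 * (v 13 + v 14 + v 16 + v 17 + v 4 + v 5 + v 6 + v 7 + v 8 + v 9 + v 10 + v 11) +
        v 3 * (u 13 + u 14 + u 16 + u 17 + u 4 + u 5 + u 6 + u 7 + u 8 + u 9 + u 10 + u 11)) -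
      η / 2 * (u 2 * (v 13 + v 14) + v 2 * (u 13 + u 14) +
        u 1 * (v 16 + v 17) + v 1 * (u 16 + u 17)) -
      η / 2 * (u 4 * v 11 + v 4 * u 11 +
        u 5 * v 10 + v 5 * u 10 +
        u 6 * v 9 + v 6 * u 9 +
        u 7 * v 8 + v 7 * u 8),
    u 4 * v 4 + η * (u 4 * (v 5 + v 6) + v 4 * (u 5 + u 6)) +
      η / 2 * (u 4 * (v 14 + v 12 + v 17 + v 15 + v 8 + v 9 + v 10 + v 11 + v 0 + v 1 + v 2 + v 3) +
        v 4 * (u 14 + u 12 + u 17 + u 15 + u 8 + u 9 + u 10 + u 11 + u 0 + u 1 + u 2 + u 3)) -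
      η / 2 * (u 5 * (v 14 + v 12) + v 5 * (u 14 + u 12) +
        u 6 * (v 17 + v 15) + v 6 * (u 17 + u 15)) -
      η / 2 * (u 8 * v 0 + v 8 * u 0 +
        u 9 * v 1 + v 9 * u 1 +
        u 10 * v 2 + v 10 * u 2 +
        u 11 * v 3 + v 11 * u 3),
    u 5 * v 5 + η * (u 5 * (v 4 + v 7) + v 5 * (u 4 + u 7)) +
      η / 2 * (u 5 * (v 14 + v 12 + v 17 + v 15 + v 8 + v 9 + v 10 + v 11 + v 0 + v 1 + v 2 + v 3) +
        v 5 * (u 14 + u 12 + u 17 + u 15 + u 8 + u 9 + u 10 + u 11 + u 0 + u 1 + u 2 + u 3)) -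
      η / 2 * (u 4 * (v 14 + v 12) + v 4 * (u 14 + u 12) +
        u 7 * (v 17 + v 15) + v 7 * (u 17 + u 15)) -
      η / 2 * (u 8 * v 1 + v 8 * u 1 +
        u 9 * v 0 + v 9 * u 0 +
        u 10 * v 3 + v 10 * u 3 +
        u 11 * v 2 + v 11 * u 2),
    u 6 * v 6 + η * (u 6 * (v 7 + v 4) + v 6 * (u 7 + u 4)) +
      η / 2 * (u 6 * (v 14 + v 12 + v 17 + v 15 + v 8 + v 9 + v 10 + v 11 + v 0 + v 1 + v 2 + v 3) +
        v 6 * (u 14 + u 12 + u 17 + u 15 + u 8 + u 9 + u 10 + u 11 + u 0 + u 1 + u 2 + u 3)) -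
      η / 2 * (u 7 * (v 14 + v 12) + v 7 * (u 14 + u 12) +
        u 4 * (v 17 + v 15) + v 4 * (u 17 + u 15)) -
      η / 2 * (u 8 * v 2 + v 8 * u 2 +
        u 9 * v 3 + v 9 * u 3 +
        u 10 * v 0 + v 10 * u 0 +
        u 11 * v 1 + v 11 * u 1),
    u 7 * v 7 + η * (u 7 * (v 6 + v 5) + v 7 * (u 6 + u 5)) +
      η / 2 * (u 7 * (v 14 + v 12 + v 17 + v 15 + v 8 + v 9 + v 10 + v 11 + v 0 + v 1 + v 2 + v 3) +
        v 7 * (u 14 + u 12 + u 17 + u 15 + u 8 + u 9 + u 10 + u 11 + u 0 + u 1 + u 2 + u 3)) -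
      η / 2 * (u 6 * (v 14 + v 12) + v 6 * (u 14 + u 12) +
        u 5 * (v 17 + v 15) + v 5 * (u 17 + u 15)) -
      η / 2 * (u 8 * v 3 + v 8 * u 3 +
        u 9 * v 2 + v 9 * u 2 +
        u 10 * v 1 + v 10 * u 1 +
        u 11 * v 0 + v 11 * u 0),
    u 8 * v 8 + η * (u 8 * (v 9 + v 10) + v 8 * (u 9 + u 10)) +
      η / 2 * (u 8 * (v 12 + v 13 + v 15 + v 16 + v 0 + v 1 + v 2 + v 3 + v 4 + v 5 + v 6 + v 7) +
        v 8 * (u 12 + u 13 + u 15 + u 16 + u 0 + u 1 + u 2 + u 3 + u 4 + u 5 + u 6 + u 7)) -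
      η / 2 * (u 9 * (v 12 + v 13) + v 9 * (u 12 + u 13) +
        u 10 * (v 15 + v 16) + v 10 * (u 15 + u 16)) -
      η / 2 * (u 0 * v 4 + v 0 * u 4 +
        u 1 * v 5 + v 1 * u 5 +
        u 2 * v 6 + v 2 * u 6 +
        u 3 * v 7 + v 3 * u 7),
    u 9 * v 9 + η * (u 9 * (v 8 + v 11) + v 9 * (u 8 + u 11)) +
      η / 2 * (u 9 * (v 12 + v 13 + v 15 + v 16 + v 0 + v 1 + v 2 + v 3 + v 4 + v 5 + v 6 + v 7) +
        v 9 * (u 12 + u 13 + u 15 + u 16 + u 0 + u 1 + u 2 + u 3 + u 4 + u 5 + u 6 + u 7)) -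
      η / 2 * (u 8 * (v 12 + v 13) + v 8 * (u 12 + u 13) +
        u 11 * (v 15 + v 16) + v 11 * (u 15 + u 16)) -
      η / 2 * (u 0 * v 5 + v 0 * u 5 +
        u 1 * v 4 + v 1 * u 4 +
        u 2 * v 7 + v 2 * u 7 +
        u 3 * v 6 + v 3 * u 6),
    u 10 * v 10 + η * (u 10 * (v 11 + v 8) + v 10 * (u 11 + u 8)) +
      η / 2 * (u 10 * (v 12 + v 13 + v 15 + v 16 + v 0 + v 1 + v 2 + v 3 + v 4 + v 5 + v 6 + v 7) +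
        v 10 * (u 12 + u 13 + u 15 + u 16 + u 0 + u 1 + u 2 + u 3 + u 4 + u 5 + u 6 + u 7)) -
      η / 2 * (u 11 * (v 12 + v 13) + v 11 * (u 12 + u 13) +
        u 8 * (v 15 + v 16) + v 8 * (u 15 + u 16)) -
      η / 2 * (u 0 * v 6 + v 0 * u 6 +
        u 1 * v 7 + v 1 * u 7 +
        u 2 * v 4 + v 2 * u 4 +
        u 3 * v 5 + v 3 * u 5),
    u 11 * v 11 + η * (u 11 * (v 10 + v 9) + v 11 * (u 10 + u 9)) +
      η / 2 * (u 11 * (v 12 + v 13 + v 15 + v 16 + v 0 + v 1 + v 2 + v 3 + v 4 + v 5 + v 6 + v 7) +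
        v 11 * (u 12 + u 13 + u 15 + u 16 + u 0 + u 1 + u 2 + u 3 + u 4 + u 5 + u 6 + u 7)) -
      η / 2 * (u 10 * (v 12 + v 13) + v 10 * (u 12 + u 13) +
        u 9 * (v 15 + v 16) + v 9 * (u 15 + u 16)) -
      η / 2 * (u 0 * v 7 + v 0 * u 7 +
        u 1 * v 6 + v 1 * u 6 +
        u 2 * v 5 + v 2 * u 5 +
        u 3 * v 4 + v 3 * u 4),
    u 12 * v 12 +
      η * (u 12 * (v 4 + v 5 + v 6 + v 7 + v 8 + v 9 + v 10 + v 11) +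
        v 12 * (u 4 + u 5 + u 6 + u 7 + u 8 + u 9 + u 10 + u 11)) -
      η * (u 4 * v 5 + u 5 * v 4 + u 6 * v 7 + u 7 * v 6 +
        u 8 * v 9 + u 9 * v 8 + u 10 * v 11 + u 11 * v 10),
    u 13 * v 13 +
      η * (u 13 * (v 8 + v 9 + v 10 + v 11 + v 0 + v 1 + v 2 + v 3) +
        v 13 * (u 8 + u 9 + u 10 + u 11 + u 0 + u 1 + u 2 + u 3)) -
      η * (u 8 * v 9 + u 9 * v 8 + u 10 * v 11 + u 11 * v 10 +
        u 0 * v 1 + u 1 * v 0 + u 2 * v 3 + u 3 * v 2),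
    u 14 * v 14 +
      η * (u 14 * (v 0 + v 1 + v 2 + v 3 + v 4 + v 5 + v 6 + v 7) +
        v 14 * (u 0 + u 1 + u 2 + u 3 + u 4 + u 5 + u 6 + u 7)) -
      η * (u 0 * v 1 + u 1 * v 0 + u 2 * v 3 + u 3 * v 2 +
        u 4 * v 5 + u 5 * v 4 + u 6 * v 7 + u 7 * v 6),
    u 15 * v 15 +
      η * (u 15 * (v 4 + v 5 + v 6 + v 7 + v 8 + v 9 + v 10 + v 11) +
        v 15 * (u 4 + u 5 + u 6 + u 7 + u 8 + u 9 + u 10 + u 11)) -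
      η * (u 4 * v 6 + u 5 * v 7 + u 6 * v 4 + u 7 * v 5 +
        u 8 * v 10 + u 9 * v 11 + u 10 * v 8 + u 11 * v 9),
    u 16 * v 16 +
      η * (u 16 * (v 8 + v 9 + v 10 + v 11 + v 0 + v 1 + v 2 + v 3) +
        v 16 * (u 8 + u 9 + u 10 + u 11 + u 0 + u 1 + u 2 + u 3)) -
      η * (u 8 * v 10 + u 9 * v 11 + u 10 * v 8 + u 11 * v 9 +
        u 0 * v 2 + u 1 * v 3 + u 2 * v 0 + u 3 * v 1),
    u 17 * v 17 +
      η * (u 17 * (v 0 + v 1 + v 2 + v 3 + v 4 + v 5 + v 6 + v 7) +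
        v 17 * (u 0 + u 1 + u 2 + u 3 + u 4 + u 5 + u 6 + u 7)) -
      η * (u 0 * v 2 + u 1 * v 3 + u 2 * v 0 + u 3 * v 1 +
        u 4 * v 6 + u 5 * v 7 + u 6 * v 4 + u 7 * v 5)]

theorem mulF_0 (η : ℝ) (u v : Fin 18 → ℝ) : mulF η u v 0 =
    u 0 * v 0 + η * (u 0 * (v 1 + v 2) + v 0 * (u 1 + u 2)) +
      η / 2 * (u 0 * (v 13 + v 14 + v 16 + v 17 + v 4 + v 5 + v 6 + v 7 + v 8 + v 9 + v 10 + v 11) +
        v 0 * (u 13 + u 14 + u 16 + u 17 + u 4 + u 5 + u 6 + u 7 + u 8 + u 9 + u 10 + u 11)) -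
      η / 2 * (u 1 * (v 13 + v 14) + v 1 * (u 13 + u 14) +
        u 2 * (v 16 + v 17) + v 2 * (u 16 + u 17)) -
      η / 2 * (u 4 * v 8 + v 4 * u 8 +
        u 5 * v 9 + v 5 * u 9 +
        u 6 * v 10 + v 6 * u 10 +
        u 7 * v 11 + v 7 * u 11) := rfl

theorem mulF_1 (η : ℝ) (u v : Fin 18 → ℝ) : mulF η u v 1 =
    u 1 * v 1 + η * (u 1 * (v 0 + v 3) + v 1 * (u 0 + u 3)) +
      η / 2 * (u 1 * (v 13 + v 14 + v 16 + v 17 + v 4 + v 5 + v 6 + v 7 + v 8 + v 9 + v 10 + v 11) +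
        v 1 * (u 13 + u 14 + u 16 + u 17 + u 4 + u 5 + u 6 + u 7 + u 8 + u 9 + u 10 + u 11)) -
      η / 2 * (u 0 * (v 13 + v 14) + v 0 * (u 13 + u 14) +
        u 3 * (v 16 + v 17) + v 3 * (u 16 + u 17)) -
      η / 2 * (u 4 * v 9 + v 4 * u 9 +
        u 5 * v 8 + v 5 * u 8 +
        u 6 * v 11 + v 6 * u 11 +
        u 7 * v 10 + v 7 * u 10) := rfl

theorem mulF_2 (η : ℝ) (u v : Fin 18 → ℝ) : mulF η u v 2 =
    u 2 * v 2 + η * (u 2 * (v 3 + v 0) + v 2 * (u 3 + u 0)) +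
      η / 2 * (u 2 * (v 13 + v 14 + v 16 + v 17 + v 4 + v 5 + v 6 + v 7 + v 8 + v 9 + v 10 + v 11) +
        v 2 * (u 13 + u 14 + u 16 + u 17 + u 4 + u 5 + u 6 + u 7 + u 8 + u 9 + u 10 + u 11)) -
      η / 2 * (u 3 * (v 13 + v 14) + v 3 * (u 13 + u 14) +
        u 0 * (v 16 + v 17) + v 0 * (u 16 + u 17)) -
      η / 2 * (u 4 * v 10 + v 4 * u 10 +
        u 5 * v 11 + v 5 * u 11 +
        u 6 * v 8 + v 6 * u 8 +
        u 7 * v 9 + v 7 * u 9) := rfl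

theorem mulF_3 (η : ℝ) (u v : Fin 18 → ℝ) : mulF η u v 3 =
    u 3 * v 3 + η * (u 3 * (v 2 + v 1) + v 3 * (u 2 + u 1)) +
      η / 2 * (u 3 * (v 13 + v 14 + v 16 + v 17 + v 4 + v 5 + v 6 + v 7 + v 8 + v 9 + v 10 + v 11) +
        v 3 * (u 13 + u 14 + u 16 + u 17 + u 4 + u 5 + u 6 + u 7 + u 8 + u 9 + u 10 + u 11)) -
      η / 2 * (u 2 * (v 13 + v 14) + v 2 * (u 13 + u 14) +
        u 1 * (v 16 + v 17) + v 1 * (u 16 + u 17)) -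
      η / 2 * (u 4 * v 11 + v 4 * u 11 +
        u 5 * v 10 + v 5 * u 10 +
        u 6 * v 9 + v 6 * u 9 +
        u 7 * v 8 + v 7 * u 8) := rfl

theorem mulF_4 (η : ℝ) (u v : Fin 18 → ℝ) : mulF η u v 4 =
    u 4 * v 4 + η * (u 4 * (v 5 + v 6) + v 4 * (u 5 + u 6)) +
      η / 2 * (u 4 * (v 14 + v 12 + v 17 + v 15 + v 8 + v 9 + v 10 + v 11 + v 0 + v 1 + v 2 + v 3) +
        v 4 * (u 14 + u 12 + u 17 + u 15 + u 8 + u 9 + u 10 + u 11 + u 0 + u 1 + u 2 + u 3)) -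
      η / 2 * (u 5 * (v 14 + v 12) + v 5 * (u 14 + u 12) +
        u 6 * (v 17 + v 15) + v 6 * (u 17 + u 15)) -
      η / 2 * (u 8 * v 0 + v 8 * u 0 +
        u 9 * v 1 + v 9 * u 1 +
        u 10 * v 2 + v 10 * u 2 +
        u 11 * v 3 + v 11 * u 3) := rfl

theorem mulF_5 (η : ℝ) (u v : Fin 18 → ℝ) : mulF η u v 5 =
    u 5 * v 5 + η * (u 5 * (v 4 + v 7) + v 5 * (u 4 + u 7)) +
      η / 2 * (u 5 * (v 14 + v 12 + v 17 + v 15 + v 8 + v 9 + v 10 + v 11 + v 0 + v 1 + v 2 + v 3) +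
        v 5 * (u 14 + u 12 + u 17 + u 15 + u 8 + u 9 + u 10 + u 11 + u 0 + u 1 + u 2 + u 3)) -
      η / 2 * (u 4 * (v 14 + v 12) + v 4 * (u 14 + u 12) +
        u 7 * (v 17 + v 15) + v 7 * (u 17 + u 15)) -
      η / 2 * (u 8 * v 1 + v 8 * u 1 +
        u 9 * v 0 + v 9 * u 0 +
        u 10 * v 3 + v 10 * u 3 +
        u 11 * v 2 + v 11 * u 2) := rfl

theorem mulF_6 (η : ℝ) (u v : Fin 18 → ℝ) : mulF η u v 6 =
    u 6 * v 6 + η * (u 6 * (v 7 + v 4) + v 6 * (u 7 + u 4)) +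
      η / 2 * (u 6 * (v 14 + v 12 + v 17 + v 15 + v 8 + v 9 + v 10 + v 11 + v 0 + v 1 + v 2 + v 3) +
        v 6 * (u 14 + u 12 + u 17 + u 15 + u 8 + u 9 + u 10 + u 11 + u 0 + u 1 + u 2 + u 3)) -
      η / 2 * (u 7 * (v 14 + v 12) + v 7 * (u 14 + u 12) +
        u 4 * (v 17 + v 15) + v 4 * (u 17 + u 15)) -
      η / 2 * (u 8 * v 2 + v 8 * u 2 +
        u 9 * v 3 + v 9 * u 3 +
        u 10 * v 0 + v 10 * u 0 +
        u 11 * v 1 + v 11 * u 1) := rfl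

theorem mulF_7 (η : ℝ) (u v : Fin 18 → ℝ) : mulF η u v 7 =
    u 7 * v 7 + η * (u 7 * (v 6 + v 5) + v 7 * (u 6 + u 5)) +
      η / 2 * (u 7 * (v 14 + v 12 + v 17 + v 15 + v 8 + v 9 + v 10 + v 11 + v 0 + v 1 + v 2 + v 3) +
        v 7 * (u 14 + u 12 + u 17 + u 15 + u 8 + u 9 + u 10 + u 11 + u 0 + u 1 + u 2 + u 3)) -
      η / 2 * (u 6 * (v 14 + v 12) + v 6 * (u 14 + u 12) +
        u 5 * (v 17 + v 15) + v 5 * (u 17 + u 15)) -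
      η / 2 * (u 8 * v 3 + v 8 * u 3 +
        u 9 * v 2 + v 9 * u 2 +
        u 10 * v 1 + v 10 * u 1 +
        u 11 * v 0 + v 11 * u 0) := rfl

theorem mulF_8 (η : ℝ) (u v : Fin 18 → ℝ) : mulF η u v 8 =
    u 8 * v 8 + η * (u 8 * (v 9 + v 10) + v 8 * (u 9 + u 10)) +
      η / 2 * (u 8 * (v 12 + v 13 + v 15 + v 16 + v 0 + v 1 + v 2 + v 3 + v 4 + v 5 + v 6 + v 7) +
        v 8 * (u 12 + u 13 + u 15 + u 16 + u 0 + u 1 + u 2 + u 3 + u 4 + u 5 + u 6 + u 7)) -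
      η / 2 * (u 9 * (v 12 + v 13) + v 9 * (u 12 + u 13) +
        u 10 * (v 15 + v 16) + v 10 * (u 15 + u 16)) -
      η / 2 * (u 0 * v 4 + v 0 * u 4 +
        u 1 * v 5 + v 1 * u 5 +
        u 2 * v 6 + v 2 * u 6 +
        u 3 * v 7 + v 3 * u 7) := rfl

theorem mulF_9 (η : ℝ) (u v : Fin 18 → ℝ) : mulF η u v 9 =
    u 9 * v 9 + η * (u 9 * (v 8 + v 11) + v 9 * (u 8 + u 11)) +
      η / 2 * (u 9 * (v 12 + v 13 + v 15 + v 16 + v 0 + v 1 + v 2 + v 3 + v 4 + v 5 + v 6 + v 7) +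
        v 9 * (u 12 + u 13 + u 15 + u 16 + u 0 + u 1 + u 2 + u 3 + u 4 + u 5 + u 6 + u 7)) -
      η / 2 * (u 8 * (v 12 + v 13) + v 8 * (u 12 + u 13) +
        u 11 * (v 15 + v 16) + v 11 * (u 15 + u 16)) -
      η / 2 * (u 0 * v 5 + v 0 * u 5 +
        u 1 * v 4 + v 1 * u 4 +
        u 2 * v 7 + v 2 * u 7 +
        u 3 * v 6 + v 3 * u 6) := rfl

theorem mulF_10 (η : ℝ) (u v : Fin 18 → ℝ) : mulF η u v 10 =
    u 10 * v 10 + η * (u 10 * (v 11 + v 8) + v 10 * (u 11 + u 8)) +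
      η / 2 * (u 10 * (v 12 + v 13 + v 15 + v 16 + v 0 + v 1 + v 2 + v 3 + v 4 + v 5 + v 6 + v 7) +
        v 10 * (u 12 + u 13 + u 15 + u 16 + u 0 + u 1 + u 2 + u 3 + u 4 + u 5 + u 6 + u 7)) -
      η / 2 * (u 11 * (v 12 + v 13) + v 11 * (u 12 + u 13) +
        u 8 * (v 15 + v 16) + v 8 * (u 15 + u 16)) -
      η / 2 * (u 0 * v 6 + v 0 * u 6 +
        u 1 * v 7 + v 1 * u 7 +
        u 2 * v 4 + v 2 * u 4 +
        u 3 * v 5 + v 3 * u 5) := rfl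

theorem mulF_11 (η : ℝ) (u v : Fin 18 → ℝ) : mulF η u v 11 =
    u 11 * v 11 + η * (u 11 * (v 10 + v 9) + v 11 * (u 10 + u 9)) +
      η / 2 * (u 11 * (v 12 + v 13 + v 15 + v 16 + v 0 + v 1 + v 2 + v 3 + v 4 + v 5 + v 6 + v 7) +
        v 11 * (u 12 + u 13 + u 15 + u 16 + u 0 + u 1 + u 2 + u 3 + u 4 + u 5 + u 6 + u 7)) -
      η / 2 * (u 10 * (v 12 + v 13) + v 10 * (u 12 + u 13) +
        u 9 * (v 15 + v 16) + v 9 * (u 15 + u 16)) -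
      η / 2 * (u 0 * v 7 + v 0 * u 7 +
        u 1 * v 6 + v 1 * u 6 +
        u 2 * v 5 + v 2 * u 5 +
        u 3 * v 4 + v 3 * u 4) := rfl

theorem mulF_12 (η : ℝ) (u v : Fin 18 → ℝ) : mulF η u v 12 =
    u 12 * v 12 +
      η * (u 12 * (v 4 + v 5 + v 6 + v 7 + v 8 + v 9 + v 10 + v 11) +
        v 12 * (u 4 + u 5 + u 6 + u 7 + u 8 + u 9 + u 10 + u 11)) -
      η * (u 4 * v 5 + u 5 * v 4 + u 6 * v 7 + u 7 * v 6 +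
        u 8 * v 9 + u 9 * v 8 + u 10 * v 11 + u 11 * v 10) := rfl

theorem mulF_13 (η : ℝ) (u v : Fin 18 → ℝ) : mulF η u v 13 =
    u 13 * v 13 +
      η * (u 13 * (v 8 + v 9 + v 10 + v 11 + v 0 + v 1 + v 2 + v 3) +
        v 13 * (u 8 + u 9 + u 10 + u 11 + u 0 + u 1 + u 2 + u 3)) -
      η * (u 8 * v 9 + u 9 * v 8 + u 10 * v 11 + u 11 * v 10 +
        u 0 * v 1 + u 1 * v 0 + u 2 * v 3 + u 3 * v 2) := rfl

theorem mulF_14 (η : ℝ) (u v : Fin 18 → ℝ) : mulF η u v 14 =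
    u 14 * v 14 +
      η * (u 14 * (v 0 + v 1 + v 2 + v 3 + v 4 + v 5 + v 6 + v 7) +
        v 14 * (u 0 + u 1 + u 2 + u 3 + u 4 + u 5 + u 6 + u 7)) -
      η * (u 0 * v 1 + u 1 * v 0 + u 2 * v 3 + u 3 * v 2 +
        u 4 * v 5 + u 5 * v 4 + u 6 * v 7 + u 7 * v 6) := rfl

theorem mulF_15 (η : ℝ) (u v : Fin 18 → ℝ) : mulF η u v 15 =
    u 15 * v 15 +
      η * (u 15 * (v 4 + v 5 + v 6 + v 7 + v 8 + v 9 + v 10 + v 11) +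
        v 15 * (u 4 + u 5 + u 6 + u 7 + u 8 + u 9 + u 10 + u 11)) -
      η * (u 4 * v 6 + u 5 * v 7 + u 6 * v 4 + u 7 * v 5 +
        u 8 * v 10 + u 9 * v 11 + u 10 * v 8 + u 11 * v 9) := rfl

theorem mulF_16 (η : ℝ) (u v : Fin 18 → ℝ) : mulF η u v 16 =
    u 16 * v 16 +
      η * (u 16 * (v 8 + v 9 + v 10 + v 11 + v 0 + v 1 + v 2 + v 3) +
        v 16 * (u 8 + u 9 + u 10 + u 11 + u 0 + u 1 + u 2 + u 3)) -
      η * (u 8 * v 10 + u 9 * v 11 + u 10 * v 8 + u 11 * v 9 +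
        u 0 * v 2 + u 1 * v 3 + u 2 * v 0 + u 3 * v 1) := rfl

theorem mulF_17 (η : ℝ) (u v : Fin 18 → ℝ) : mulF η u v 17 =
    u 17 * v 17 +
      η * (u 17 * (v 0 + v 1 + v 2 + v 3 + v 4 + v 5 + v 6 + v 7) +
        v 17 * (u 0 + u 1 + u 2 + u 3 + u 4 + u 5 + u 6 + u 7)) -
      η * (u 0 * v 2 + u 1 * v 3 + u 2 * v 0 + u 3 * v 1 +
        u 4 * v 6 + u 5 * v 7 + u 6 * v 4 + u 7 * v 5) := rfl

theorem forall_fin18 {Q : Fin 18 → Prop} (h : Q 0 ∧ Q 1 ∧ Q 2 ∧ Q 3 ∧ Q 4 ∧ Q 5 ∧ Q 6 ∧ Q 7 ∧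
    Q 8 ∧ Q 9 ∧ Q 10 ∧ Q 11 ∧ Q 12 ∧ Q 13 ∧ Q 14 ∧ Q 15 ∧ Q 16 ∧ Q 17) : ∀ i, Q i := by
  obtain ⟨h0, h1, h2, h3, h4, h5, h6, h7, h8, h9, h10, h11, h12, h13, h14, h15, h16, h17⟩ := h
  intro i
  fin_cases i <;> assumption

theorem ext18 {u v : Fin 18 → ℝ} (h : u 0 = v 0 ∧ u 1 = v 1 ∧ u 2 = v 2 ∧ u 3 = v 3 ∧ u 4 = v 4 ∧
    u 5 = v 5 ∧ u 6 = v 6 ∧ u 7 = v 7 ∧ u 8 = v 8 ∧ u 9 = v 9 ∧ u 10 = v 10 ∧ u 11 = v 11 ∧
    u 12 = v 12 ∧ u 13 = v 13 ∧ u 14 = v 14 ∧ u 15 = v 15 ∧ u 16 = v 16 ∧ u 17 = v 17) : u = v :=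
  funext (forall_fin18 h)

/-- The product of `D` as a bilinear map. -/
def mD (η : ℝ) : (Fin 18 → ℝ) →ₗ[ℝ] (Fin 18 → ℝ) →ₗ[ℝ] (Fin 18 → ℝ) :=
  LinearMap.mk₂ ℝ (mulF η)
    (by
      intro u v w
      apply ext18
      simp only [Pi.add_apply, mulF_0, mulF_1, mulF_2, mulF_3, mulF_4, mulF_5, mulF_6, mulF_7, mulF_8, mulF_9, mulF_10, mulF_11, mulF_12, mulF_13, mulF_14, mulF_15, mulF_16, mulF_17]
      refine ⟨?_, ?_, ?_, ?_, ?_, ?_, ?_, ?_, ?_, ?_, ?_, ?_, ?_, ?_, ?_, ?_, ?_, ?_⟩ <;>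
        ring)
    (by
      intro c u v
      apply ext18
      simp only [Pi.smul_apply, smul_eq_mul, mulF_0, mulF_1, mulF_2, mulF_3, mulF_4, mulF_5, mulF_6, mulF_7, mulF_8, mulF_9, mulF_10, mulF_11, mulF_12, mulF_13, mulF_14, mulF_15, mulF_16, mulF_17]
      refine ⟨?_, ?_, ?_, ?_, ?_, ?_, ?_, ?_, ?_, ?_, ?_, ?_, ?_, ?_, ?_, ?_, ?_, ?_⟩ <;>
        ring)
    (by
      intro u v w
      apply ext18
      simp only [Pi.add_apply, mulF_0, mulF_1, mulF_2, mulF_3, mulF_4, mulF_5, mulF_6, mulF_7, mulF_8, mulF_9, mulF_10, mulF_11, mulF_12, mulF_13, mulF_14, mulF_15, mulF_16, mulF_17]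
      refine ⟨?_, ?_, ?_, ?_, ?_, ?_, ?_, ?_, ?_, ?_, ?_, ?_, ?_, ?_, ?_, ?_, ?_, ?_⟩ <;>
        ring)
    (by
      intro c u v
      apply ext18
      simp only [Pi.smul_apply, smul_eq_mul, mulF_0, mulF_1, mulF_2, mulF_3, mulF_4, mulF_5, mulF_6, mulF_7, mulF_8, mulF_9, mulF_10, mulF_11, mulF_12, mulF_13, mulF_14, mulF_15, mulF_16, mulF_17]
      refine ⟨?_, ?_, ?_, ?_, ?_, ?_, ?_, ?_, ?_, ?_, ?_, ?_, ?_, ?_, ?_, ?_, ?_, ?_⟩ <;>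
        ring)

theorem mD_apply (η : ℝ) (u v : Fin 18 → ℝ) : mD η u v = mulF η u v := rfl

theorem mD_comm (η : ℝ) (u v : Fin 18 → ℝ) : mD η u v = mD η v u := by
  rw [mD_apply, mD_apply]
  apply ext18
  simp only [mulF_0, mulF_1, mulF_2, mulF_3, mulF_4, mulF_5, mulF_6, mulF_7, mulF_8, mulF_9, mulF_10, mulF_11, mulF_12, mulF_13, mulF_14, mulF_15, mulF_16, mulF_17]
  refine ⟨?_, ?_, ?_, ?_, ?_, ?_, ?_, ?_, ?_, ?_, ?_, ?_, ?_, ?_, ?_, ?_, ?_, ?_⟩ <;>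
    ring

end

end Pool.Agent.H.MP_8db76d_al.D18
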