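import Pool.Agent.H.MP_8db76d_al.D18

/-!
The form `δ`, the map `Ψ`, the functional `χ`, the vector `Z` and the Frobenius form of the
18-dimensional algebra.
-/

namespace Pool.Agent.H.MP_8db76d_al.D18

open Pool.Agent.H.MP_8db76d_al.Bil Pool.Agent.H.MP_8db76d_al.Ext

noncomputable section

/-- The form `δ` with `δ(p_i, r_(i+1)) = 1`, `δ(p_i, r_(i+2)) = -1`. -/
def δD : (Fin 18 → ℝ) →ₗ[ℝ] (Fin 18 → ℝ) →ₗ[ℝ] ℝ :=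
  LinearMap.mk₂ ℝ (fun u v => u 12 * (v 16 - v 17) + u 13 * (v 17 - v 15) + u 14 * (v 15 - v 16) + v 12 * (u 16 - u 17) + v 13 * (u 17 - u 15) + v 14 * (u 15 - u 16))
    (by intro u v w; simp only [Pi.add_apply]; ring)
    (by intro c u v; simp only [Pi.smul_apply, smul_eq_mul]; ring)
    (by intro u v w; simp only [Pi.add_apply]; ring)
    (by intro c u v; simp only [Pi.smul_apply, smul_eq_mul]; ring)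

theorem δD_apply (u v : Fin 18 → ℝ) : δD u v = u 12 * (v 16 - v 17) + u 13 * (v 17 - v 15) + u 14 * (v 15 - v 16) + v 12 * (u 16 - u 17) + v 13 * (u 17 - u 15) + v 14 * (u 15 - u 16) := rfl

theorem δD_comm (u v : Fin 18 → ℝ) : δD u v = δD v u := by
  rw [δD_apply, δD_apply]; ring

/-- The underlying function of `Ψ`. -/
def ΨF (η : ℝ) (u : Fin 18 → ℝ) : Fin 18 → ℝ :=
  ![
    2 * (1 + 8 * η) * (η * (u 14 - u 13 + u 16 - u 17)),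
    2 * (1 + 8 * η) * (η * (u 14 - u 13 + u 16 - u 17)),
    2 * (1 + 8 * η) * (η * (u 14 - u 13 + u 16 - u 17)),
    2 * (1 + 8 * η) * (η * (u 14 - u 13 + u 16 - u 17)),
    2 * (1 + 8 * η) * (η * (u 12 - u 14 + u 17 - u 15)),
    2 * (1 + 8 * η) * (η * (u 12 - u 14 + u 17 - u 15)),
    2 * (1 + 8 * η) * (η * (u 12 - u 14 + u 17 - u 15)),
    2 * (1 + 8 * η) * (η * (u 12 - u 14 + u 17 - u 15)),
    2 * (1 + 8 * η) * (η * (u 13 - u 12 + u 15 - u 16)),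
    2 * (1 + 8 * η) * (η * (u 13 - u 12 + u 15 - u 16)),
    2 * (1 + 8 * η) * (η * (u 13 - u 12 + u 15 - u 16)),
    2 * (1 + 8 * η) * (η * (u 13 - u 12 + u 15 - u 16)),
    2 * (1 + 8 * η) * (4 * η ^ 2 * (u 14 - u 13) +
      2 * (1 - 2 * η ^ 2) * (u 16 - u 17)),
    2 * (1 + 8 * η) * (4 * η ^ 2 * (u 12 - u 14) +
      2 * (1 - 2 * η ^ 2) * (u 17 - u 15)),
    2 * (1 + 8 * η) * (4 * η ^ 2 * (u 13 - u 12) +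
      2 * (1 - 2 * η ^ 2) * (u 15 - u 16)),
    2 * (1 + 8 * η) * (2 * (1 - 2 * η ^ 2) * (u 14 - u 13) +
      4 * η ^ 2 * (u 16 - u 17)),
    2 * (1 + 8 * η) * (2 * (1 - 2 * η ^ 2) * (u 12 - u 14) +
      4 * η ^ 2 * (u 17 - u 15)),
    2 * (1 + 8 * η) * (2 * (1 - 2 * η ^ 2) * (u 13 - u 12) +
      4 * η ^ 2 * (u 15 - u 16))]

theorem ΨF_0 (η : ℝ) (u : Fin 18 → ℝ) : ΨF η u 0 =
    2 * (1 + 8 * η) * (η * (u 14 - u 13 + u 16 - u 17)) := rfl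

theorem ΨF_1 (η : ℝ) (u : Fin 18 → ℝ) : ΨF η u 1 =
    2 * (1 + 8 * η) * (η * (u 14 - u 13 + u 16 - u 17)) := rfl

theorem ΨF_2 (η : ℝ) (u : Fin 18 → ℝ) : ΨF η u 2 =
    2 * (1 + 8 * η) * (η * (u 14 - u 13 + u 16 - u 17)) := rfl

theorem ΨF_3 (η : ℝ) (u : Fin 18 → ℝ) : ΨF η u 3 =
    2 * (1 + 8 * η) * (η * (u 14 - u 13 + u 16 - u 17)) := rfl

theorem ΨF_4 (η : ℝ) (u : Fin 18 → ℝ) : ΨF η u 4 =
    2 * (1 + 8 * η) * (η * (u 12 - u 14 + u 17 - u 15)) := rfl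

theorem ΨF_5 (η : ℝ) (u : Fin 18 → ℝ) : ΨF η u 5 =
    2 * (1 + 8 * η) * (η * (u 12 - u 14 + u 17 - u 15)) := rfl

theorem ΨF_6 (η : ℝ) (u : Fin 18 → ℝ) : ΨF η u 6 =
    2 * (1 + 8 * η) * (η * (u 12 - u 14 + u 17 - u 15)) := rfl

theorem ΨF_7 (η : ℝ) (u : Fin 18 → ℝ) : ΨF η u 7 =
    2 * (1 + 8 * η) * (η * (u 12 - u 14 + u 17 - u 15)) := rfl

theorem ΨF_8 (η : ℝ) (u : Fin 18 → ℝ) : ΨF η u 8 =
    2 * (1 + 8 * η) * (η * (u 13 - u 12 + u 15 - u 16)) := rfl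

theorem ΨF_9 (η : ℝ) (u : Fin 18 → ℝ) : ΨF η u 9 =
    2 * (1 + 8 * η) * (η * (u 13 - u 12 + u 15 - u 16)) := rfl

theorem ΨF_10 (η : ℝ) (u : Fin 18 → ℝ) : ΨF η u 10 =
    2 * (1 + 8 * η) * (η * (u 13 - u 12 + u 15 - u 16)) := rfl

theorem ΨF_11 (η : ℝ) (u : Fin 18 → ℝ) : ΨF η u 11 =
    2 * (1 + 8 * η) * (η * (u 13 - u 12 + u 15 - u 16)) := rfl

theorem ΨF_12 (η : ℝ) (u : Fin 18 → ℝ) : ΨF η u 12 =
    2 * (1 + 8 * η) * (4 * η ^ 2 * (u 14 - u 13) +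
      2 * (1 - 2 * η ^ 2) * (u 16 - u 17)) := rfl

theorem ΨF_13 (η : ℝ) (u : Fin 18 → ℝ) : ΨF η u 13 =
    2 * (1 + 8 * η) * (4 * η ^ 2 * (u 12 - u 14) +
      2 * (1 - 2 * η ^ 2) * (u 17 - u 15)) := rfl

theorem ΨF_14 (η : ℝ) (u : Fin 18 → ℝ) : ΨF η u 14 =
    2 * (1 + 8 * η) * (4 * η ^ 2 * (u 13 - u 12) +
      2 * (1 - 2 * η ^ 2) * (u 15 - u 16)) := rfl

theorem ΨF_15 (η : ℝ) (u : Fin 18 → ℝ) : ΨF η u 15 =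
    2 * (1 + 8 * η) * (2 * (1 - 2 * η ^ 2) * (u 14 - u 13) +
      4 * η ^ 2 * (u 16 - u 17)) := rfl

theorem ΨF_16 (η : ℝ) (u : Fin 18 → ℝ) : ΨF η u 16 =
    2 * (1 + 8 * η) * (2 * (1 - 2 * η ^ 2) * (u 12 - u 14) +
      4 * η ^ 2 * (u 17 - u 15)) := rfl

theorem ΨF_17 (η : ℝ) (u : Fin 18 → ℝ) : ΨF η u 17 =
    2 * (1 + 8 * η) * (2 * (1 - 2 * η ^ 2) * (u 13 - u 12) +
      4 * η ^ 2 * (u 15 - u 16)) := rfl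

/-- The map `Ψ`. -/
def ΨD (η : ℝ) : (Fin 18 → ℝ) →ₗ[ℝ] (Fin 18 → ℝ) where
  toFun := ΨF η
  map_add' u v := by
    apply ext18
    simp only [Pi.add_apply, ΨF_0, ΨF_1, ΨF_2, ΨF_3, ΨF_4, ΨF_5, ΨF_6, ΨF_7, ΨF_8, ΨF_9, ΨF_10, ΨF_11, ΨF_12, ΨF_13, ΨF_14, ΨF_15, ΨF_16, ΨF_17]
    refine ⟨?_, ?_, ?_, ?_, ?_, ?_, ?_, ?_, ?_, ?_, ?_, ?_, ?_, ?_, ?_, ?_, ?_, ?_⟩ <;>
      ring
  map_smul' c u := by
    apply ext18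
    simp only [Pi.smul_apply, smul_eq_mul, RingHom.id_apply, ΨF_0, ΨF_1, ΨF_2, ΨF_3, ΨF_4, ΨF_5, ΨF_6, ΨF_7, ΨF_8, ΨF_9, ΨF_10, ΨF_11, ΨF_12, ΨF_13, ΨF_14, ΨF_15, ΨF_16, ΨF_17]
    refine ⟨?_, ?_, ?_, ?_, ?_, ?_, ?_, ?_, ?_, ?_, ?_, ?_, ?_, ?_, ?_, ?_, ?_, ?_⟩ <;>
      ring

theorem ΨD_apply (η : ℝ) (u : Fin 18 → ℝ) : ΨD η u = ΨF η u := rfl

/-- The functional `χ`. -/
def χD (η : ℝ) : (Fin 18 → ℝ) →ₗ[ℝ] ℝ where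
  toFun u := η * (u 0 + u 1 + u 2 + u 3 + u 4 + u 5 + u 6 + u 7 + u 8 + u 9 + u 10 + u 11) +
    η / 2 * (u 12 + u 13 + u 14 + u 15 + u 16 + u 17)
  map_add' u v := by simp only [Pi.add_apply]; ring
  map_smul' c u := by simp only [Pi.smul_apply, smul_eq_mul, RingHom.id_apply]; ring

theorem χD_apply (η : ℝ) (u : Fin 18 → ℝ) : χD η u =
    η * (u 0 + u 1 + u 2 + u 3 + u 4 + u 5 + u 6 + u 7 + u 8 + u 9 + u 10 + u 11) +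
    η / 2 * (u 12 + u 13 + u 14 + u 15 + u 16 + u 17) := rfl

/-- The vector `Z`. -/
def ZD (η : ℝ) : Fin 18 → ℝ := fun _ => 2 * η * (1 - 4 * η ^ 2)

theorem ZD_apply (η : ℝ) (i : Fin 18) : ZD η i = 2 * η * (1 - 4 * η ^ 2) := rfl

/-- The Frobenius form of `D`. -/
def fD (η : ℝ) : LinearMap.BilinForm ℝ (Fin 18 → ℝ) :=
  LinearMap.mk₂ ℝ (fun u v => 2 * (u 0 * v 0 + u 1 * v 1 + u 2 * v 2 + u 3 * v 3 + u 4 * v 4 + u 5 * v 5 + u 6 * v 6 + u 7 * v 7 + u 8 * v 8 + u 9 * v 9 + u 10 * v 10 + u 11 * v 11) +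
    2 * η * (u 0 * (v 1 + v 2) + u 1 * (v 0 + v 3) + u 2 * (v 3 + v 0) + u 3 * (v 2 + v 1) + u 4 * (v 5 + v 6) + u 5 * (v 4 + v 7) + u 6 * (v 7 + v 4) + u 7 * (v 6 + v 5) + u 8 * (v 9 + v 10) + u 9 * (v 8 + v 11) + u 10 * (v 11 + v 8) + u 11 * (v 10 + v 9)) +
    η * ((u 0 + u 1 + u 2 + u 3) * ((v 4 + v 5 + v 6 + v 7) + (v 8 + v 9 + v 10 + v 11)) +
      (u 4 + u 5 + u 6 + u 7) * ((v 8 + v 9 + v 10 + v 11) + (v 0 + v 1 + v 2 + v 3)) +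
      (u 8 + u 9 + u 10 + u 11) * ((v 0 + v 1 + v 2 + v 3) + (v 4 + v 5 + v 6 + v 7))) +
    η * ((u 12 + u 15) * ((v 4 + v 5 + v 6 + v 7) + (v 8 + v 9 + v 10 + v 11)) +
      (v 12 + v 15) * ((u 4 + u 5 + u 6 + u 7) + (u 8 + u 9 + u 10 + u 11)) +
      (u 13 + u 16) * ((v 8 + v 9 + v 10 + v 11) + (v 0 + v 1 + v 2 + v 3)) +
      (v 13 + v 16) * ((u 8 + u 9 + u 10 + u 11) + (u 0 + u 1 + u 2 + u 3)) +
      (u 14 + u 17) * ((v 0 + v 1 + v 2 + v 3) + (v 4 + v 5 + v 6 + v 7)) +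
      (v 14 + v 17) * ((u 0 + u 1 + u 2 + u 3) + (u 4 + u 5 + u 6 + u 7))) +
    (u 12 * v 12 + u 13 * v 13 + u 14 * v 14 + u 15 * v 15 + u 16 * v 16 + u 17 * v 17))
    (by intro u v w; simp only [Pi.add_apply]; ring)
    (by intro c u v; simp only [Pi.smul_apply, smul_eq_mul]; ring)
    (by intro u v w; simp only [Pi.add_apply]; ring)
    (by intro c u v; simp only [Pi.smul_apply, smul_eq_mul]; ring)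

theorem fD_apply (η : ℝ) (u v : Fin 18 → ℝ) : fD η u v =
    2 * (u 0 * v 0 + u 1 * v 1 + u 2 * v 2 + u 3 * v 3 + u 4 * v 4 + u 5 * v 5 + u 6 * v 6 + u 7 * v 7 + u 8 * v 8 + u 9 * v 9 + u 10 * v 10 + u 11 * v 11) +
    2 * η * (u 0 * (v 1 + v 2) + u 1 * (v 0 + v 3) + u 2 * (v 3 + v 0) + u 3 * (v 2 + v 1) + u 4 * (v 5 + v 6) + u 5 * (v 4 + v 7) + u 6 * (v 7 + v 4) + u 7 * (v 6 + v 5) + u 8 * (v 9 + v 10) + u 9 * (v 8 + v 11) + u 10 * (v 11 + v 8) + u 11 * (v 10 + v 9)) +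
    η * ((u 0 + u 1 + u 2 + u 3) * ((v 4 + v 5 + v 6 + v 7) + (v 8 + v 9 + v 10 + v 11)) +
      (u 4 + u 5 + u 6 + u 7) * ((v 8 + v 9 + v 10 + v 11) + (v 0 + v 1 + v 2 + v 3)) +
      (u 8 + u 9 + u 10 + u 11) * ((v 0 + v 1 + v 2 + v 3) + (v 4 + v 5 + v 6 + v 7))) +
    η * ((u 12 + u 15) * ((v 4 + v 5 + v 6 + v 7) + (v 8 + v 9 + v 10 + v 11)) +
      (v 12 + v 15) * ((u 4 + u 5 + u 6 + u 7) + (u 8 + u 9 + u 10 + u 11)) +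
      (u 13 + u 16) * ((v 8 + v 9 + v 10 + v 11) + (v 0 + v 1 + v 2 + v 3)) +
      (v 13 + v 16) * ((u 8 + u 9 + u 10 + u 11) + (u 0 + u 1 + u 2 + u 3)) +
      (u 14 + u 17) * ((v 0 + v 1 + v 2 + v 3) + (v 4 + v 5 + v 6 + v 7)) +
      (v 14 + v 17) * ((u 0 + u 1 + u 2 + u 3) + (u 4 + u 5 + u 6 + u 7))) +
    (u 12 * v 12 + u 13 * v 13 + u 14 * v 14 + u 15 * v 15 + u 16 * v 16 + u 17 * v 17) := rfl

theorem fD_comm (η : ℝ) (u v : Fin 18 → ℝ) : fD η u v = fD η v u := by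
  rw [fD_apply, fD_apply]; ring

theorem fD_assoc (η : ℝ) (u v w : Fin 18 → ℝ) : fD η (mD η u v) w = fD η u (mD η v w) := by
  rw [fD_apply, fD_apply]
  simp only [mD_apply, mulF_0, mulF_1, mulF_2, mulF_3, mulF_4, mulF_5, mulF_6, mulF_7, mulF_8, mulF_9, mulF_10, mulF_11, mulF_12, mulF_13, mulF_14, mulF_15, mulF_16, mulF_17]
  ring

theorem fD_Ψ (η : ℝ) (u v : Fin 18 → ℝ) :
    fD η (ΨD η u) v = 4 * (1 - 4 * η ^ 2) * (1 + 8 * η) * δD u v := by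
  rw [fD_apply, δD_apply]
  simp only [ΨD_apply, ΨF_0, ΨF_1, ΨF_2, ΨF_3, ΨF_4, ΨF_5, ΨF_6, ΨF_7, ΨF_8, ΨF_9, ΨF_10, ΨF_11, ΨF_12, ΨF_13, ΨF_14, ΨF_15, ΨF_16, ΨF_17]
  ring

theorem fD_Z (η : ℝ) (v : Fin 18 → ℝ) :
    fD η (ZD η) v = 4 * (1 - 4 * η ^ 2) * (1 + 8 * η) * χD η v := by
  rw [fD_apply, χD_apply]
  simp only [ZD_apply]
  ring

theorem fD_self (η : ℝ) (u : Fin 18 → ℝ) : fD η u u =
    (1 - 2 * η) * (2 * (u 0 ^ 2 + u 1 ^ 2 + u 2 ^ 2 + u 3 ^ 2 + u 4 ^ 2 + u 5 ^ 2 + u 6 ^ 2 + u 7 ^ 2 + u 8 ^ 2 + u 9 ^ 2 + u 10 ^ 2 + u 11 ^ 2) +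
      (u 12 ^ 2 + u 13 ^ 2 + u 14 ^ 2 + u 15 ^ 2 + u 16 ^ 2 + u 17 ^ 2)) +
    η * (((u 4 + u 5 + u 6 + u 7) + (u 8 + u 9 + u 10 + u 11) + u 12 + u 15) ^ 2 + ((u 8 + u 9 + u 10 + u 11) + (u 0 + u 1 + u 2 + u 3) + u 13 + u 16) ^ 2 + ((u 0 + u 1 + u 2 + u 3) + (u 4 + u 5 + u 6 + u 7) + u 14 + u 17) ^ 2) +
    2 * η * ((u 3 - u 0) ^ 2 + (u 2 - u 1) ^ 2 + (u 7 - u 4) ^ 2 + (u 6 - u 5) ^ 2 + (u 11 - u 8) ^ 2 + (u 10 - u 9) ^ 2) +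
    η * ((u 15 - u 12) ^ 2 + (u 16 - u 13) ^ 2 + (u 17 - u 14) ^ 2) := by
  rw [fD_apply]; ring

theorem fD_pos (η : ℝ) (h0 : 0 < η) (h1 : η < 1 / 2) (u : Fin 18 → ℝ) (hu : u ≠ 0) :
    0 < fD η u u := by
  have h2 : 0 < 1 - 2 * η := by linarith
  rw [fD_self]
  have hpos : 0 < 2 * (u 0 ^ 2 + u 1 ^ 2 + u 2 ^ 2 + u 3 ^ 2 + u 4 ^ 2 + u 5 ^ 2 + u 6 ^ 2 + u 7 ^ 2 + u 8 ^ 2 + u 9 ^ 2 + u 10 ^ 2 + u 11 ^ 2) +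
      (u 12 ^ 2 + u 13 ^ 2 + u 14 ^ 2 + u 15 ^ 2 + u 16 ^ 2 + u 17 ^ 2) := by
    by_contra hcon
    push Not at hcon
    apply hu
    have hsq := fun i : Fin 18 => sq_nonneg (u i)
    have hz : ∀ i : Fin 18, u i ^ 2 = 0 := by
      have g0 := hsq 0
      have g1 := hsq 1
      have g2 := hsq 2
      have g3 := hsq 3
      have g4 := hsq 4
      have g5 := hsq 5
      have g6 := hsq 6
      have g7 := hsq 7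
      have g8 := hsq 8
      have g9 := hsq 9
      have g10 := hsq 10
      have g11 := hsq 11
      have g12 := hsq 12
      have g13 := hsq 13
      have g14 := hsq 14
      have g15 := hsq 15
      have g16 := hsq 16
      have g17 := hsq 17
      apply forall_fin18
      refine ⟨?_, ?_, ?_, ?_, ?_, ?_, ?_, ?_, ?_, ?_, ?_, ?_, ?_, ?_, ?_, ?_, ?_, ?_⟩ <;>
        linarith
    funext i
    exact pow_eq_zero_iff (two_ne_zero) |>.mp (hz i)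
  have hn : 0 ≤ η * (((u 4 + u 5 + u 6 + u 7) + (u 8 + u 9 + u 10 + u 11) + u 12 + u 15) ^ 2 + ((u 8 + u 9 + u 10 + u 11) + (u 0 + u 1 + u 2 + u 3) + u 13 + u 16) ^ 2 + ((u 0 + u 1 + u 2 + u 3) + (u 4 + u 5 + u 6 + u 7) + u 14 + u 17) ^ 2) +
    2 * η * ((u 3 - u 0) ^ 2 + (u 2 - u 1) ^ 2 + (u 7 - u 4) ^ 2 + (u 6 - u 5) ^ 2 + (u 11 - u 8) ^ 2 + (u 10 - u 9) ^ 2) +
    η * ((u 15 - u 12) ^ 2 + (u 16 - u 13) ^ 2 + (u 17 - u 14) ^ 2) := by positivity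
  have := mul_pos h2 hpos
  linarith

end

end Pool.Agent.H.MP_8db76d_al.D18
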