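import Pool.Agent.H.MP_8db76d_al.D18b

/-!
The axis `x^0_0` (first basis vector) of the 18-dimensional algebra.
-/

namespace Pool.Agent.H.MP_8db76d_al.D18

open Pool.Agent.H.MP_8db76d_al.Bil Pool.Agent.H.MP_8db76d_al.Ext

noncomputable section

/-- The standard basis vectors. -/
def E (i : Fin 18) : Fin 18 → ℝ := fun j => if j = i then 1 else 0

theorem E_apply (i j : Fin 18) : E i j = if j = i then 1 else 0 := rfl

/-- Multiplication by `x^0_0`. -/
theorem mD_E0 (η : ℝ) (u : Fin 18 → ℝ) : mD η (E 0) u =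
  ![
    u 0 + η * (u 1 + u 2) + η / 2 * (u 13 + u 14 + u 16 + u 17 + u 4 + u 5 + u 6 + u 7 + u 8 + u 9 + u 10 + u 11),
    η * u 1 - η / 2 * (u 13 + u 14),
    η * u 2 - η / 2 * (u 16 + u 17),
    0,
    η / 2 * (u 4 - u 8),
    η / 2 * (u 5 - u 9),
    η / 2 * (u 6 - u 10),
    η / 2 * (u 7 - u 11),
    η / 2 * (u 8 - u 4),
    η / 2 * (u 9 - u 5),
    η / 2 * (u 10 - u 6),
    η / 2 * (u 11 - u 7),
    0,
    η * u 13 - η * u 1,
    η * u 14 - η * u 1,
    0,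
    η * u 16 - η * u 2,
    η * u 17 - η * u 2] := by
  apply ext18
  simp only [mD_apply, mulF_0, mulF_1, mulF_2, mulF_3, mulF_4, mulF_5, mulF_6, mulF_7, mulF_8, mulF_9, mulF_10, mulF_11, mulF_12, mulF_13, mulF_14, mulF_15, mulF_16, mulF_17, E_apply]
  refine ⟨?_, ?_, ?_, ?_, ?_, ?_, ?_, ?_, ?_, ?_, ?_, ?_, ?_, ?_, ?_, ?_, ?_, ?_⟩ <;>
    simp <;> ring

theorem mem_eig_E0 (η l : ℝ) (u : Fin 18 → ℝ) : u ∈ eig (mD η) (E 0) l ↔
    (u 0 + η * (u 1 + u 2) + η / 2 * (u 13 + u 14 + u 16 + u 17 + u 4 + u 5 + u 6 + u 7 + u 8 + u 9 + u 10 + u 11) = l * u 0 ∧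
    η * u 1 - η / 2 * (u 13 + u 14) = l * u 1 ∧
    η * u 2 - η / 2 * (u 16 + u 17) = l * u 2 ∧
    0 = l * u 3 ∧
    η / 2 * (u 4 - u 8) = l * u 4 ∧
    η / 2 * (u 5 - u 9) = l * u 5 ∧
    η / 2 * (u 6 - u 10) = l * u 6 ∧
    η / 2 * (u 7 - u 11) = l * u 7 ∧
    η / 2 * (u 8 - u 4) = l * u 8 ∧
    η / 2 * (u 9 - u 5) = l * u 9 ∧
    η / 2 * (u 10 - u 6) = l * u 10 ∧
    η / 2 * (u 11 - u 7) = l * u 11 ∧
    0 = l * u 12 ∧
    η * u 13 - η * u 1 = l * u 13 ∧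
    η * u 14 - η * u 1 = l * u 14 ∧
    0 = l * u 15 ∧
    η * u 16 - η * u 2 = l * u 16 ∧
    η * u 17 - η * u 2 = l * u 17) := by
  rw [mem_eig, mD_E0]
  constructor
  · intro h
    exact ⟨congrFun h 0, congrFun h 1, congrFun h 2, congrFun h 3, congrFun h 4, congrFun h 5, congrFun h 6, congrFun h 7, congrFun h 8, congrFun h 9, congrFun h 10, congrFun h 11, congrFun h 12, congrFun h 13, congrFun h 14, congrFun h 15, congrFun h 16, congrFun h 17⟩
  · rintro ⟨h0, h1, h2, h3, h4, h5, h6, h7, h8, h9, h10, h11, h12, h13, h14, h15, h16, h17⟩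
    exact ext18 ⟨h0, h1, h2, h3, h4, h5, h6, h7, h8, h9, h10, h11, h12, h13, h14, h15, h16, h17⟩

/-- The `0`-eigenspace. -/
theorem mem_zero {η : ℝ} (h0 : 0 < η) (u : Fin 18 → ℝ) : u ∈ eig (mD η) (E 0) 0 ↔
    (u 13 = u 1 ∧ u 14 = u 1 ∧ u 16 = u 2 ∧ u 17 = u 2 ∧ u 8 = u 4 ∧ u 9 = u 5 ∧ u 10 = u 6 ∧
      u 11 = u 7 ∧ u 0 = -2 * η * (u 1 + u 2) - η * (u 4 + u 5 + u 6 + u 7)) := by
  have hη : η ≠ 0 := h0.ne'
  rw [mem_eig_E0]
  constructor
  · rintro ⟨e0, e1, e2, e3, e4, e5, e6, e7, e8, e9, e10, e11, e12, e13, e14, e15, e16, e17⟩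
    have h13 : u 13 = u 1 := by apply mul_left_cancel₀ hη; linear_combination e13
    have h14 : u 14 = u 1 := by apply mul_left_cancel₀ hη; linear_combination e14
    have h16 : u 16 = u 2 := by apply mul_left_cancel₀ hη; linear_combination e16
    have h17 : u 17 = u 2 := by apply mul_left_cancel₀ hη; linear_combination e17
    have h8 : u 8 = u 4 := by apply mul_left_cancel₀ hη; linear_combination 2 * e8
    have h9 : u 9 = u 5 := by apply mul_left_cancel₀ hη; linear_combination 2 * e9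
    have h10 : u 10 = u 6 := by apply mul_left_cancel₀ hη; linear_combination 2 * e10
    have h11 : u 11 = u 7 := by apply mul_left_cancel₀ hη; linear_combination 2 * e11
    refine ⟨h13, h14, h16, h17, h8, h9, h10, h11, ?_⟩
    rw [h13, h14, h16, h17, h8, h9, h10, h11] at e0
    linear_combination e0
  · rintro ⟨h13, h14, h16, h17, h8, h9, h10, h11, hu0⟩
    simp only [h13, h14, h16, h17, h8, h9, h10, h11, hu0]
    refine ⟨?_, ?_, ?_, ?_, ?_, ?_, ?_, ?_, ?_, ?_, ?_, ?_, ?_, ?_, ?_, ?_, ?_, ?_⟩ <;>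
      ring

/-- The `2 η`-eigenspace. -/
theorem mem_alpha {η : ℝ} (h0 : 0 < η) (h1 : η < 1 / 2) (u : Fin 18 → ℝ) :
    u ∈ eig (mD η) (E 0) (2 * η) ↔
    (u 0 = 0 ∧ u 3 = 0 ∧ u 4 = 0 ∧ u 5 = 0 ∧ u 6 = 0 ∧ u 7 = 0 ∧ u 8 = 0 ∧ u 9 = 0 ∧ u 10 = 0 ∧
      u 11 = 0 ∧ u 12 = 0 ∧ u 15 = 0 ∧ u 13 = -u 1 ∧ u 14 = -u 1 ∧ u 16 = -u 2 ∧
      u 17 = -u 2) := by
  have hη : η ≠ 0 := h0.ne'
  have h2 : 1 - 2 * η ≠ 0 := by intro h; linarith
  rw [mem_eig_E0]
  constructor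
  · rintro ⟨e0, e1, e2, e3, e4, e5, e6, e7, e8, e9, e10, e11, e12, e13, e14, e15, e16, e17⟩
    have g3 : u 3 = 0 := by apply mul_left_cancel₀ hη; linear_combination (-1 / 2 : ℝ) * e3
    have g12 : u 12 = 0 := by apply mul_left_cancel₀ hη; linear_combination (-1 / 2 : ℝ) * e12
    have g15 : u 15 = 0 := by apply mul_left_cancel₀ hη; linear_combination (-1 / 2 : ℝ) * e15
    have g4 : u 4 = 0 := by
      apply mul_left_cancel₀ hη
      linear_combination (-3 / 4 : ℝ) * e4 + (-1 / 4 : ℝ) * (-e8)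
    have g8 : u 8 = 0 := by
      apply mul_left_cancel₀ hη
      linear_combination (-3 / 4 : ℝ) * e8 + (-1 / 4 : ℝ) * (-e4)
    have g5 : u 5 = 0 := by
      apply mul_left_cancel₀ hη
      linear_combination (-3 / 4 : ℝ) * e5 + (-1 / 4 : ℝ) * (-e9)
    have g9 : u 9 = 0 := by
      apply mul_left_cancel₀ hη
      linear_combination (-3 / 4 : ℝ) * e9 + (-1 / 4 : ℝ) * (-e5)
    have g6 : u 6 = 0 := by
      apply mul_left_cancel₀ hη
      linear_combination (-3 / 4 : ℝ) * e6 + (-1 / 4 : ℝ) * (-e10)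
    have g10 : u 10 = 0 := by
      apply mul_left_cancel₀ hη
      linear_combination (-3 / 4 : ℝ) * e10 + (-1 / 4 : ℝ) * (-e6)
    have g7 : u 7 = 0 := by
      apply mul_left_cancel₀ hη
      linear_combination (-3 / 4 : ℝ) * e7 + (-1 / 4 : ℝ) * (-e11)
    have g11 : u 11 = 0 := by
      apply mul_left_cancel₀ hη
      linear_combination (-3 / 4 : ℝ) * e11 + (-1 / 4 : ℝ) * (-e7)
    have g13 : u 13 = -u 1 := by apply mul_left_cancel₀ hη; linear_combination -e13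
    have g14 : u 14 = -u 1 := by apply mul_left_cancel₀ hη; linear_combination -e14
    have g16 : u 16 = -u 2 := by apply mul_left_cancel₀ hη; linear_combination -e16
    have g17 : u 17 = -u 2 := by apply mul_left_cancel₀ hη; linear_combination -e17
    have g0 : u 0 = 0 := by
      rw [g13, g14, g16, g17, g4, g5, g6, g7, g8, g9, g10, g11] at e0
      apply mul_left_cancel₀ h2
      linear_combination e0
    exact ⟨g0, g3, g4, g5, g6, g7, g8, g9, g10, g11, g12, g15, g13, g14, g16, g17⟩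
  · rintro ⟨g0, g3, g4, g5, g6, g7, g8, g9, g10, g11, g12, g15, g13, g14, g16, g17⟩
    simp only [g0, g3, g4, g5, g6, g7, g8, g9, g10, g11, g12, g15, g13, g14, g16, g17]
    refine ⟨?_, ?_, ?_, ?_, ?_, ?_, ?_, ?_, ?_, ?_, ?_, ?_, ?_, ?_, ?_, ?_, ?_, ?_⟩ <;>
      ring

/-- The `η`-eigenspace. -/
theorem mem_beta {η : ℝ} (h0 : 0 < η) (h1 : η < 1 / 2) (u : Fin 18 → ℝ) :
    u ∈ eig (mD η) (E 0) η ↔
    (u 0 = 0 ∧ u 1 = 0 ∧ u 2 = 0 ∧ u 3 = 0 ∧ u 12 = 0 ∧ u 15 = 0 ∧ u 14 = -u 13 ∧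
      u 17 = -u 16 ∧ u 8 = -u 4 ∧ u 9 = -u 5 ∧ u 10 = -u 6 ∧ u 11 = -u 7) := by
  have hη : η ≠ 0 := h0.ne'
  have h2 : 1 - η ≠ 0 := by intro h; linarith
  rw [mem_eig_E0]
  constructor
  · rintro ⟨e0, e1, e2, e3, e4, e5, e6, e7, e8, e9, e10, e11, e12, e13, e14, e15, e16, e17⟩
    have g3 : u 3 = 0 := by apply mul_left_cancel₀ hη; linear_combination -e3
    have g12 : u 12 = 0 := by apply mul_left_cancel₀ hη; linear_combination -e12
    have g15 : u 15 = 0 := by apply mul_left_cancel₀ hη; linear_combination -e15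
    have g1 : u 1 = 0 := by apply mul_left_cancel₀ hη; linear_combination -e13
    have g2 : u 2 = 0 := by apply mul_left_cancel₀ hη; linear_combination -e16
    have g14 : u 14 = -u 13 := by apply mul_left_cancel₀ hη; linear_combination (-2 : ℝ) * e1
    have g17 : u 17 = -u 16 := by apply mul_left_cancel₀ hη; linear_combination (-2 : ℝ) * e2
    have g8 : u 8 = -u 4 := by apply mul_left_cancel₀ hη; linear_combination (-2 : ℝ) * e4
    have g9 : u 9 = -u 5 := by apply mul_left_cancel₀ hη; linear_combination (-2 : ℝ) * e5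
    have g10 : u 10 = -u 6 := by apply mul_left_cancel₀ hη; linear_combination (-2 : ℝ) * e6
    have g11 : u 11 = -u 7 := by apply mul_left_cancel₀ hη; linear_combination (-2 : ℝ) * e7
    have g0 : u 0 = 0 := by
      rw [g14, g17, g1, g2, g8, g9, g10, g11] at e0
      apply mul_left_cancel₀ h2
      linear_combination e0
    exact ⟨g0, g1, g2, g3, g12, g15, g14, g17, g8, g9, g10, g11⟩
  · rintro ⟨g0, g1, g2, g3, g12, g15, g14, g17, g8, g9, g10, g11⟩
    simp only [g0, g1, g2, g3, g12, g15, g14, g17, g8, g9, g10, g11]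
    refine ⟨?_, ?_, ?_, ?_, ?_, ?_, ?_, ?_, ?_, ?_, ?_, ?_, ?_, ?_, ?_, ?_, ?_, ?_⟩ <;>
      ring

/-- The `1`-eigenspace. -/
theorem prim {η : ℝ} (h0 : 0 < η) (h1 : η < 1 / 2) (u : Fin 18 → ℝ) (hu : mD η (E 0) u = u) :
    ∃ c : ℝ, u = c • E 0 := by
  have hη : η ≠ 0 := h0.ne'
  have h2 : 1 - 2 * η ≠ 0 := by intro h; linarith
  have h3 : 1 - η ≠ 0 := by intro h; linarith
  have hmem : u ∈ eig (mD η) (E 0) 1 := by rw [mem_eig, one_smul]; exact hu
  rw [mem_eig_E0] at hmem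
  obtain ⟨e0, e1, e2, e3, e4, e5, e6, e7, e8, e9, e10, e11, e12, e13, e14, e15, e16, e17⟩ := hmem
  have g3 : u 3 = 0 := by linear_combination -e3
  have g12 : u 12 = 0 := by linear_combination -e12
  have g15 : u 15 = 0 := by linear_combination -e15
  have g1 : u 1 = 0 := by
    apply mul_left_cancel₀ h2
    linear_combination (-(1 - η)) * e1 + η / 2 * (e13 + e14)
  have g2 : u 2 = 0 := by
    apply mul_left_cancel₀ h2
    linear_combination (-(1 - η)) * e2 + η / 2 * (e16 + e17)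
  have g13 : u 13 = 0 := by
    apply mul_left_cancel₀ h3
    linear_combination (-1 : ℝ) * e13 - η * g1
  have g14 : u 14 = 0 := by
    apply mul_left_cancel₀ h3
    linear_combination (-1 : ℝ) * e14 - η * g1
  have g16 : u 16 = 0 := by
    apply mul_left_cancel₀ h3
    linear_combination (-1 : ℝ) * e16 - η * g2
  have g17 : u 17 = 0 := by
    apply mul_left_cancel₀ h3
    linear_combination (-1 : ℝ) * e17 - η * g2
  have g4 : u 4 = 0 := by
    apply mul_left_cancel₀ h3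
    linear_combination (-(1 - η / 2)) * e4 - η / 2 * (-e8)
  have g8 : u 8 = 0 := by
    apply mul_left_cancel₀ h3
    linear_combination (-(1 - η / 2)) * e8 - η / 2 * (-e4)
  have g5 : u 5 = 0 := by
    apply mul_left_cancel₀ h3
    linear_combination (-(1 - η / 2)) * e5 - η / 2 * (-e9)
  have g9 : u 9 = 0 := by
    apply mul_left_cancel₀ h3
    linear_combination (-(1 - η / 2)) * e9 - η / 2 * (-e5)
  have g6 : u 6 = 0 := by
    apply mul_left_cancel₀ h3
    linear_combination (-(1 - η / 2)) * e6 - η / 2 * (-e10)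
  have g10 : u 10 = 0 := by
    apply mul_left_cancel₀ h3
    linear_combination (-(1 - η / 2)) * e10 - η / 2 * (-e6)
  have g7 : u 7 = 0 := by
    apply mul_left_cancel₀ h3
    linear_combination (-(1 - η / 2)) * e7 - η / 2 * (-e11)
  have g11 : u 11 = 0 := by
    apply mul_left_cancel₀ h3
    linear_combination (-(1 - η / 2)) * e11 - η / 2 * (-e7)
  refine ⟨u 0, ?_⟩
  apply ext18
  simp [E_apply, g1, g2, g3, g4, g5, g6, g7, g8, g9, g10, g11, g12, g13, g14, g15, g16, g17]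

end

end Pool.Agent.H.MP_8db76d_al.D18
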