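import Pool.Agent.H.MP_8db76d_al.D18c

/-!
The axis `x^0_0` of the 18-dimensional algebra is good.
-/

namespace Pool.Agent.H.MP_8db76d_al.D18

open Pool.Agent.H.MP_8db76d_al.Bil Pool.Agent.H.MP_8db76d_al.Ext

set_option linter.unusedSimpArgs false
set_option linter.unusedVariables false

noncomputable section

theorem E0_mem {η : ℝ} (c : ℝ) : c • E 0 ∈ eig (mD η) (E 0) 1 := by
  refine Submodule.smul_mem _ _ ?_
  rw [mem_eig_E0]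
  simp [E_apply]

theorem mem_one_zero {η : ℝ} (h0 : 0 < η) (u : Fin 18 → ℝ) (h13 : u 13 = u 1) (h14 : u 14 = u 1)
    (h16 : u 16 = u 2) (h17 : u 17 = u 2) (h8 : u 8 = u 4) (h9 : u 9 = u 5) (h10 : u 10 = u 6)
    (h11 : u 11 = u 7) : u ∈ eig (mD η) (E 0) 1 ⊔ eig (mD η) (E 0) 0 := by
  have hu : u = (u 0 - (-2 * η * (u 1 + u 2) - η * (u 4 + u 5 + u 6 + u 7))) • E 0 +
      (fun i => if i = 0 then -2 * η * (u 1 + u 2) - η * (u 4 + u 5 + u 6 + u 7) else u i) := by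
    funext i
    by_cases hi : i = 0
    · subst hi; simp [E_apply]
    · simp [E_apply, hi]
  rw [hu]
  refine Submodule.add_mem_sup (E0_mem _) ?_
  rw [mem_zero h0]
  simp [h13, h14, h16, h17, h8, h9, h10, h11]

theorem mem_plus {η : ℝ} (h0 : 0 < η) (h1 : η < 1 / 2) (u : Fin 18 → ℝ) (h14 : u 14 = u 13)
    (h17 : u 17 = u 16) (h8 : u 8 = u 4) (h9 : u 9 = u 5) (h10 : u 10 = u 6)
    (h11 : u 11 = u 7) :
    u ∈ eig (mD η) (E 0) 1 ⊔ eig (mD η) (E 0) 0 ⊔ eig (mD η) (E 0) (2 * η) := by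
  have hu : u = (fun i => ![u 0, (u 1 + u 13) / 2, (u 2 + u 16) / 2, u 3, u 4, u 5, u 6, u 7,
        u 4, u 5, u 6, u 7, u 12, (u 1 + u 13) / 2, (u 1 + u 13) / 2, u 15, (u 2 + u 16) / 2,
        (u 2 + u 16) / 2] i) +
      (fun i => ![0, (u 1 - u 13) / 2, (u 2 - u 16) / 2, 0, 0, 0, 0, 0, 0, 0, 0, 0, 0,
        -((u 1 - u 13) / 2), -((u 1 - u 13) / 2), 0, -((u 2 - u 16) / 2),
        -((u 2 - u 16) / 2)] i) := by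
    apply ext18
    simp only [Pi.add_apply]
    refine ⟨?_, ?_, ?_, ?_, ?_, ?_, ?_, ?_, ?_, ?_, ?_, ?_, ?_, ?_, ?_, ?_, ?_, ?_⟩ <;>
      simp <;> linarith
  rw [hu]
  refine Submodule.add_mem_sup (mem_one_zero h0 _ ?_ ?_ ?_ ?_ ?_ ?_ ?_ ?_) ?_
  · rfl
  · rfl
  · rfl
  · rfl
  · rfl
  · rfl
  · rfl
  · rfl
  · rw [mem_alpha h0 h1]
    refine ⟨?_, ?_, ?_, ?_, ?_, ?_, ?_, ?_, ?_, ?_, ?_, ?_, ?_, ?_, ?_, ?_⟩ <;>
      rfl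

theorem decomp {η : ℝ} (h0 : 0 < η) (h1 : η < 1 / 2) (u : Fin 18 → ℝ) :
    u ∈ eig (mD η) (E 0) 1 ⊔ eig (mD η) (E 0) 0 ⊔ eig (mD η) (E 0) (2 * η) ⊔
      eig (mD η) (E 0) η := by
  have hu : u = (fun i => ![u 0, u 1, u 2, u 3, (u 4 + u 8) / 2, (u 5 + u 9) / 2,
        (u 6 + u 10) / 2, (u 7 + u 11) / 2, (u 4 + u 8) / 2, (u 5 + u 9) / 2,
        (u 6 + u 10) / 2, (u 7 + u 11) / 2, u 12, (u 13 + u 14) / 2, (u 13 + u 14) / 2, u 15,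
        (u 16 + u 17) / 2, (u 16 + u 17) / 2] i) +
      (fun i => ![0, 0, 0, 0, (u 4 - u 8) / 2, (u 5 - u 9) / 2, (u 6 - u 10) / 2,
        (u 7 - u 11) / 2, -((u 4 - u 8) / 2), -((u 5 - u 9) / 2), -((u 6 - u 10) / 2),
        -((u 7 - u 11) / 2), 0, (u 13 - u 14) / 2, -((u 13 - u 14) / 2), 0,
        (u 16 - u 17) / 2, -((u 16 - u 17) / 2)] i) := by
    apply ext18
    simp only [Pi.add_apply]
    refine ⟨?_, ?_, ?_, ?_, ?_, ?_, ?_, ?_, ?_, ?_, ?_, ?_, ?_, ?_, ?_, ?_, ?_, ?_⟩ <;>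
      simp <;> ring
  rw [hu]
  refine Submodule.add_mem_sup (mem_plus h0 h1 _ ?_ ?_ ?_ ?_ ?_ ?_) ?_
  · rfl
  · rfl
  · rfl
  · rfl
  · rfl
  · rfl
  · rw [mem_beta h0 h1]
    refine ⟨?_, ?_, ?_, ?_, ?_, ?_, ?_, ?_, ?_, ?_, ?_, ?_⟩ <;>
      rfl

/-- The data of the extension. -/
def data (η : ℝ) : Data ℝ (Fin 18 → ℝ) where
  m := mD η
  δ := δD
  Ψ := ΨD η
  χ := χD η
  Z := ZD η

theorem f00 {η : ℝ} (h0 : 0 < η) (h1 : η < 1 / 2) (u v : Fin 18 → ℝ)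
    (hu : u ∈ eig (mD η) (E 0) 0) (hv : v ∈ eig (mD η) (E 0) 0) :
    mD η u v ∈ eig (mD η) (E 0) 0 := by
  rw [mem_zero h0] at hu
  rw [mem_zero h0] at hv
  obtain ⟨a13, a14, a16, a17, a8, a9, a10, a11, a0⟩ := hu
  obtain ⟨b13, b14, b16, b17, b8, b9, b10, b11, b0⟩ := hv
  rw [mem_zero h0]
  simp only [mD_apply, mulF_0, mulF_1, mulF_2, mulF_3, mulF_4, mulF_5, mulF_6, mulF_7, mulF_8, mulF_9, mulF_10, mulF_11, mulF_12, mulF_13, mulF_14, mulF_15, mulF_16, mulF_17]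
  simp only [a13, a14, a16, a17, a8, a9, a10, a11, a0, b13, b14, b16, b17, b8, b9, b10, b11, b0]
  refine ⟨?_, ?_, ?_, ?_, ?_, ?_, ?_, ?_, ?_⟩ <;>
    ring

theorem δ00 {η : ℝ} (h0 : 0 < η) (h1 : η < 1 / 2) (u v : Fin 18 → ℝ)
    (hu : u ∈ eig (mD η) (E 0) 0) (hv : v ∈ eig (mD η) (E 0) 0) :
    δD u v = 0 := by
  rw [mem_zero h0] at hu
  rw [mem_zero h0] at hv
  obtain ⟨a13, a14, a16, a17, a8, a9, a10, a11, a0⟩ := hu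
  obtain ⟨b13, b14, b16, b17, b8, b9, b10, b11, b0⟩ := hv
  rw [δD_apply]
  simp only [a13, a14, a16, a17, a8, a9, a10, a11, a0, b13, b14, b16, b17, b8, b9, b10, b11, b0]
  ring

theorem f0a {η : ℝ} (h0 : 0 < η) (h1 : η < 1 / 2) (u v : Fin 18 → ℝ)
    (hu : u ∈ eig (mD η) (E 0) 0) (hv : v ∈ eig (mD η) (E 0) (2 * η)) :
    mD η u v ∈ eig (mD η) (E 0) (2 * η) := by
  rw [mem_zero h0] at hu
  rw [mem_alpha h0 h1] at hv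
  obtain ⟨a13, a14, a16, a17, a8, a9, a10, a11, a0⟩ := hu
  obtain ⟨b0, b3, b4, b5, b6, b7, b8, b9, b10, b11, b12, b15, b13, b14, b16, b17⟩ := hv
  rw [mem_alpha h0 h1]
  simp only [mD_apply, mulF_0, mulF_1, mulF_2, mulF_3, mulF_4, mulF_5, mulF_6, mulF_7, mulF_8, mulF_9, mulF_10, mulF_11, mulF_12, mulF_13, mulF_14, mulF_15, mulF_16, mulF_17]
  simp only [a13, a14, a16, a17, a8, a9, a10, a11, a0, b0, b3, b4, b5, b6, b7, b8, b9, b10, b11, b12, b15, b13, b14, b16, b17]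
  refine ⟨?_, ?_, ?_, ?_, ?_, ?_, ?_, ?_, ?_, ?_, ?_, ?_, ?_, ?_, ?_, ?_⟩ <;>
    ring

theorem δ0a {η : ℝ} (h0 : 0 < η) (h1 : η < 1 / 2) (u v : Fin 18 → ℝ)
    (hu : u ∈ eig (mD η) (E 0) 0) (hv : v ∈ eig (mD η) (E 0) (2 * η)) :
    δD u v = 0 := by
  rw [mem_zero h0] at hu
  rw [mem_alpha h0 h1] at hv
  obtain ⟨a13, a14, a16, a17, a8, a9, a10, a11, a0⟩ := hu
  obtain ⟨b0, b3, b4, b5, b6, b7, b8, b9, b10, b11, b12, b15, b13, b14, b16, b17⟩ := hv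
  rw [δD_apply]
  simp only [a13, a14, a16, a17, a8, a9, a10, a11, a0, b0, b3, b4, b5, b6, b7, b8, b9, b10, b11, b12, b15, b13, b14, b16, b17]
  ring

theorem f0b {η : ℝ} (h0 : 0 < η) (h1 : η < 1 / 2) (u v : Fin 18 → ℝ)
    (hu : u ∈ eig (mD η) (E 0) 0) (hv : v ∈ eig (mD η) (E 0) η) :
    mD η u v ∈ eig (mD η) (E 0) η := by
  rw [mem_zero h0] at hu
  rw [mem_beta h0 h1] at hv
  obtain ⟨a13, a14, a16, a17, a8, a9, a10, a11, a0⟩ := hu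
  obtain ⟨b0, b1, b2, b3, b12, b15, b14, b17, b8, b9, b10, b11⟩ := hv
  rw [mem_beta h0 h1]
  simp only [mD_apply, mulF_0, mulF_1, mulF_2, mulF_3, mulF_4, mulF_5, mulF_6, mulF_7, mulF_8, mulF_9, mulF_10, mulF_11, mulF_12, mulF_13, mulF_14, mulF_15, mulF_16, mulF_17]
  simp only [a13, a14, a16, a17, a8, a9, a10, a11, a0, b0, b1, b2, b3, b12, b15, b14, b17, b8, b9, b10, b11]
  refine ⟨?_, ?_, ?_, ?_, ?_, ?_, ?_, ?_, ?_, ?_, ?_, ?_⟩ <;>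
    ring

theorem faa {η : ℝ} (h0 : 0 < η) (h1 : η < 1 / 2) (u v : Fin 18 → ℝ)
    (hu : u ∈ eig (mD η) (E 0) (2 * η)) (hv : v ∈ eig (mD η) (E 0) (2 * η)) :
    mD η u v ∈ eig (mD η) (E 0) 1 ⊔ eig (mD η) (E 0) 0 := by
  rw [mem_alpha h0 h1] at hu
  rw [mem_alpha h0 h1] at hv
  obtain ⟨a0, a3, a4, a5, a6, a7, a8, a9, a10, a11, a12, a15, a13, a14, a16, a17⟩ := hu
  obtain ⟨b0, b3, b4, b5, b6, b7, b8, b9, b10, b11, b12, b15, b13, b14, b16, b17⟩ := hv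
  apply mem_one_zero h0 <;>
    (simp only [mD_apply, mulF_0, mulF_1, mulF_2, mulF_3, mulF_4, mulF_5, mulF_6, mulF_7, mulF_8, mulF_9, mulF_10, mulF_11, mulF_12, mulF_13, mulF_14, mulF_15, mulF_16, mulF_17]; simp only [a0, a3, a4, a5, a6, a7, a8, a9, a10, a11, a12, a15, a13, a14, a16, a17, b0, b3, b4, b5, b6, b7, b8, b9, b10, b11, b12, b15, b13, b14, b16, b17]; ring)

theorem δaa {η : ℝ} (h0 : 0 < η) (h1 : η < 1 / 2) (u v : Fin 18 → ℝ)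
    (hu : u ∈ eig (mD η) (E 0) (2 * η)) (hv : v ∈ eig (mD η) (E 0) (2 * η)) :
    δD u v = 0 := by
  rw [mem_alpha h0 h1] at hu
  rw [mem_alpha h0 h1] at hv
  obtain ⟨a0, a3, a4, a5, a6, a7, a8, a9, a10, a11, a12, a15, a13, a14, a16, a17⟩ := hu
  obtain ⟨b0, b3, b4, b5, b6, b7, b8, b9, b10, b11, b12, b15, b13, b14, b16, b17⟩ := hv
  rw [δD_apply]
  simp only [a0, a3, a4, a5, a6, a7, a8, a9, a10, a11, a12, a15, a13, a14, a16, a17, b0, b3, b4, b5, b6, b7, b8, b9, b10, b11, b12, b15, b13, b14, b16, b17]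
  ring

theorem fab {η : ℝ} (h0 : 0 < η) (h1 : η < 1 / 2) (u v : Fin 18 → ℝ)
    (hu : u ∈ eig (mD η) (E 0) (2 * η)) (hv : v ∈ eig (mD η) (E 0) η) :
    mD η u v ∈ eig (mD η) (E 0) η := by
  rw [mem_alpha h0 h1] at hu
  rw [mem_beta h0 h1] at hv
  obtain ⟨a0, a3, a4, a5, a6, a7, a8, a9, a10, a11, a12, a15, a13, a14, a16, a17⟩ := hu
  obtain ⟨b0, b1, b2, b3, b12, b15, b14, b17, b8, b9, b10, b11⟩ := hv
  rw [mem_beta h0 h1]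
  simp only [mD_apply, mulF_0, mulF_1, mulF_2, mulF_3, mulF_4, mulF_5, mulF_6, mulF_7, mulF_8, mulF_9, mulF_10, mulF_11, mulF_12, mulF_13, mulF_14, mulF_15, mulF_16, mulF_17]
  simp only [a0, a3, a4, a5, a6, a7, a8, a9, a10, a11, a12, a15, a13, a14, a16, a17, b0, b1, b2, b3, b12, b15, b14, b17, b8, b9, b10, b11]
  refine ⟨?_, ?_, ?_, ?_, ?_, ?_, ?_, ?_, ?_, ?_, ?_, ?_⟩ <;>
    ring

theorem fbb {η : ℝ} (h0 : 0 < η) (h1 : η < 1 / 2) (u v : Fin 18 → ℝ)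
    (hu : u ∈ eig (mD η) (E 0) η) (hv : v ∈ eig (mD η) (E 0) η) :
    mD η u v ∈ eig (mD η) (E 0) 1 ⊔ eig (mD η) (E 0) 0 ⊔
      eig (mD η) (E 0) (2 * η) := by
  rw [mem_beta h0 h1] at hu
  rw [mem_beta h0 h1] at hv
  obtain ⟨a0, a1, a2, a3, a12, a15, a14, a17, a8, a9, a10, a11⟩ := hu
  obtain ⟨b0, b1, b2, b3, b12, b15, b14, b17, b8, b9, b10, b11⟩ := hv
  apply mem_plus h0 h1 <;>
    (simp only [mD_apply, mulF_0, mulF_1, mulF_2, mulF_3, mulF_4, mulF_5, mulF_6, mulF_7, mulF_8, mulF_9, mulF_10, mulF_11, mulF_12, mulF_13, mulF_14, mulF_15, mulF_16, mulF_17]; simp only [a0, a1, a2, a3, a12, a15, a14, a17, a8, a9, a10, a11, b0, b1, b2, b3, b12, b15, b14, b17, b8, b9, b10, b11]; ring)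

theorem δbb {η : ℝ} (h0 : 0 < η) (h1 : η < 1 / 2) (u v : Fin 18 → ℝ)
    (hu : u ∈ eig (mD η) (E 0) η) (hv : v ∈ eig (mD η) (E 0) η) :
    δD u v = 0 := by
  rw [mem_beta h0 h1] at hu
  rw [mem_beta h0 h1] at hv
  obtain ⟨a0, a1, a2, a3, a12, a15, a14, a17, a8, a9, a10, a11⟩ := hu
  obtain ⟨b0, b1, b2, b3, b12, b15, b14, b17, b8, b9, b10, b11⟩ := hv
  rw [δD_apply]
  simp only [a0, a1, a2, a3, a12, a15, a14, a17, a8, a9, a10, a11, b0, b1, b2, b3, b12, b15, b14, b17, b8, b9, b10, b11]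
  ring

theorem Ψ0 {η : ℝ} (h0 : 0 < η) (h1 : η < 1 / 2) (u : Fin 18 → ℝ)
    (hu : u ∈ eig (mD η) (E 0) 0) :
    ΨD η u ∈ eig (mD η) (E 0) η := by
  rw [mem_zero h0] at hu
  obtain ⟨a13, a14, a16, a17, a8, a9, a10, a11, a0⟩ := hu
  rw [mem_beta h0 h1]
  simp only [ΨD_apply, ΨF_0, ΨF_1, ΨF_2, ΨF_3, ΨF_4, ΨF_5, ΨF_6, ΨF_7, ΨF_8, ΨF_9, ΨF_10, ΨF_11, ΨF_12, ΨF_13, ΨF_14, ΨF_15, ΨF_16, ΨF_17]
  simp only [a13, a14, a16, a17, a8, a9, a10, a11, a0]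
  refine ⟨?_, ?_, ?_, ?_, ?_, ?_, ?_, ?_, ?_, ?_, ?_, ?_⟩ <;>
    ring

theorem Ψa {η : ℝ} (h0 : 0 < η) (h1 : η < 1 / 2) (u : Fin 18 → ℝ)
    (hu : u ∈ eig (mD η) (E 0) (2 * η)) :
    ΨD η u ∈ eig (mD η) (E 0) η := by
  rw [mem_alpha h0 h1] at hu
  obtain ⟨a0, a3, a4, a5, a6, a7, a8, a9, a10, a11, a12, a15, a13, a14, a16, a17⟩ := hu
  rw [mem_beta h0 h1]
  simp only [ΨD_apply, ΨF_0, ΨF_1, ΨF_2, ΨF_3, ΨF_4, ΨF_5, ΨF_6, ΨF_7, ΨF_8, ΨF_9, ΨF_10, ΨF_11, ΨF_12, ΨF_13, ΨF_14, ΨF_15, ΨF_16, ΨF_17]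
  simp only [a0, a3, a4, a5, a6, a7, a8, a9, a10, a11, a12, a15, a13, a14, a16, a17]
  refine ⟨?_, ?_, ?_, ?_, ?_, ?_, ?_, ?_, ?_, ?_, ?_, ?_⟩ <;>
    ring

theorem Ψb {η : ℝ} (h0 : 0 < η) (h1 : η < 1 / 2) (u : Fin 18 → ℝ)
    (hu : u ∈ eig (mD η) (E 0) η) :
    ΨD η u ∈ eig (mD η) (E 0) 1 ⊔ eig (mD η) (E 0) 0 ⊔
      eig (mD η) (E 0) (2 * η) := by
  rw [mem_beta h0 h1] at hu
  obtain ⟨a0, a1, a2, a3, a12, a15, a14, a17, a8, a9, a10, a11⟩ := hu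
  apply mem_plus h0 h1 <;>
    (simp only [ΨD_apply, ΨF_0, ΨF_1, ΨF_2, ΨF_3, ΨF_4, ΨF_5, ΨF_6, ΨF_7, ΨF_8, ΨF_9, ΨF_10, ΨF_11, ΨF_12, ΨF_13, ΨF_14, ΨF_15, ΨF_16, ΨF_17]; simp only [a0, a1, a2, a3, a12, a15, a14, a17, a8, a9, a10, a11]; ring)

theorem χb {η : ℝ} (h0 : 0 < η) (h1 : η < 1 / 2) (u : Fin 18 → ℝ)
    (hu : u ∈ eig (mD η) (E 0) η) :
    χD η u = 0 := by
  rw [mem_beta h0 h1] at hu
  obtain ⟨a0, a1, a2, a3, a12, a15, a14, a17, a8, a9, a10, a11⟩ := hu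
  rw [χD_apply]
  simp only [a0, a1, a2, a3, a12, a15, a14, a17, a8, a9, a10, a11]
  ring

theorem good {η : ℝ} (h0 : 0 < η) (h1 : η < 1 / 2) : Good (data η) (2 * η) η (E 0) where
  ne_zero := by
    intro h
    have := congrFun h 0
    simp [E_apply] at this
  idem := by
    have := E0_mem (η := η) 1
    rw [one_smul, mem_eig, one_smul] at this
    exact this
  δ_zero v := by
    show δD (E 0) v = 0
    rw [δD_apply]; simp [E_apply]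
  Ψ_zero := by
    show ΨD η (E 0) = 0
    apply ext18
    simp only [ΨD_apply, ΨF_0, ΨF_1, ΨF_2, ΨF_3, ΨF_4, ΨF_5, ΨF_6, ΨF_7, ΨF_8, ΨF_9, ΨF_10, ΨF_11, ΨF_12, ΨF_13, ΨF_14, ΨF_15, ΨF_16, ΨF_17, E_apply]
    simp
  χ_eq := by
    show χD η (E 0) = η
    rw [χD_apply]; simp [E_apply]
  span := decomp h0 h1
  prim := prim h0 h1
  f00 u hu v hv := f00 h0 h1 u v hu hv
  δ00 u hu v hv := δ00 h0 h1 u v hu hv
  f0a u hu v hv := f0a h0 h1 u v hu hv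
  δ0a u hu v hv := δ0a h0 h1 u v hu hv
  f0b u hu v hv := f0b h0 h1 u v hu hv
  Ψ0 := Ψ0 h0 h1
  faa u hu v hv := faa h0 h1 u v hu hv
  δaa u hu v hv := δaa h0 h1 u v hu hv
  fab u hu v hv := fab h0 h1 u v hu hv
  Ψa := Ψa h0 h1
  fbb u hu v hv := fbb h0 h1 u v hu hv
  δbb u hu v hv := δbb h0 h1 u v hu hv
  Ψb := Ψb h0 h1
  χb := χb h0 h1
  Z_mem := mem_plus h0 h1 _ rfl rfl rfl rfl rfl rfl

end

end Pool.Agent.H.MP_8db76d_al.D18
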