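import Pool.Agent.H.MP_8db76d_al.D18d

/-!
Automorphisms of the 18-dimensional algebra.
-/

namespace Pool.Agent.H.MP_8db76d_al.D18

open Pool.Agent.H.MP_8db76d_al.Bil Pool.Agent.H.MP_8db76d_al.Ext

set_option linter.unusedSimpArgs false
set_option linter.unusedTactic false
set_option linter.unreachableTactic false

noncomputable section

/-- Permuting the coordinates. -/
def perm (π : Equiv.Perm (Fin 18)) : (Fin 18 → ℝ) ≃ₗ[ℝ] (Fin 18 → ℝ) where
  toFun v := fun i => v (π i)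
  map_add' _ _ := rfl
  map_smul' _ _ := rfl
  invFun v := fun i => v (π.symm i)
  left_inv v := by funext i; simp
  right_inv v := by funext i; simp

theorem perm_apply (π : Equiv.Perm (Fin 18)) (v : Fin 18 → ℝ) (i : Fin 18) :
    perm π v i = v (π i) := rfl

theorem perm_E (π : Equiv.Perm (Fin 18)) (i : Fin 18) : perm π (E i) = E (π.symm i) := by
  funext j
  simp only [perm_apply, E_apply, Equiv.eq_symm_apply]

end

/-- A coordinate permutation. -/
def t1 : Equiv.Perm (Fin 18) where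
  toFun := ![1, 0, 3, 2, 5, 4, 7, 6, 8, 9, 10, 11, 12, 13, 14, 15, 16, 17]
  invFun := ![1, 0, 3, 2, 5, 4, 7, 6, 8, 9, 10, 11, 12, 13, 14, 15, 16, 17]
  left_inv := by decide
  right_inv := by decide

theorem t1_m (η : ℝ) (u v : Fin 18 → ℝ) :
    perm t1 (mD η u v) = mD η (perm t1 u) (perm t1 v) := by
  apply ext18
  simp only [perm_apply, show t1 0 = 1 from rfl, show t1 1 = 0 from rfl, show t1 2 = 3 from rfl, show t1 3 = 2 from rfl, show t1 4 = 5 from rfl, show t1 5 = 4 from rfl, show t1 6 = 7 from rfl, show t1 7 = 6 from rfl, show t1 8 = 8 from rfl, show t1 9 = 9 from rfl, show t1 10 = 10 from rfl, show t1 11 = 11 from rfl, show t1 12 = 12 from rfl, show t1 13 = 13 from rfl, show t1 14 = 14 from rfl, show t1 15 = 15 from rfl, show t1 16 = 16 from rfl, show t1 17 = 17 from rfl]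
  simp only [mD_apply, mulF_0, mulF_1, mulF_2, mulF_3, mulF_4, mulF_5, mulF_6, mulF_7, mulF_8, mulF_9, mulF_10, mulF_11, mulF_12, mulF_13, mulF_14, mulF_15, mulF_16, mulF_17]
  simp only [perm_apply, show t1 0 = 1 from rfl, show t1 1 = 0 from rfl, show t1 2 = 3 from rfl, show t1 3 = 2 from rfl, show t1 4 = 5 from rfl, show t1 5 = 4 from rfl, show t1 6 = 7 from rfl, show t1 7 = 6 from rfl, show t1 8 = 8 from rfl, show t1 9 = 9 from rfl, show t1 10 = 10 from rfl, show t1 11 = 11 from rfl, show t1 12 = 12 from rfl, show t1 13 = 13 from rfl, show t1 14 = 14 from rfl, show t1 15 = 15 from rfl, show t1 16 = 16 from rfl, show t1 17 = 17 from rfl]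
  refine ⟨?_, ?_, ?_, ?_, ?_, ?_, ?_, ?_, ?_, ?_, ?_, ?_, ?_, ?_, ?_, ?_, ?_, ?_⟩ <;>
    first | trivial | ring

theorem t1_δ (u v : Fin 18 → ℝ) : δD (perm t1 u) (perm t1 v) = δD u v := by
  rw [δD_apply, δD_apply]
  simp only [perm_apply, show t1 0 = 1 from rfl, show t1 1 = 0 from rfl, show t1 2 = 3 from rfl, show t1 3 = 2 from rfl, show t1 4 = 5 from rfl, show t1 5 = 4 from rfl, show t1 6 = 7 from rfl, show t1 7 = 6 from rfl, show t1 8 = 8 from rfl, show t1 9 = 9 from rfl, show t1 10 = 10 from rfl, show t1 11 = 11 from rfl, show t1 12 = 12 from rfl, show t1 13 = 13 from rfl, show t1 14 = 14 from rfl, show t1 15 = 15 from rfl, show t1 16 = 16 from rfl, show t1 17 = 17 from rfl]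
  try ring

theorem t1_Ψ (η : ℝ) (u : Fin 18 → ℝ) :
    perm t1 (ΨD η u) = ΨD η (perm t1 u) := by
  apply ext18
  simp only [perm_apply, show t1 0 = 1 from rfl, show t1 1 = 0 from rfl, show t1 2 = 3 from rfl, show t1 3 = 2 from rfl, show t1 4 = 5 from rfl, show t1 5 = 4 from rfl, show t1 6 = 7 from rfl, show t1 7 = 6 from rfl, show t1 8 = 8 from rfl, show t1 9 = 9 from rfl, show t1 10 = 10 from rfl, show t1 11 = 11 from rfl, show t1 12 = 12 from rfl, show t1 13 = 13 from rfl, show t1 14 = 14 from rfl, show t1 15 = 15 from rfl, show t1 16 = 16 from rfl, show t1 17 = 17 from rfl]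
  simp only [ΨD_apply, ΨF_0, ΨF_1, ΨF_2, ΨF_3, ΨF_4, ΨF_5, ΨF_6, ΨF_7, ΨF_8, ΨF_9, ΨF_10, ΨF_11, ΨF_12, ΨF_13, ΨF_14, ΨF_15, ΨF_16, ΨF_17]
  simp only [perm_apply, show t1 0 = 1 from rfl, show t1 1 = 0 from rfl, show t1 2 = 3 from rfl, show t1 3 = 2 from rfl, show t1 4 = 5 from rfl, show t1 5 = 4 from rfl, show t1 6 = 7 from rfl, show t1 7 = 6 from rfl, show t1 8 = 8 from rfl, show t1 9 = 9 from rfl, show t1 10 = 10 from rfl, show t1 11 = 11 from rfl, show t1 12 = 12 from rfl, show t1 13 = 13 from rfl, show t1 14 = 14 from rfl, show t1 15 = 15 from rfl, show t1 16 = 16 from rfl, show t1 17 = 17 from rfl]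
  refine ⟨?_, ?_, ?_, ?_, ?_, ?_, ?_, ?_, ?_, ?_, ?_, ?_, ?_, ?_, ?_, ?_, ?_, ?_⟩ <;>
    first | trivial | ring

theorem t1_χ (η : ℝ) (u : Fin 18 → ℝ) : χD η (perm t1 u) = χD η u := by
  rw [χD_apply, χD_apply]
  simp only [perm_apply, show t1 0 = 1 from rfl, show t1 1 = 0 from rfl, show t1 2 = 3 from rfl, show t1 3 = 2 from rfl, show t1 4 = 5 from rfl, show t1 5 = 4 from rfl, show t1 6 = 7 from rfl, show t1 7 = 6 from rfl, show t1 8 = 8 from rfl, show t1 9 = 9 from rfl, show t1 10 = 10 from rfl, show t1 11 = 11 from rfl, show t1 12 = 12 from rfl, show t1 13 = 13 from rfl, show t1 14 = 14 from rfl, show t1 15 = 15 from rfl, show t1 16 = 16 from rfl, show t1 17 = 17 from rfl]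
  ring

theorem t1_Z (η : ℝ) : perm t1 (ZD η) = ZD η := rfl

/-- A coordinate permutation. -/
def t2 : Equiv.Perm (Fin 18) where
  toFun := ![2, 3, 0, 1, 6, 7, 4, 5, 8, 9, 10, 11, 12, 13, 14, 15, 16, 17]
  invFun := ![2, 3, 0, 1, 6, 7, 4, 5, 8, 9, 10, 11, 12, 13, 14, 15, 16, 17]
  left_inv := by decide
  right_inv := by decide

theorem t2_m (η : ℝ) (u v : Fin 18 → ℝ) :
    perm t2 (mD η u v) = mD η (perm t2 u) (perm t2 v) := by
  apply ext18
  simp only [perm_apply, show t2 0 = 2 from rfl, show t2 1 = 3 from rfl, show t2 2 = 0 from rfl, show t2 3 = 1 from rfl, show t2 4 = 6 from rfl, show t2 5 = 7 from rfl, show t2 6 = 4 from rfl, show t2 7 = 5 from rfl, show t2 8 = 8 from rfl, show t2 9 = 9 from rfl, show t2 10 = 10 from rfl, show t2 11 = 11 from rfl, show t2 12 = 12 from rfl, show t2 13 = 13 from rfl, show t2 14 = 14 from rfl, show t2 15 = 15 from rfl, show t2 16 = 16 from rfl, show t2 17 = 17 from rfl]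
  simp only [mD_apply, mulF_0, mulF_1, mulF_2, mulF_3, mulF_4, mulF_5, mulF_6, mulF_7, mulF_8, mulF_9, mulF_10, mulF_11, mulF_12, mulF_13, mulF_14, mulF_15, mulF_16, mulF_17]
  simp only [perm_apply, show t2 0 = 2 from rfl, show t2 1 = 3 from rfl, show t2 2 = 0 from rfl, show t2 3 = 1 from rfl, show t2 4 = 6 from rfl, show t2 5 = 7 from rfl, show t2 6 = 4 from rfl, show t2 7 = 5 from rfl, show t2 8 = 8 from rfl, show t2 9 = 9 from rfl, show t2 10 = 10 from rfl, show t2 11 = 11 from rfl, show t2 12 = 12 from rfl, show t2 13 = 13 from rfl, show t2 14 = 14 from rfl, show t2 15 = 15 from rfl, show t2 16 = 16 from rfl, show t2 17 = 17 from rfl]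
  refine ⟨?_, ?_, ?_, ?_, ?_, ?_, ?_, ?_, ?_, ?_, ?_, ?_, ?_, ?_, ?_, ?_, ?_, ?_⟩ <;>
    first | trivial | ring

theorem t2_δ (u v : Fin 18 → ℝ) : δD (perm t2 u) (perm t2 v) = δD u v := by
  rw [δD_apply, δD_apply]
  simp only [perm_apply, show t2 0 = 2 from rfl, show t2 1 = 3 from rfl, show t2 2 = 0 from rfl, show t2 3 = 1 from rfl, show t2 4 = 6 from rfl, show t2 5 = 7 from rfl, show t2 6 = 4 from rfl, show t2 7 = 5 from rfl, show t2 8 = 8 from rfl, show t2 9 = 9 from rfl, show t2 10 = 10 from rfl, show t2 11 = 11 from rfl, show t2 12 = 12 from rfl, show t2 13 = 13 from rfl, show t2 14 = 14 from rfl, show t2 15 = 15 from rfl, show t2 16 = 16 from rfl, show t2 17 = 17 from rfl]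
  try ring

theorem t2_Ψ (η : ℝ) (u : Fin 18 → ℝ) :
    perm t2 (ΨD η u) = ΨD η (perm t2 u) := by
  apply ext18
  simp only [perm_apply, show t2 0 = 2 from rfl, show t2 1 = 3 from rfl, show t2 2 = 0 from rfl, show t2 3 = 1 from rfl, show t2 4 = 6 from rfl, show t2 5 = 7 from rfl, show t2 6 = 4 from rfl, show t2 7 = 5 from rfl, show t2 8 = 8 from rfl, show t2 9 = 9 from rfl, show t2 10 = 10 from rfl, show t2 11 = 11 from rfl, show t2 12 = 12 from rfl, show t2 13 = 13 from rfl, show t2 14 = 14 from rfl, show t2 15 = 15 from rfl, show t2 16 = 16 from rfl, show t2 17 = 17 from rfl]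
  simp only [ΨD_apply, ΨF_0, ΨF_1, ΨF_2, ΨF_3, ΨF_4, ΨF_5, ΨF_6, ΨF_7, ΨF_8, ΨF_9, ΨF_10, ΨF_11, ΨF_12, ΨF_13, ΨF_14, ΨF_15, ΨF_16, ΨF_17]
  simp only [perm_apply, show t2 0 = 2 from rfl, show t2 1 = 3 from rfl, show t2 2 = 0 from rfl, show t2 3 = 1 from rfl, show t2 4 = 6 from rfl, show t2 5 = 7 from rfl, show t2 6 = 4 from rfl, show t2 7 = 5 from rfl, show t2 8 = 8 from rfl, show t2 9 = 9 from rfl, show t2 10 = 10 from rfl, show t2 11 = 11 from rfl, show t2 12 = 12 from rfl, show t2 13 = 13 from rfl, show t2 14 = 14 from rfl, show t2 15 = 15 from rfl, show t2 16 = 16 from rfl, show t2 17 = 17 from rfl]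
  refine ⟨?_, ?_, ?_, ?_, ?_, ?_, ?_, ?_, ?_, ?_, ?_, ?_, ?_, ?_, ?_, ?_, ?_, ?_⟩ <;>
    first | trivial | ring

theorem t2_χ (η : ℝ) (u : Fin 18 → ℝ) : χD η (perm t2 u) = χD η u := by
  rw [χD_apply, χD_apply]
  simp only [perm_apply, show t2 0 = 2 from rfl, show t2 1 = 3 from rfl, show t2 2 = 0 from rfl, show t2 3 = 1 from rfl, show t2 4 = 6 from rfl, show t2 5 = 7 from rfl, show t2 6 = 4 from rfl, show t2 7 = 5 from rfl, show t2 8 = 8 from rfl, show t2 9 = 9 from rfl, show t2 10 = 10 from rfl, show t2 11 = 11 from rfl, show t2 12 = 12 from rfl, show t2 13 = 13 from rfl, show t2 14 = 14 from rfl, show t2 15 = 15 from rfl, show t2 16 = 16 from rfl, show t2 17 = 17 from rfl]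
  ring

theorem t2_Z (η : ℝ) : perm t2 (ZD η) = ZD η := rfl

/-- A coordinate permutation. -/
def rot : Equiv.Perm (Fin 18) where
  toFun := ![4, 5, 6, 7, 8, 9, 10, 11, 0, 1, 2, 3, 13, 14, 12, 16, 17, 15]
  invFun := ![8, 9, 10, 11, 0, 1, 2, 3, 4, 5, 6, 7, 14, 12, 13, 17, 15, 16]
  left_inv := by decide
  right_inv := by decide

theorem rot_m (η : ℝ) (u v : Fin 18 → ℝ) :
    perm rot (mD η u v) = mD η (perm rot u) (perm rot v) := by
  apply ext18
  simp only [perm_apply, show rot 0 = 4 from rfl, show rot 1 = 5 from rfl, show rot 2 = 6 from rfl, show rot 3 = 7 from rfl, show rot 4 = 8 from rfl, show rot 5 = 9 from rfl, show rot 6 = 10 from rfl, show rot 7 = 11 from rfl, show rot 8 = 0 from rfl, show rot 9 = 1 from rfl, show rot 10 = 2 from rfl, show rot 11 = 3 from rfl, show rot 12 = 13 from rfl, show rot 13 = 14 from rfl, show rot 14 = 12 from rfl, show rot 15 = 16 from rfl, show rot 16 = 17 from rfl, show rot 17 = 15 from rfl]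
  simp only [mD_apply, mulF_0, mulF_1, mulF_2, mulF_3, mulF_4, mulF_5, mulF_6, mulF_7, mulF_8, mulF_9, mulF_10, mulF_11, mulF_12, mulF_13, mulF_14, mulF_15, mulF_16, mulF_17]
  simp only [perm_apply, show rot 0 = 4 from rfl, show rot 1 = 5 from rfl, show rot 2 = 6 from rfl, show rot 3 = 7 from rfl, show rot 4 = 8 from rfl, show rot 5 = 9 from rfl, show rot 6 = 10 from rfl, show rot 7 = 11 from rfl, show rot 8 = 0 from rfl, show rot 9 = 1 from rfl, show rot 10 = 2 from rfl, show rot 11 = 3 from rfl, show rot 12 = 13 from rfl, show rot 13 = 14 from rfl, show rot 14 = 12 from rfl, show rot 15 = 16 from rfl, show rot 16 = 17 from rfl, show rot 17 = 15 from rfl]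
  refine ⟨?_, ?_, ?_, ?_, ?_, ?_, ?_, ?_, ?_, ?_, ?_, ?_, ?_, ?_, ?_, ?_, ?_, ?_⟩ <;>
    first | trivial | ring

theorem rot_δ (u v : Fin 18 → ℝ) : δD (perm rot u) (perm rot v) = δD u v := by
  rw [δD_apply, δD_apply]
  simp only [perm_apply, show rot 0 = 4 from rfl, show rot 1 = 5 from rfl, show rot 2 = 6 from rfl, show rot 3 = 7 from rfl, show rot 4 = 8 from rfl, show rot 5 = 9 from rfl, show rot 6 = 10 from rfl, show rot 7 = 11 from rfl, show rot 8 = 0 from rfl, show rot 9 = 1 from rfl, show rot 10 = 2 from rfl, show rot 11 = 3 from rfl, show rot 12 = 13 from rfl, show rot 13 = 14 from rfl, show rot 14 = 12 from rfl, show rot 15 = 16 from rfl, show rot 16 = 17 from rfl, show rot 17 = 15 from rfl]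
  try ring

theorem rot_Ψ (η : ℝ) (u : Fin 18 → ℝ) :
    perm rot (ΨD η u) = ΨD η (perm rot u) := by
  apply ext18
  simp only [perm_apply, show rot 0 = 4 from rfl, show rot 1 = 5 from rfl, show rot 2 = 6 from rfl, show rot 3 = 7 from rfl, show rot 4 = 8 from rfl, show rot 5 = 9 from rfl, show rot 6 = 10 from rfl, show rot 7 = 11 from rfl, show rot 8 = 0 from rfl, show rot 9 = 1 from rfl, show rot 10 = 2 from rfl, show rot 11 = 3 from rfl, show rot 12 = 13 from rfl, show rot 13 = 14 from rfl, show rot 14 = 12 from rfl, show rot 15 = 16 from rfl, show rot 16 = 17 from rfl, show rot 17 = 15 from rfl]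
  simp only [ΨD_apply, ΨF_0, ΨF_1, ΨF_2, ΨF_3, ΨF_4, ΨF_5, ΨF_6, ΨF_7, ΨF_8, ΨF_9, ΨF_10, ΨF_11, ΨF_12, ΨF_13, ΨF_14, ΨF_15, ΨF_16, ΨF_17]
  simp only [perm_apply, show rot 0 = 4 from rfl, show rot 1 = 5 from rfl, show rot 2 = 6 from rfl, show rot 3 = 7 from rfl, show rot 4 = 8 from rfl, show rot 5 = 9 from rfl, show rot 6 = 10 from rfl, show rot 7 = 11 from rfl, show rot 8 = 0 from rfl, show rot 9 = 1 from rfl, show rot 10 = 2 from rfl, show rot 11 = 3 from rfl, show rot 12 = 13 from rfl, show rot 13 = 14 from rfl, show rot 14 = 12 from rfl, show rot 15 = 16 from rfl, show rot 16 = 17 from rfl, show rot 17 = 15 from rfl]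
  refine ⟨?_, ?_, ?_, ?_, ?_, ?_, ?_, ?_, ?_, ?_, ?_, ?_, ?_, ?_, ?_, ?_, ?_, ?_⟩ <;>
    first | trivial | ring

theorem rot_χ (η : ℝ) (u : Fin 18 → ℝ) : χD η (perm rot u) = χD η u := by
  rw [χD_apply, χD_apply]
  simp only [perm_apply, show rot 0 = 4 from rfl, show rot 1 = 5 from rfl, show rot 2 = 6 from rfl, show rot 3 = 7 from rfl, show rot 4 = 8 from rfl, show rot 5 = 9 from rfl, show rot 6 = 10 from rfl, show rot 7 = 11 from rfl, show rot 8 = 0 from rfl, show rot 9 = 1 from rfl, show rot 10 = 2 from rfl, show rot 11 = 3 from rfl, show rot 12 = 13 from rfl, show rot 13 = 14 from rfl, show rot 14 = 12 from rfl, show rot 15 = 16 from rfl, show rot 16 = 17 from rfl, show rot 17 = 15 from rfl]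
  ring

theorem rot_Z (η : ℝ) : perm rot (ZD η) = ZD η := rfl

end Pool.Agent.H.MP_8db76d_al.D18
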