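import Mathlib

/-!
Axial algebras: fusion laws, axes, primitive axial algebras, the non-annihilation
graph, direct sum decompositions and Frobenius forms.
-/

namespace Pool.Agent.H.MP_8db76d_al

/-- A fusion law over a field `K`: a set of eigenvalues containing `1`, and a map `star`
assigning to two eigenvalues a set of eigenvalues. -/
structure FusionLaw (K : Type*) [Field K] where
  /-- the set of eigenvalues -/
  carrier : Set K
  one_mem : (1 : K) ∈ carrier
  /-- the fusion map (only its values on `carrier` matter) -/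
  star : K → K → Set K
  star_subset : ∀ l ∈ carrier, ∀ m ∈ carrier, star l m ⊆ carrier

variable {K : Type*} [Field K]

/-- The Seress condition: `0` is an eigenvalue of the law and `0 ⋆ l ⊆ {l}` for every `l` in the law
(so in particular `0 ⋆ 1 ⊆ {0} ∩ {1} = ∅` for a symmetric law). -/
def FusionLaw.IsSeress (F : FusionLaw K) : Prop :=
  (0 : K) ∈ F.carrier ∧
    ∀ l ∈ F.carrier, F.star 0 l ⊆ {l} ∧ F.star l 0 ⊆ {l}

variable {A : Type*} [NonUnitalNonAssocCommRing A] [Module K A] [IsScalarTower K A A]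
  [SMulCommClass K A A]

/-- The eigenspace `A_l(a) = {v | a * v = l • v}`. -/
def eig (a : A) (l : K) : Submodule K A :=
  Module.End.eigenspace (LinearMap.mulLeft K a) l

/-- `a` is an axis for the fusion law `F`: a nonzero idempotent such that `A` is the direct sum of
the eigenspaces `A_l(a)`, `l` in the law, which multiply according to the law. -/
structure IsAxis (F : FusionLaw K) (a : A) : Prop where
  ne_zero : a ≠ 0
  idem : a * a = a
  indep : iSupIndep (fun l : F.carrier => eig a (l : K))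
  span : (⨆ l : F.carrier, eig a (l : K)) = ⊤
  fusion : ∀ l ∈ F.carrier, ∀ m ∈ F.carrier, ∀ u ∈ eig a l, ∀ v ∈ eig a m,
    u * v ∈ ⨆ n ∈ F.star l m, eig a n

/-- A primitive axis: an axis `a` with `A_1(a) = K a`. -/
def IsPrimitiveAxis (F : FusionLaw K) (a : A) : Prop :=
  IsAxis F a ∧ eig a (1 : K) = Submodule.span K {a}

/-- `(A, X)` is a primitive axial algebra for the fusion law `F`: the algebra `A` is generated by
the set `X` of primitive axes. -/
def IsPrimitiveAxialAlgebra (F : FusionLaw K) (X : Set A) : Prop :=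
  (∀ a ∈ X, IsPrimitiveAxis F a) ∧ NonUnitalAlgebra.adjoin K X = ⊤

/-- The non-annihilation graph: vertices `X`, distinct `a, b` joined exactly when `a * b ≠ 0`. -/
def nonAnnGraph (X : Set A) : SimpleGraph X where
  Adj a b := a ≠ b ∧ (a : A) * (b : A) ≠ 0
  symm := ⟨fun a b h => ⟨h.1.symm, by rw [mul_comm]; exact h.2⟩⟩
  loopless := ⟨fun a h => h.1 rfl⟩

variable (K)

/-- An ideal of the (commutative, nonassociative) `K`-algebra `A`. -/
def IsIdeal (I : Submodule K A) : Prop := ∀ x ∈ I, ∀ y : A, y * x ∈ I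

variable (A)

/-- `A` has a direct sum decomposition with `k` summands. -/
def HasDecomposition (k : ℕ) : Prop :=
  ∃ I : Fin k → Submodule K A,
    (∀ i, I i ≠ ⊥) ∧ (∀ i, IsIdeal K (I i)) ∧ iSupIndep I ∧ (⨆ i, I i) = ⊤ ∧
      ∀ i j, i ≠ j → ∀ x ∈ I i, ∀ y ∈ I j, x * y = 0

/-- `A` is indecomposable: `A ≠ 0` and there is no direct sum decomposition with `k ≥ 2`
summands. -/
def Indecomposable : Prop :=
  Nontrivial A ∧ ∀ k : ℕ, 2 ≤ k → ¬ HasDecomposition K A k

/-- `A` is simple: the product is not identically zero and the only ideals are `0` and `A`. -/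
def IsSimpleAlg : Prop :=
  (∃ x y : A, x * y ≠ 0) ∧ ∀ I : Submodule K A, IsIdeal K I → I = ⊥ ∨ I = ⊤

/-- A Frobenius form: a symmetric bilinear form with `(x y, z) = (x, y z)`. -/
def IsFrobenius (B : LinearMap.BilinForm K A) : Prop :=
  (∀ x y, B x y = B y x) ∧ ∀ x y z, B (x * y) z = B x (y * z)

variable {K A}

omit [IsScalarTower K A A] [SMulCommClass K A A] in
theorem IsSimpleAlg.indecomposable (h : IsSimpleAlg K A) : Indecomposable K A := by
  obtain ⟨⟨x, y, hxy⟩, hI⟩ := h
  refine ⟨⟨x, 0, ?_⟩, ?_⟩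
  · rintro rfl
    exact hxy (zero_mul y)
  · rintro k hk ⟨I, hne, hid, hind, -, -⟩
    have h0 : I ⟨0, by omega⟩ = ⊤ := (hI _ (hid _)).resolve_left (hne _)
    have h1 : I ⟨1, by omega⟩ = ⊤ := (hI _ (hid _)).resolve_left (hne _)
    have hd : Disjoint (I ⟨0, by omega⟩) (I ⟨1, by omega⟩) :=
      hind.pairwiseDisjoint (by simp)
    rw [h0, h1] at hd
    have hbot : (⊤ : Submodule K A) = ⊥ := by simpa using hd
    exact hne _ (h0.trans hbot)

omit [IsScalarTower K A A] in
theorem mem_eig {a : A} {l : K} {v : A} : v ∈ eig a l ↔ a * v = l • v := by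
  unfold eig
  rw [Module.End.mem_eigenspace_iff]
  rfl

omit [IsScalarTower K A A] in
theorem eig_indep (F : FusionLaw K) (a : A) : iSupIndep (fun l : F.carrier => eig a (l : K)) :=
  (Module.End.eigenspaces_iSupIndep (LinearMap.mulLeft K a)).comp Subtype.val_injective

end Pool.Agent.H.MP_8db76d_al

namespace Pool.Agent.H.MP_8db76d_al

variable {K : Type*} [Field K]

/-- The most general Seress law with `1 ⋆ 1 = {1}`, `0 ⋆ 1 = ∅`, `0 ⋆ l = 1 ⋆ l = {l}` on a given
set `S` of eigenvalues: all other products `l ⋆ m` are equal to `S`. -/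
def seressLaw (S : Set K) (h : (1 : K) ∈ S) : FusionLaw K where
  carrier := S
  one_mem := h
  star l m := {n | n ∈ S ∧ ((l = 0 ∨ l = 1) → n = m) ∧ ((m = 0 ∨ m = 1) → n = l)}
  star_subset := fun _ _ _ _ _ hn => hn.1

theorem seressLaw_isSeress (S : Set K) (h : (1 : K) ∈ S) (h0 : (0 : K) ∈ S) :
    (seressLaw S h).IsSeress :=
  ⟨h0, fun _ _ => ⟨fun _ hn => hn.2.1 (Or.inl rfl), fun _ hn => hn.2.2 (Or.inl rfl)⟩⟩

variable {A : Type*} [NonUnitalNonAssocCommRing A] [Module K A] [IsScalarTower K A A]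
  [SMulCommClass K A A]

theorem isPrimitiveAxis_of_seress {S : Set K} (h1 : (1 : K) ∈ S) {a : A} (ha : a ≠ 0)
    (haa : a * a = a) (hspan : (⨆ l : S, eig a (l : K)) = ⊤)
    (hprim : eig a (1 : K) ≤ Submodule.span K {a})
    (h0 : ∀ u ∈ eig a (0 : K), ∀ l ∈ S, ∀ v ∈ eig a l, u * v ∈ eig a l) :
    IsPrimitiveAxis (seressLaw S h1) a := by
  have ha1 : a ∈ eig a (1 : K) := by rw [mem_eig, haa, one_smul]
  have key1 : ∀ u ∈ eig a (1 : K), ∀ l : K, ∀ v ∈ eig a l, u * v ∈ eig a l := by
    intro u hu l v hv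
    obtain ⟨c, rfl⟩ := Submodule.mem_span_singleton.mp (hprim hu)
    rw [smul_mul_assoc]
    refine Submodule.smul_mem _ _ ?_
    rw [mem_eig.mp hv]
    exact Submodule.smul_mem _ _ hv
  have key10 : ∀ u ∈ eig a (1 : K), ∀ v ∈ eig a (0 : K), u * v = 0 := by
    intro u hu v hv
    obtain ⟨c, rfl⟩ := Submodule.mem_span_singleton.mp (hprim hu)
    rw [smul_mul_assoc, mem_eig.mp hv, zero_smul, smul_zero]
  refine ⟨⟨ha, haa, eig_indep _ a, hspan, ?_⟩, le_antisymm hprim ?_⟩
  · intro l hl m hm u hu v hv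
    by_cases hl0 : l = 0
    · subst hl0
      by_cases hm1 : m = 1
      · subst hm1
        rw [mul_comm, key10 v hv u hu]
        exact Submodule.zero_mem _
      · refine Submodule.mem_iSup_of_mem m (Submodule.mem_iSup_of_mem ?_ (h0 u hu m hm v hv))
        exact ⟨hm, fun _ => rfl, fun h => h.resolve_right hm1⟩
    by_cases hl1 : l = 1
    · subst hl1
      by_cases hm0 : m = 0
      · subst hm0
        rw [key10 u hu v hv]
        exact Submodule.zero_mem _
      · refine Submodule.mem_iSup_of_mem m (Submodule.mem_iSup_of_mem ?_ (key1 u hu m v hv))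
        exact ⟨hm, fun _ => rfl, fun h => h.resolve_left hm0⟩
    by_cases hm0 : m = 0
    · subst hm0
      refine Submodule.mem_iSup_of_mem l (Submodule.mem_iSup_of_mem ?_ ?_)
      · exact ⟨hl, fun h => absurd h (by tauto), fun _ => rfl⟩
      · rw [mul_comm]; exact h0 v hv l hl u hu
    by_cases hm1 : m = 1
    · subst hm1
      refine Submodule.mem_iSup_of_mem l (Submodule.mem_iSup_of_mem ?_ ?_)
      · exact ⟨hl, fun h => absurd h (by tauto), fun _ => rfl⟩
      · rw [mul_comm]; exact key1 v hv l u hu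
    · have hstar : (⨆ n ∈ (seressLaw S h1).star l m, eig a n) = ⊤ := by
        rw [eq_top_iff, ← hspan]
        refine iSup_le fun n => ?_
        refine le_iSup₂_of_le (n : K) ?_ le_rfl
        exact ⟨n.2, fun h => absurd h (by tauto), fun h => absurd h (by tauto)⟩
      rw [hstar]
      exact Submodule.mem_top
  · rw [Submodule.span_singleton_le_iff_mem]
    exact ha1

omit [IsScalarTower K A A] in
theorem eig_map (φ : A ≃ₗ[K] A) (hφ : ∀ u v, φ (u * v) = φ u * φ v) (a : A) (l : K) :
    eig (φ a) l = (eig a l).map (φ : A →ₗ[K] A) := by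
  ext v
  rw [mem_eig, Submodule.mem_map_equiv, mem_eig]
  constructor
  · intro h
    apply φ.injective
    rw [hφ, map_smul, φ.apply_symm_apply, h]
  · intro h
    have := congrArg φ h
    rwa [hφ, map_smul, φ.apply_symm_apply] at this

omit [IsScalarTower K A A] in
theorem IsPrimitiveAxis.map {F : FusionLaw K} (φ : A ≃ₗ[K] A)
    (hφ : ∀ u v, φ (u * v) = φ u * φ v) {a : A} (h : IsPrimitiveAxis F a) :
    IsPrimitiveAxis F (φ a) := by
  obtain ⟨⟨h0, h1, h2, h3, h4⟩, h5⟩ := h
  refine ⟨⟨?_, ?_, eig_indep _ _, ?_, ?_⟩, ?_⟩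
  · simpa using h0
  · rw [← hφ, h1]
  · simp_rw [eig_map φ hφ]
    rw [← Submodule.map_iSup, h3, Submodule.map_top]
    exact LinearEquiv.range φ
  · intro l hl m hm u hu v hv
    rw [eig_map φ hφ] at hu hv
    obtain ⟨u, hu, rfl⟩ := hu
    obtain ⟨v, hv, rfl⟩ := hv
    have := h4 l hl m hm u hu v hv
    simp_rw [eig_map φ hφ, ← Submodule.map_iSup]
    refine ⟨u * v, this, ?_⟩
    exact hφ u v
  · rw [eig_map φ hφ, h5, Submodule.map_span, Set.image_singleton]
    rfl

end Pool.Agent.H.MP_8db76d_al
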