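import Pool.Agent.H.MP_8db76d_al.Bil

/-!
Two copies of an algebra `D`, extended by elements `e`, `e'` and a common element `w`.
-/

namespace Pool.Agent.H.MP_8db76d_al.Ext

open Pool.Agent.H.MP_8db76d_al.Bil

variable {K : Type*} [Field K] {D : Type*} [AddCommGroup D] [Module K D]

/-- The data used in the extension: the product of `D`, a bilinear form, a linear map, a linear
functional and a vector. -/
structure Data (K : Type*) [Field K] (D : Type*) [AddCommGroup D] [Module K D] where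
  /-- product -/
  m : D →ₗ[K] D →ₗ[K] D
  /-- form -/
  δ : D →ₗ[K] D →ₗ[K] K
  /-- linear map -/
  Ψ : D →ₗ[K] D
  /-- functional -/
  χ : D →ₗ[K] K
  /-- vector -/
  Z : D

/-- The space `(D ⊕ K e) ⊕ (D' ⊕ K e') ⊕ K w`. -/
abbrev A (K D : Type*) := (D × K) × (D × K) × K

variable (d : Data K D)

/-- One half of the product. -/
def hp (a b : D × K) (t t' : K) : D × K :=
  (d.m a.1 b.1 + a.2 • d.Ψ b.1 + b.2 • d.Ψ a.1 + (a.2 * b.2) • d.Z,
    d.δ a.1 b.1 + a.2 * d.χ b.1 + b.2 * d.χ a.1 + a.2 * t' + b.2 * t)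

theorem hp_add_left (a a' b : D × K) (s s' t : K) :
    hp d (a + a') b (s + s') t = hp d a b s t + hp d a' b s' t := by
  ext
  · simp only [hp, Prod.fst_add, Prod.snd_add, map_add, LinearMap.add_apply]
    module
  · simp only [hp, Prod.fst_add, Prod.snd_add, map_add, LinearMap.add_apply]
    ring

theorem hp_add_right (a b b' : D × K) (s t t' : K) :
    hp d a (b + b') s (t + t') = hp d a b s t + hp d a b' s t' := by
  ext
  · simp only [hp, Prod.fst_add, Prod.snd_add, map_add]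
    module
  · simp only [hp, Prod.fst_add, Prod.snd_add, map_add]
    ring

theorem hp_smul_left (c : K) (a b : D × K) (s t : K) :
    hp d (c • a) b (c * s) t = c • hp d a b s t := by
  ext
  · simp only [hp, Prod.smul_fst, Prod.smul_snd, map_smul, LinearMap.smul_apply, smul_eq_mul]
    module
  · simp only [hp, Prod.smul_fst, Prod.smul_snd, map_smul, LinearMap.smul_apply, smul_eq_mul]
    ring

theorem hp_smul_right (c : K) (a b : D × K) (s t : K) :
    hp d a (c • b) s (c * t) = c • hp d a b s t := by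
  ext
  · simp only [hp, Prod.smul_fst, Prod.smul_snd, map_smul, smul_eq_mul]
    module
  · simp only [hp, Prod.smul_fst, Prod.smul_snd, map_smul, smul_eq_mul]
    ring

/-- The product on the extension. -/
def mul : A K D →ₗ[K] A K D →ₗ[K] A K D :=
  LinearMap.mk₂ K
    (fun u v => (hp d u.1 v.1 u.2.2 v.2.2, hp d u.2.1 v.2.1 u.2.2 v.2.2,
      u.1.2 * v.1.2 + u.2.1.2 * v.2.1.2))
    (by
      intro u v w
      refine Prod.ext ?_ (Prod.ext ?_ ?_)
      · exact hp_add_left d _ _ _ _ _ _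
      · exact hp_add_left d _ _ _ _ _ _
      · simp only [Prod.fst_add, Prod.snd_add]; ring)
    (by
      intro c u v
      refine Prod.ext ?_ (Prod.ext ?_ ?_)
      · exact hp_smul_left d _ _ _ _ _
      · exact hp_smul_left d _ _ _ _ _
      · simp only [Prod.smul_fst, Prod.smul_snd, smul_eq_mul]; ring)
    (by
      intro u v w
      refine Prod.ext ?_ (Prod.ext ?_ ?_)
      · exact hp_add_right d _ _ _ _ _ _
      · exact hp_add_right d _ _ _ _ _ _
      · simp only [Prod.fst_add, Prod.snd_add]; ring)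
    (by
      intro c u v
      refine Prod.ext ?_ (Prod.ext ?_ ?_)
      · exact hp_smul_right d _ _ _ _ _
      · exact hp_smul_right d _ _ _ _ _
      · simp only [Prod.smul_fst, Prod.smul_snd, smul_eq_mul]; ring)

theorem mul_apply (u v : A K D) : mul d u v =
    (hp d u.1 v.1 u.2.2 v.2.2, hp d u.2.1 v.2.1 u.2.2 v.2.2,
      u.1.2 * v.1.2 + u.2.1.2 * v.2.1.2) := rfl

theorem hp_comm (hm : ∀ u v, d.m u v = d.m v u) (hδ : ∀ u v, d.δ u v = d.δ v u)
    (a b : D × K) (s t : K) : hp d a b s t = hp d b a t s := by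
  ext
  · simp only [hp, hm a.1 b.1]
    module
  · simp only [hp, hδ a.1 b.1]
    ring

theorem mul_comm' (hm : ∀ u v, d.m u v = d.m v u) (hδ : ∀ u v, d.δ u v = d.δ v u)
    (u v : A K D) : mul d u v = mul d v u := by
  rw [mul_apply, mul_apply, hp_comm d hm hδ u.1, hp_comm d hm hδ u.2.1]
  refine Prod.ext rfl (Prod.ext rfl ?_)
  show _ = _
  ring

/-- The embedding of the first copy. -/
def inj₁ (x : D) : A K D := ((x, 0), (0, 0), 0)

/-- Conditions on an element `x` of `D` making it an axis of Monster type in the extension. -/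
structure Good (α β : K) (x : D) : Prop where
  ne_zero : x ≠ 0
  idem : d.m x x = x
  δ_zero : ∀ v, d.δ x v = 0
  Ψ_zero : d.Ψ x = 0
  χ_eq : d.χ x = β
  span : ∀ v, v ∈ eig d.m x (1 : K) ⊔ eig d.m x (0 : K) ⊔ eig d.m x α ⊔ eig d.m x β
  prim : ∀ v, d.m x v = v → ∃ c : K, v = c • x
  f00 : ∀ u ∈ eig d.m x (0 : K), ∀ v ∈ eig d.m x (0 : K), d.m u v ∈ eig d.m x (0 : K)
  δ00 : ∀ u ∈ eig d.m x (0 : K), ∀ v ∈ eig d.m x (0 : K), d.δ u v = 0
  f0a : ∀ u ∈ eig d.m x (0 : K), ∀ v ∈ eig d.m x α, d.m u v ∈ eig d.m x α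
  δ0a : ∀ u ∈ eig d.m x (0 : K), ∀ v ∈ eig d.m x α, d.δ u v = 0
  f0b : ∀ u ∈ eig d.m x (0 : K), ∀ v ∈ eig d.m x β, d.m u v ∈ eig d.m x β
  Ψ0 : ∀ u ∈ eig d.m x (0 : K), d.Ψ u ∈ eig d.m x β
  faa : ∀ u ∈ eig d.m x α, ∀ v ∈ eig d.m x α,
    d.m u v ∈ eig d.m x (1 : K) ⊔ eig d.m x (0 : K)
  δaa : ∀ u ∈ eig d.m x α, ∀ v ∈ eig d.m x α, d.δ u v = 0
  fab : ∀ u ∈ eig d.m x α, ∀ v ∈ eig d.m x β, d.m u v ∈ eig d.m x β
  Ψa : ∀ u ∈ eig d.m x α, d.Ψ u ∈ eig d.m x β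
  fbb : ∀ u ∈ eig d.m x β, ∀ v ∈ eig d.m x β,
    d.m u v ∈ eig d.m x (1 : K) ⊔ eig d.m x (0 : K) ⊔ eig d.m x α
  δbb : ∀ u ∈ eig d.m x β, ∀ v ∈ eig d.m x β, d.δ u v = 0
  Ψb : ∀ u ∈ eig d.m x β, d.Ψ u ∈ eig d.m x (1 : K) ⊔ eig d.m x (0 : K) ⊔ eig d.m x α
  χb : ∀ u ∈ eig d.m x β, d.χ u = 0
  Z_mem : d.Z ∈ eig d.m x (1 : K) ⊔ eig d.m x (0 : K) ⊔ eig d.m x α

variable {d}

theorem mul_inj₁ {α β : K} {x : D} (h : Good d α β x) (u : A K D) :
    mul d (inj₁ x) u = ((d.m x u.1.1, β * u.1.2), (0, 0), 0) := by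
  refine Prod.ext ?_ (Prod.ext ?_ ?_)
  · refine Prod.ext ?_ ?_
    · simp [mul_apply, hp, inj₁, h.Ψ_zero]
    · simp [mul_apply, hp, inj₁, h.δ_zero, h.χ_eq, mul_comm]
  · refine Prod.ext ?_ ?_
    · simp [mul_apply, hp, inj₁]
    · simp [mul_apply, hp, inj₁]
  · simp [mul_apply, inj₁]

theorem mem_eig_inj₁ {α β : K} {x : D} (h : Good d α β x) (l : K) (u : A K D) :
    u ∈ eig (mul d) (inj₁ x) l ↔ u.1.1 ∈ eig d.m x l ∧ β * u.1.2 = l * u.1.2 ∧
      l • u.2.1.1 = 0 ∧ l * u.2.1.2 = 0 ∧ l * u.2.2 = 0 := by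
  rw [mem_eig, mul_inj₁ h, mem_eig]
  constructor
  · intro he
    have h1 := congrArg (fun a : A K D => a.1.1) he
    have h2 := congrArg (fun a : A K D => a.1.2) he
    have h3 := congrArg (fun a : A K D => a.2.1.1) he
    have h4 := congrArg (fun a : A K D => a.2.1.2) he
    have h5 := congrArg (fun a : A K D => a.2.2) he
    exact ⟨h1, h2, h3.symm, h4.symm, h5.symm⟩
  · rintro ⟨h1, h2, h3, h4, h5⟩
    exact Prod.ext (Prod.ext h1 h2) (Prod.ext (Prod.ext h3.symm h4.symm) h5.symm)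

/-- The embedding of the first copy as a linear map. -/
def inj : D →ₗ[K] A K D where
  toFun := inj₁
  map_add' x y := by
    refine Prod.ext (Prod.ext rfl ?_) (Prod.ext (Prod.ext ?_ ?_) ?_) <;> simp [inj₁]
  map_smul' c x := by
    refine Prod.ext (Prod.ext rfl ?_) (Prod.ext (Prod.ext ?_ ?_) ?_) <;> simp [inj₁]

theorem inj_apply (x : D) : (inj x : A K D) = ((x, 0), (0, 0), 0) := rfl

theorem inj_mem {α β : K} {x : D} (h : Good d α β x) {l : K} {u : D} (hu : u ∈ eig d.m x l) :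
    (inj u : A K D) ∈ eig (mul d) (inj₁ x) l := by
  rw [mem_eig_inj₁ h]
  simp [inj_apply, hu]

theorem inj_mem_plus {α β : K} {x : D} (h : Good d α β x) {u : D}
    (hu : u ∈ eig d.m x (1 : K) ⊔ eig d.m x (0 : K) ⊔ eig d.m x α) :
    (inj u : A K D) ∈ eig (mul d) (inj₁ x) (1 : K) ⊔ eig (mul d) (inj₁ x) (0 : K) ⊔
      eig (mul d) (inj₁ x) α := by
  obtain ⟨y, hy, z, hz, rfl⟩ := Submodule.mem_sup.mp hu
  obtain ⟨y1, hy1, y2, hy2, rfl⟩ := Submodule.mem_sup.mp hy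
  rw [map_add, map_add]
  exact Submodule.add_mem_sup (Submodule.add_mem_sup (inj_mem h hy1) (inj_mem h hy2))
    (inj_mem h hz)

theorem inj_mem_10 {α β : K} {x : D} (h : Good d α β x) {u : D}
    (hu : u ∈ eig d.m x (1 : K) ⊔ eig d.m x (0 : K)) :
    (inj u : A K D) ∈ eig (mul d) (inj₁ x) (1 : K) ⊔ eig (mul d) (inj₁ x) (0 : K) := by
  obtain ⟨y1, hy1, y2, hy2, rfl⟩ := Submodule.mem_sup.mp hu
  rw [map_add]
  exact Submodule.add_mem_sup (inj_mem h hy1) (inj_mem h hy2)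

theorem good_axis {α β : K} (hm : ∀ u v, d.m u v = d.m v u) (hδ : ∀ u v, d.δ u v = d.δ v u)
    (hα : α ≠ 0) (hβ : β ≠ 0) (hβ1 : β ≠ 1) (hαβ : α ≠ β) {x : D} (h : Good d α β x) :
    IsPrimitiveAxis (mul d) (monsterLaw α β) (inj₁ x) := by
  have m0 : ∀ u : A K D, u ∈ eig (mul d) (inj₁ x) (0 : K) →
      u.1.1 ∈ eig d.m x (0 : K) ∧ u.1.2 = 0 := by
    intro u hu
    obtain ⟨h1, h2, -⟩ := (mem_eig_inj₁ h 0 u).mp hu
    refine ⟨h1, ?_⟩
    rw [zero_mul] at h2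
    exact (mul_eq_zero.mp h2).resolve_left hβ
  have ma : ∀ u : A K D, u ∈ eig (mul d) (inj₁ x) α →
      u.1.1 ∈ eig d.m x α ∧ u.1.2 = 0 ∧ u.2.1 = 0 ∧ u.2.2 = 0 := by
    intro u hu
    obtain ⟨h1, h2, h3, h4, h5⟩ := (mem_eig_inj₁ h α u).mp hu
    refine ⟨h1, ?_, Prod.ext ?_ ?_, ?_⟩
    · have : (α - β) * u.1.2 = 0 := by linear_combination -h2
      exact (mul_eq_zero.mp this).resolve_left (sub_ne_zero.mpr hαβ)
    · exact (smul_eq_zero.mp h3).resolve_left hα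
    · exact (mul_eq_zero.mp h4).resolve_left hα
    · exact (mul_eq_zero.mp h5).resolve_left hα
  have mb : ∀ u : A K D, u ∈ eig (mul d) (inj₁ x) β →
      u.1.1 ∈ eig d.m x β ∧ u.2.1 = 0 ∧ u.2.2 = 0 := by
    intro u hu
    obtain ⟨h1, -, h3, h4, h5⟩ := (mem_eig_inj₁ h β u).mp hu
    refine ⟨h1, Prod.ext ?_ ?_, ?_⟩
    · exact (smul_eq_zero.mp h3).resolve_left hβ
    · exact (mul_eq_zero.mp h4).resolve_left hβ
    · exact (mul_eq_zero.mp h5).resolve_left hβ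
  apply isPrimitiveAxis_monster (mul_comm' d hm hδ)
  · intro h0
    exact h.ne_zero (congrArg (fun a : A K D => a.1.1) h0)
  · rw [mul_inj₁ h]
    refine Prod.ext (Prod.ext h.idem ?_) rfl
    simp [inj₁]
  · intro v
    obtain ⟨y, hy, z, hz, hyz⟩ := Submodule.mem_sup.mp (h.span v.1.1)
    have hv : v = inj y + (((0 : D), (0 : K)), v.2) + ((z, v.1.2), (0, 0), 0) := by
      refine Prod.ext (Prod.ext ?_ ?_) ?_
      · simp [inj_apply, hyz]
      · simp [inj_apply]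
      · refine Prod.ext (Prod.ext ?_ ?_) ?_ <;> simp [inj_apply]
    rw [hv]
    refine Submodule.add_mem_sup (add_mem (inj_mem_plus h hy) ?_) ?_
    · refine Submodule.mem_sup_left (Submodule.mem_sup_right ?_)
      rw [mem_eig_inj₁ h]
      simp
    · rw [mem_eig_inj₁ h]
      simp [hz]
  · intro v hv
    obtain ⟨h1, h2, h3, h4, h5⟩ := (mem_eig_inj₁ h 1 v).mp hv
    rw [mem_eig, one_smul] at h1
    obtain ⟨c, hc⟩ := h.prim _ h1
    rw [Submodule.mem_span_singleton]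
    refine ⟨c, ?_⟩
    have h2' : v.1.2 = 0 := by
      have : (β - 1) * v.1.2 = 0 := by linear_combination h2
      exact (mul_eq_zero.mp this).resolve_left (sub_ne_zero.mpr hβ1)
    rw [one_smul] at h3
    rw [one_mul] at h4 h5
    refine Prod.ext (Prod.ext ?_ ?_) (Prod.ext (Prod.ext ?_ ?_) ?_)
    · simp [inj₁, hc]
    · simp [inj₁, h2']
    · simp [inj₁, h3]
    · simp [inj₁, h4]
    · simp [inj₁, h5]
  · intro u hu v hv
    obtain ⟨u1, u2⟩ := m0 u hu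
    obtain ⟨v1, v2⟩ := m0 v hv
    rw [mem_eig_inj₁ h]
    refine ⟨?_, ?_, by simp, by simp, by simp⟩
    · simpa [mul_apply, hp, u2, v2] using h.f00 _ u1 _ v1
    · simp [mul_apply, hp, u2, v2, h.δ00 _ u1 _ v1]
  · intro u hu v hv
    obtain ⟨u1, u2⟩ := m0 u hu
    obtain ⟨v1, v2, v3, v4⟩ := ma v hv
    rw [mem_eig_inj₁ h]
    refine ⟨?_, ?_, ?_, ?_, ?_⟩
    · simpa [mul_apply, hp, u2, v2] using h.f0a _ u1 _ v1
    · simp [mul_apply, hp, u2, v2, h.δ0a _ u1 _ v1]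
    · simp [mul_apply, hp, v3]
    · simp [mul_apply, hp, v3, v4]
    · simp [mul_apply, v2, v3]
  · intro u hu v hv
    obtain ⟨u1, u2⟩ := m0 u hu
    obtain ⟨v1, v3, v4⟩ := mb v hv
    rw [mem_eig_inj₁ h]
    refine ⟨?_, rfl, ?_, ?_, ?_⟩
    · have := add_mem (h.f0b _ u1 _ v1) (Submodule.smul_mem _ v.1.2 (h.Ψ0 _ u1))
      simpa [mul_apply, hp, u2] using this
    · simp [mul_apply, hp, v3]
    · simp [mul_apply, hp, v3, v4]
    · simp [mul_apply, u2, v3]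
  · intro u hu v hv
    obtain ⟨u1, u2, u3, u4⟩ := ma u hu
    obtain ⟨v1, v2, v3, v4⟩ := ma v hv
    have : mul d u v = inj (d.m u.1.1 v.1.1) := by
      refine Prod.ext (Prod.ext ?_ ?_) (Prod.ext (Prod.ext ?_ ?_) ?_)
      · simp [mul_apply, hp, u2, v2, inj_apply]
      · simp [mul_apply, hp, u2, v2, inj_apply, h.δaa _ u1 _ v1]
      · simp [mul_apply, hp, u3, v3, inj_apply]
      · simp [mul_apply, hp, u3, v3, inj_apply]
      · simp [mul_apply, u2, u3, inj_apply]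
    rw [this]
    exact inj_mem_10 h (h.faa _ u1 _ v1)
  · intro u hu v hv
    obtain ⟨u1, u2, u3, u4⟩ := ma u hu
    obtain ⟨v1, v3, v4⟩ := mb v hv
    rw [mem_eig_inj₁ h]
    refine ⟨?_, rfl, ?_, ?_, ?_⟩
    · have := add_mem (h.fab _ u1 _ v1) (Submodule.smul_mem _ v.1.2 (h.Ψa _ u1))
      simpa [mul_apply, hp, u2] using this
    · simp [mul_apply, hp, v3, u3]
    · simp [mul_apply, hp, v3, v4, u3, u4]
    · simp [mul_apply, u2, v3]
  · intro u hu v hv
    obtain ⟨u1, u3, u4⟩ := mb u hu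
    obtain ⟨v1, v3, v4⟩ := mb v hv
    have : mul d u v = inj (d.m u.1.1 v.1.1 + u.1.2 • d.Ψ v.1.1 + v.1.2 • d.Ψ u.1.1 +
        (u.1.2 * v.1.2) • d.Z) + (((0 : D), (0 : K)), ((0 : D), (0 : K)), u.1.2 * v.1.2) := by
      refine Prod.ext (Prod.ext ?_ ?_) (Prod.ext (Prod.ext ?_ ?_) ?_)
      · simp [mul_apply, hp, inj_apply]
      · simp [mul_apply, hp, inj_apply, h.δbb _ u1 _ v1, h.χb _ u1, h.χb _ v1, u4, v4]
      · simp [mul_apply, hp, u3, v3, inj_apply]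
      · simp [mul_apply, hp, u3, v3, inj_apply]
      · simp [mul_apply, u3, inj_apply]
    rw [this]
    refine add_mem (inj_mem_plus h ?_) ?_
    · exact add_mem (add_mem (add_mem (h.fbb _ u1 _ v1) (Submodule.smul_mem _ _ (h.Ψb _ v1)))
        (Submodule.smul_mem _ _ (h.Ψb _ u1))) (Submodule.smul_mem _ _ h.Z_mem)
    · refine Submodule.mem_sup_left (Submodule.mem_sup_right ?_)
      rw [mem_eig_inj₁ h]
      simp

/-- Lifting an automorphism of `D` to the first copy. -/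
def lift (φ : D ≃ₗ[K] D) : A K D ≃ₗ[K] A K D where
  toFun u := ((φ u.1.1, u.1.2), u.2)
  map_add' u v := by
    refine Prod.ext (Prod.ext ?_ rfl) rfl
    exact map_add φ _ _
  map_smul' c u := by
    refine Prod.ext (Prod.ext ?_ rfl) rfl
    exact map_smul φ _ _
  invFun u := ((φ.symm u.1.1, u.1.2), u.2)
  left_inv u := by
    refine Prod.ext (Prod.ext ?_ rfl) rfl
    exact φ.symm_apply_apply _
  right_inv u := by
    refine Prod.ext (Prod.ext ?_ rfl) rfl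
    exact φ.apply_symm_apply _

theorem lift_apply (φ : D ≃ₗ[K] D) (u : A K D) : lift φ u = ((φ u.1.1, u.1.2), u.2) := rfl

theorem lift_mul (φ : D ≃ₗ[K] D) (hm : ∀ u v, φ (d.m u v) = d.m (φ u) (φ v))
    (hδ : ∀ u v, d.δ (φ u) (φ v) = d.δ u v) (hΨ : ∀ u, φ (d.Ψ u) = d.Ψ (φ u))
    (hχ : ∀ u, d.χ (φ u) = d.χ u) (hZ : φ d.Z = d.Z) (u v : A K D) :
    lift φ (mul d u v) = mul d (lift φ u) (lift φ v) := by
  refine Prod.ext (Prod.ext ?_ ?_) rfl
  · simp only [lift_apply, mul_apply, hp, map_add, map_smul, hm, hΨ, hZ]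
  · simp only [lift_apply, mul_apply, hp, hδ, hχ]

theorem lift_inj (φ : D ≃ₗ[K] D) (x : D) : lift φ (inj₁ x : A K D) = inj₁ (φ x) := rfl

variable (K D) in
/-- Exchanging the two copies. -/
def swap : A K D ≃ₗ[K] A K D where
  toFun u := (u.2.1, u.1, u.2.2)
  map_add' _ _ := rfl
  map_smul' _ _ := rfl
  invFun u := (u.2.1, u.1, u.2.2)
  left_inv _ := rfl
  right_inv _ := rfl

theorem swap_apply (u : A K D) : swap K D u = (u.2.1, u.1, u.2.2) := rfl

theorem swap_mul (u v : A K D) : swap K D (mul d u v) = mul d (swap K D u) (swap K D v) := by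
  refine Prod.ext rfl (Prod.ext rfl ?_)
  show u.1.2 * v.1.2 + u.2.1.2 * v.2.1.2 = u.2.1.2 * v.2.1.2 + u.1.2 * v.1.2
  ring

/-- The embedding of the second copy. -/
def inj₂ (x : D) : A K D := ((0, 0), (x, 0), 0)

theorem swap_inj₁ (x : D) : swap K D (inj₁ x) = inj₂ x := rfl
theorem swap_inj₂ (x : D) : swap K D (inj₂ x) = inj₁ x := rfl

theorem mul_inj₁_inj₂ (x y : D) : mul d (inj₁ x) (inj₂ y) = 0 := by
  refine Prod.ext (Prod.ext ?_ ?_) (Prod.ext (Prod.ext ?_ ?_) ?_) <;>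
    simp [mul_apply, hp, inj₁, inj₂]

theorem mul_inj₂_inj₁ (x y : D) : mul d (inj₂ x) (inj₁ y) = 0 := by
  refine Prod.ext (Prod.ext ?_ ?_) (Prod.ext (Prod.ext ?_ ?_) ?_) <;>
    simp [mul_apply, hp, inj₁, inj₂]

/-- The form on the extension. -/
def formA (f : LinearMap.BilinForm K D) (ε : K) : LinearMap.BilinForm K (A K D) :=
  LinearMap.mk₂ K (fun u v => f u.1.1 v.1.1 + ε * (u.1.2 * v.1.2) + f u.2.1.1 v.2.1.1 +
    ε * (u.2.1.2 * v.2.1.2) + ε * (u.2.2 * v.2.2))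
    (by
      intro u v w
      simp only [Prod.fst_add, Prod.snd_add, map_add, LinearMap.add_apply]; ring)
    (by
      intro c u v
      simp only [Prod.smul_fst, Prod.smul_snd, map_smul, LinearMap.smul_apply, smul_eq_mul]; ring)
    (by
      intro u v w
      simp only [Prod.fst_add, Prod.snd_add, map_add]; ring)
    (by
      intro c u v
      simp only [Prod.smul_fst, Prod.smul_snd, map_smul, smul_eq_mul]; ring)

theorem formA_apply (f : LinearMap.BilinForm K D) (ε : K) (u v : A K D) :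
    formA f ε u v = f u.1.1 v.1.1 + ε * (u.1.2 * v.1.2) + f u.2.1.1 v.2.1.1 +
    ε * (u.2.1.2 * v.2.1.2) + ε * (u.2.2 * v.2.2) := rfl

theorem formA_frobenius {f : LinearMap.BilinForm K D} {ε : K} (hδ : ∀ u v, d.δ u v = d.δ v u)
    (hf : ∀ u v, f u v = f v u) (hfa : ∀ u v w, f (d.m u v) w = f u (d.m v w))
    (hΨ : ∀ u v, f (d.Ψ u) v = ε * d.δ u v) (hZ : ∀ v, f d.Z v = ε * d.χ v) :
    IsFrobenius (mul d) (formA f ε) := by
  have hΨ' : ∀ u v, f u (d.Ψ v) = ε * d.δ v u := by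
    intro u v; rw [hf, hΨ]
  have hZ' : ∀ v, f v d.Z = ε * d.χ v := by
    intro v; rw [hf, hZ]
  constructor
  · intro x y
    rw [formA_apply, formA_apply, hf x.1.1, hf x.2.1.1]; ring
  · intro x y z
    simp only [formA_apply, mul_apply, hp, map_add, map_smul, LinearMap.add_apply,
      LinearMap.smul_apply, smul_eq_mul, hfa, hΨ, hΨ', hZ, hZ']
    rw [hδ z.1.1 x.1.1, hδ z.2.1.1 x.2.1.1, hδ y.1.1 x.1.1, hδ y.2.1.1 x.2.1.1]
    ring

end Pool.Agent.H.MP_8db76d_al.Ext
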