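import Pool.Agent.H.MP_8db76d_al.D18e

/-!
The 39-dimensional algebra: two extended copies of the 18-dimensional algebra glued along `w`.
-/

namespace Pool.Agent.H.MP_8db76d_al.Final

open Pool.Agent.H.MP_8db76d_al.Bil Pool.Agent.H.MP_8db76d_al.Ext Pool.Agent.H.MP_8db76d_al.D18

noncomputable section

/-- The space. -/
abbrev AA : Type := A ℝ (Fin 18 → ℝ)

/-- The product. -/
abbrev mA (η : ℝ) : AA →ₗ[ℝ] AA →ₗ[ℝ] AA := mul (data η)

/-- The constant `(e, e) = (w, w)`. -/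
def eps (η : ℝ) : ℝ := 4 * (1 - 4 * η ^ 2) * (1 + 8 * η)

theorem eps_pos {η : ℝ} (h0 : 0 < η) (h1 : η < 1 / 2) : 0 < eps η := by
  unfold eps
  have h2 : 0 < 1 - 2 * η := by linarith
  have h3 : 0 < 1 + 2 * η := by linarith
  have h4 : 0 < 1 + 8 * η := by linarith
  have h5 : 0 < 1 - 4 * η ^ 2 := by
    have := mul_pos h2 h3
    nlinarith
  positivity

/-- The Frobenius form. -/
def B (η : ℝ) : LinearMap.BilinForm ℝ AA := formA (fD η) (eps η)

theorem B_frobenius (η : ℝ) : IsFrobenius (mA η) (B η) :=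
  formA_frobenius (d := data η) δD_comm (fD_comm η) (fD_assoc η) (fD_Ψ η) (fD_Z η)

theorem B_apply (η : ℝ) (u v : AA) : B η u v = fD η u.1.1 v.1.1 + eps η * (u.1.2 * v.1.2) +
    fD η u.2.1.1 v.2.1.1 + eps η * (u.2.1.2 * v.2.1.2) + eps η * (u.2.2 * v.2.2) := rfl

theorem B_pos {η : ℝ} (h0 : 0 < η) (h1 : η < 1 / 2) (u : AA) (hu : u ≠ 0) : 0 < B η u u := by
  have he := eps_pos h0 h1
  have hn : ∀ d : Fin 18 → ℝ, 0 ≤ fD η d d := by
    intro d
    by_cases hd : d = 0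
    · subst hd; simp
    · exact (fD_pos η h0 h1 d hd).le
  rw [B_apply]
  have a1 := hn u.1.1
  have a2 := hn u.2.1.1
  have a3 := mul_nonneg he.le (mul_self_nonneg u.1.2)
  have a4 := mul_nonneg he.le (mul_self_nonneg u.2.1.2)
  have a5 := mul_nonneg he.le (mul_self_nonneg u.2.2)
  by_contra hcon
  push Not at hcon
  apply hu
  have b1 : fD η u.1.1 u.1.1 = 0 := by linarith
  have b2 : fD η u.2.1.1 u.2.1.1 = 0 := by linarith
  have b3 : eps η * (u.1.2 * u.1.2) = 0 := by linarith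
  have b4 : eps η * (u.2.1.2 * u.2.1.2) = 0 := by linarith
  have b5 : eps η * (u.2.2 * u.2.2) = 0 := by linarith
  have c1 : ∀ d : Fin 18 → ℝ, fD η d d = 0 → d = 0 := by
    intro d hd
    by_contra hne
    exact absurd hd (fD_pos η h0 h1 d hne).ne'
  have c2 : ∀ x : ℝ, eps η * (x * x) = 0 → x = 0 := by
    intro x hx
    exact mul_self_eq_zero.mp ((mul_eq_zero.mp hx).resolve_left he.ne')
  exact Prod.ext (Prod.ext (c1 _ b1) (c2 _ b3)) (Prod.ext (Prod.ext (c1 _ b2) (c2 _ b4)) (c2 _ b5))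

/-- The 24 axes. -/
def XX : Set AA := {a | ∃ i : Fin 18, (i : ℕ) < 12 ∧ (a = inj₁ (E i) ∨ a = inj₂ (E i))}

theorem mA_comm (η : ℝ) (u v : AA) : mA η u v = mA η v u :=
  mul_comm' (data η) (mD_comm η) δD_comm u v

theorem ax0 {η : ℝ} (h0 : 0 < η) (h1 : η < 1 / 2) :
    IsPrimitiveAxis (mA η) (monsterLaw (2 * η) η) (inj₁ (E 0)) := by
  apply good_axis (d := data η) (mD_comm η) δD_comm
  · linarith
  · exact h0.ne'
  · intro h; linarith
  · intro h; linarith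
  · exact good h0 h1

theorem ax_t1 {η : ℝ} {i : Fin 18}
    (h : IsPrimitiveAxis (mA η) (monsterLaw (2 * η) η) (inj₁ (E i))) :
    IsPrimitiveAxis (mA η) (monsterLaw (2 * η) η) (inj₁ (E (t1.symm i))) := by
  have := h.map (lift (perm t1)) (lift_mul (d := data η) (perm t1) (t1_m η) t1_δ (t1_Ψ η)
    (t1_χ η) (t1_Z η))
  rwa [lift_inj, perm_E] at this

theorem ax_t2 {η : ℝ} {i : Fin 18}
    (h : IsPrimitiveAxis (mA η) (monsterLaw (2 * η) η) (inj₁ (E i))) :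
    IsPrimitiveAxis (mA η) (monsterLaw (2 * η) η) (inj₁ (E (t2.symm i))) := by
  have := h.map (lift (perm t2)) (lift_mul (d := data η) (perm t2) (t2_m η) t2_δ (t2_Ψ η)
    (t2_χ η) (t2_Z η))
  rwa [lift_inj, perm_E] at this

theorem ax_rot {η : ℝ} {i : Fin 18}
    (h : IsPrimitiveAxis (mA η) (monsterLaw (2 * η) η) (inj₁ (E i))) :
    IsPrimitiveAxis (mA η) (monsterLaw (2 * η) η) (inj₁ (E (rot.symm i))) := by
  have := h.map (lift (perm rot)) (lift_mul (d := data η) (perm rot) (rot_m η) rot_δ (rot_Ψ η)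
    (rot_χ η) (rot_Z η))
  rwa [lift_inj, perm_E] at this

theorem ax_all {η : ℝ} (h0 : 0 < η) (h1 : η < 1 / 2) (i : Fin 18) (hi : (i : ℕ) < 12) :
    IsPrimitiveAxis (mA η) (monsterLaw (2 * η) η) (inj₁ (E i)) := by
  have a0 := ax0 h0 h1
  have a1 := ax_t1 a0
  have a2 := ax_t2 a0
  have a3 := ax_t2 a1
  have b0 := ax_rot a0
  have b1 := ax_rot a1
  have b2 := ax_rot a2
  have b3 := ax_rot a3
  have c0 := ax_rot b0
  have c1 := ax_rot b1
  have c2 := ax_rot b2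
  have c3 := ax_rot b3
  fin_cases i
  · exact a0
  · exact a1
  · exact a2
  · exact a3
  · exact c0
  · exact c1
  · exact c2
  · exact c3
  · exact b0
  · exact b1
  · exact b2
  · exact b3
  all_goals exact absurd hi (by decide)

theorem ax_XX {η : ℝ} (h0 : 0 < η) (h1 : η < 1 / 2) (a : AA) (ha : a ∈ XX) :
    IsPrimitiveAxis (mA η) (monsterLaw (2 * η) η) a := by
  obtain ⟨i, hi, rfl | rfl⟩ := ha
  · exact ax_all h0 h1 i hi
  · have := (ax_all h0 h1 i hi).map (swap ℝ (Fin 18 → ℝ)) (swap_mul (d := data η))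
    exact this

set_option linter.unusedSimpArgs false

theorem inj₁_mul (η : ℝ) (u v : Fin 18 → ℝ) :
    mA η (inj₁ u) (inj₁ v) = ((mD η u v, δD u v), (0, 0), 0) := by
  refine Prod.ext (Prod.ext ?_ ?_) (Prod.ext (Prod.ext ?_ ?_) ?_)
  · simp [mul_apply, hp, inj₁, data]
  · simp [mul_apply, hp, inj₁, data]
  · simp [mul_apply, hp, inj₁, data]
  · simp [mul_apply, hp, inj₁, data]
  · simp [mul_apply, hp, inj₁, data]

theorem eq_sum_E (u : Fin 18 → ℝ) : u = ∑ i, u i • E i := by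
  funext j
  simp [E_apply, Finset.sum_apply]

theorem prod_0_1 (η : ℝ) : mD η (E 0) (E 1) =
    η • (E 0 + E 1 - (E 13 + E 14)) := by
  apply ext18
  simp only [mD_apply, mulF_0, mulF_1, mulF_2, mulF_3, mulF_4, mulF_5, mulF_6, mulF_7, mulF_8, mulF_9, mulF_10, mulF_11, mulF_12, mulF_13, mulF_14, mulF_15, mulF_16, mulF_17, E_apply, Pi.smul_apply,
    Pi.add_apply, Pi.sub_apply, smul_eq_mul]
  refine ⟨?_, ?_, ?_, ?_, ?_, ?_, ?_, ?_, ?_, ?_, ?_, ?_, ?_, ?_, ?_, ?_, ?_, ?_⟩ <;>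
    simp

theorem del_0_1 : δD (E 0) (E 1) = 0 := by
  rw [δD_apply]; simp [E_apply]

theorem prod_0_2 (η : ℝ) : mD η (E 0) (E 2) =
    η • (E 0 + E 2 - (E 16 + E 17)) := by
  apply ext18
  simp only [mD_apply, mulF_0, mulF_1, mulF_2, mulF_3, mulF_4, mulF_5, mulF_6, mulF_7, mulF_8, mulF_9, mulF_10, mulF_11, mulF_12, mulF_13, mulF_14, mulF_15, mulF_16, mulF_17, E_apply, Pi.smul_apply,
    Pi.add_apply, Pi.sub_apply, smul_eq_mul]
  refine ⟨?_, ?_, ?_, ?_, ?_, ?_, ?_, ?_, ?_, ?_, ?_, ?_, ?_, ?_, ?_, ?_, ?_, ?_⟩ <;>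
    simp

theorem del_0_2 : δD (E 0) (E 2) = 0 := by
  rw [δD_apply]; simp [E_apply]

theorem prod_4_5 (η : ℝ) : mD η (E 4) (E 5) =
    η • (E 4 + E 5 - (E 14 + E 12)) := by
  apply ext18
  simp only [mD_apply, mulF_0, mulF_1, mulF_2, mulF_3, mulF_4, mulF_5, mulF_6, mulF_7, mulF_8, mulF_9, mulF_10, mulF_11, mulF_12, mulF_13, mulF_14, mulF_15, mulF_16, mulF_17, E_apply, Pi.smul_apply,
    Pi.add_apply, Pi.sub_apply, smul_eq_mul]
  refine ⟨?_, ?_, ?_, ?_, ?_, ?_, ?_, ?_, ?_, ?_, ?_, ?_, ?_, ?_, ?_, ?_, ?_, ?_⟩ <;>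
    simp

theorem del_4_5 : δD (E 4) (E 5) = 0 := by
  rw [δD_apply]; simp [E_apply]

theorem prod_4_6 (η : ℝ) : mD η (E 4) (E 6) =
    η • (E 4 + E 6 - (E 17 + E 15)) := by
  apply ext18
  simp only [mD_apply, mulF_0, mulF_1, mulF_2, mulF_3, mulF_4, mulF_5, mulF_6, mulF_7, mulF_8, mulF_9, mulF_10, mulF_11, mulF_12, mulF_13, mulF_14, mulF_15, mulF_16, mulF_17, E_apply, Pi.smul_apply,
    Pi.add_apply, Pi.sub_apply, smul_eq_mul]
  refine ⟨?_, ?_, ?_, ?_, ?_, ?_, ?_, ?_, ?_, ?_, ?_, ?_, ?_, ?_, ?_, ?_, ?_, ?_⟩ <;>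
    simp

theorem del_4_6 : δD (E 4) (E 6) = 0 := by
  rw [δD_apply]; simp [E_apply]

theorem prod_8_9 (η : ℝ) : mD η (E 8) (E 9) =
    η • (E 8 + E 9 - (E 12 + E 13)) := by
  apply ext18
  simp only [mD_apply, mulF_0, mulF_1, mulF_2, mulF_3, mulF_4, mulF_5, mulF_6, mulF_7, mulF_8, mulF_9, mulF_10, mulF_11, mulF_12, mulF_13, mulF_14, mulF_15, mulF_16, mulF_17, E_apply, Pi.smul_apply,
    Pi.add_apply, Pi.sub_apply, smul_eq_mul]
  refine ⟨?_, ?_, ?_, ?_, ?_, ?_, ?_, ?_, ?_, ?_, ?_, ?_, ?_, ?_, ?_, ?_, ?_, ?_⟩ <;>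
    simp

theorem del_8_9 : δD (E 8) (E 9) = 0 := by
  rw [δD_apply]; simp [E_apply]

theorem prod_8_10 (η : ℝ) : mD η (E 8) (E 10) =
    η • (E 8 + E 10 - (E 15 + E 16)) := by
  apply ext18
  simp only [mD_apply, mulF_0, mulF_1, mulF_2, mulF_3, mulF_4, mulF_5, mulF_6, mulF_7, mulF_8, mulF_9, mulF_10, mulF_11, mulF_12, mulF_13, mulF_14, mulF_15, mulF_16, mulF_17, E_apply, Pi.smul_apply,
    Pi.add_apply, Pi.sub_apply, smul_eq_mul]
  refine ⟨?_, ?_, ?_, ?_, ?_, ?_, ?_, ?_, ?_, ?_, ?_, ?_, ?_, ?_, ?_, ?_, ?_, ?_⟩ <;>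
    simp

theorem del_8_10 : δD (E 8) (E 10) = 0 := by
  rw [δD_apply]; simp [E_apply]

theorem prod_12_16 (η : ℝ) : mD η (E 12) (E 16) = 0 := by
  apply ext18
  simp only [mD_apply, mulF_0, mulF_1, mulF_2, mulF_3, mulF_4, mulF_5, mulF_6, mulF_7, mulF_8, mulF_9, mulF_10, mulF_11, mulF_12, mulF_13, mulF_14, mulF_15, mulF_16, mulF_17, E_apply, Pi.zero_apply]
  refine ⟨?_, ?_, ?_, ?_, ?_, ?_, ?_, ?_, ?_, ?_, ?_, ?_, ?_, ?_, ?_, ?_, ?_, ?_⟩ <;>
    simp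

theorem del_12_16 : δD (E 12) (E 16) = 1 := by
  rw [δD_apply]; simp [E_apply]

/-- A subspace closed under multiplication containing the axes of the first copy contains the
whole first copy, `e` and `w`. -/
theorem closure₁ {η : ℝ} (h0 : 0 < η) (S : Submodule ℝ AA)
    (hS : ∀ u ∈ S, ∀ v ∈ S, mA η u v ∈ S)
    (hE : ∀ i : Fin 18, (i : ℕ) < 12 → (inj₁ (E i) : AA) ∈ S) :
    (∀ u : Fin 18 → ℝ, (inj₁ u : AA) ∈ S) ∧ (((0, 1), (0, 0), 0) : AA) ∈ S ∧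
      (((0, 0), (0, 0), 1) : AA) ∈ S := by
  have hinj : ∀ u v : Fin 18 → ℝ, (inj₁ (u + v) : AA) = inj₁ u + inj₁ v := fun u v =>
    map_add (inj : (Fin 18 → ℝ) →ₗ[ℝ] AA) u v
  have hinjs : ∀ (c : ℝ) (u : Fin 18 → ℝ), (inj₁ (c • u) : AA) = c • inj₁ u := fun c u =>
    map_smul (inj : (Fin 18 → ℝ) →ₗ[ℝ] AA) c u
  have key : ∀ i j a b : Fin 18, (i : ℕ) < 12 → (j : ℕ) < 12 →
      mD η (E i) (E j) = η • (E i + E j - (E a + E b)) → δD (E i) (E j) = 0 →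
      (inj₁ (E a + E b) : AA) ∈ S := by
    intro i j a b hi hj hm hd
    have h1 := hS _ (hE i hi) _ (hE j hj)
    rw [inj₁_mul, hm, hd] at h1
    have h2 : (inj₁ (E a + E b) : AA) = inj₁ (E i) + inj₁ (E j) -
        η⁻¹ • ((η • (E i + E j - (E a + E b)), 0), (0, 0), 0) := by
      refine Prod.ext (Prod.ext ?_ ?_) (Prod.ext (Prod.ext ?_ ?_) ?_)
      · simp [inj₁, smul_smul, inv_mul_cancel₀ h0.ne']
      · simp [inj₁]
      · simp [inj₁]
      · simp [inj₁]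
      · simp [inj₁]
    rw [h2]
    exact sub_mem (add_mem (hE i hi) (hE j hj)) (S.smul_mem _ h1)
  have q0 := key 0 1 13 14 (by decide) (by decide) (prod_0_1 η) del_0_1
  have q1 := key 4 5 14 12 (by decide) (by decide) (prod_4_5 η) del_4_5
  have q2 := key 8 9 12 13 (by decide) (by decide) (prod_8_9 η) del_8_9
  have r0 := key 0 2 16 17 (by decide) (by decide) (prod_0_2 η) del_0_2
  have r1 := key 4 6 17 15 (by decide) (by decide) (prod_4_6 η) del_4_6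
  have r2 := key 8 10 15 16 (by decide) (by decide) (prod_8_10 η) del_8_10
  have half : ∀ a b c : Fin 18, (inj₁ (E a + E b) : AA) ∈ S → (inj₁ (E b + E c) : AA) ∈ S →
      (inj₁ (E c + E a) : AA) ∈ S → (inj₁ (E a) : AA) ∈ S := by
    intro a b c h1 h2 h3
    have : (inj₁ (E a) : AA) = (1 / 2 : ℝ) • (inj₁ (E a + E b) + inj₁ (E c + E a) -
        inj₁ (E b + E c)) := by
      rw [hinj, hinj, hinj]; module
    rw [this]
    exact S.smul_mem _ (sub_mem (add_mem h1 h3) h2)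
  have p12 : (inj₁ (E 12) : AA) ∈ S := half 12 13 14 q2 q0 q1
  have p13 : (inj₁ (E 13) : AA) ∈ S := half 13 14 12 q0 q1 q2
  have p14 : (inj₁ (E 14) : AA) ∈ S := half 14 12 13 q1 q2 q0
  have p15 : (inj₁ (E 15) : AA) ∈ S := half 15 16 17 r2 r0 r1
  have p16 : (inj₁ (E 16) : AA) ∈ S := half 16 17 15 r0 r1 r2
  have p17 : (inj₁ (E 17) : AA) ∈ S := half 17 15 16 r1 r2 r0
  have hall : ∀ i : Fin 18, (inj₁ (E i) : AA) ∈ S := by
    intro i
    by_cases hi : (i : ℕ) < 12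
    · exact hE i hi
    · have : i = 12 ∨ i = 13 ∨ i = 14 ∨ i = 15 ∨ i = 16 ∨ i = 17 := by omega
      rcases this with rfl | rfl | rfl | rfl | rfl | rfl <;> assumption
  have hD : ∀ u : Fin 18 → ℝ, (inj₁ u : AA) ∈ S := by
    intro u
    have : (inj₁ u : AA) = ∑ i, u i • (inj₁ (E i) : AA) := by
      have h := congrArg (inj : (Fin 18 → ℝ) →ₗ[ℝ] AA) (eq_sum_E u)
      rw [map_sum] at h
      simp only [map_smul] at h
      exact h
    rw [this]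
    exact Submodule.sum_mem _ fun i _ => S.smul_mem _ (hall i)
  have he : (((0, 1), (0, 0), 0) : AA) ∈ S := by
    have h1 := hS _ p12 _ p16
    rw [inj₁_mul, prod_12_16, del_12_16] at h1
    exact h1
  refine ⟨hD, he, ?_⟩
  have hee := hS _ he _ he
  have : (((0, 0), (0, 0), 1) : AA) = mA η ((0, 1), (0, 0), 0) ((0, 1), (0, 0), 0) -
      inj₁ (ZD η) := by
    refine Prod.ext (Prod.ext ?_ ?_) (Prod.ext (Prod.ext ?_ ?_) ?_)
    · simp [mul_apply, hp, inj₁, data]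
    · simp [mul_apply, hp, inj₁, data]
    · simp [mul_apply, hp, inj₁, data]
    · simp [mul_apply, hp, inj₁, data]
    · simp [mul_apply, hp, inj₁, data]
  rw [this]
  exact sub_mem hee (hD _)

/-- The analogue for the second copy. -/
theorem closure₂ {η : ℝ} (h0 : 0 < η) (S : Submodule ℝ AA)
    (hS : ∀ u ∈ S, ∀ v ∈ S, mA η u v ∈ S)
    (hE : ∀ i : Fin 18, (i : ℕ) < 12 → (inj₂ (E i) : AA) ∈ S) :
    (∀ u : Fin 18 → ℝ, (inj₂ u : AA) ∈ S) ∧ (((0, 0), (0, 1), 0) : AA) ∈ S ∧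
      (((0, 0), (0, 0), 1) : AA) ∈ S := by
  have h := closure₁ h0 (S.comap ((swap ℝ (Fin 18 → ℝ) : AA ≃ₗ[ℝ] AA) : AA →ₗ[ℝ] AA))
    (by
      intro u hu v hv
      rw [Submodule.mem_comap] at hu hv ⊢
      have := hS _ hu _ hv
      have h2 : mA η ((swap ℝ (Fin 18 → ℝ)) u) ((swap ℝ (Fin 18 → ℝ)) v) =
        (swap ℝ (Fin 18 → ℝ)) (mA η u v) := (swap_mul (d := data η) u v).symm
      exact h2 ▸ this)
    (by
      intro i hi
      rw [Submodule.mem_comap]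
      exact hE i hi)
  obtain ⟨ha, hb, hc⟩ := h
  exact ⟨ha, hb, hc⟩

theorem top_of {η : ℝ} (h0 : 0 < η) (S : Submodule ℝ AA)
    (hS : ∀ u ∈ S, ∀ v ∈ S, mA η u v ∈ S)
    (hE₁ : ∀ i : Fin 18, (i : ℕ) < 12 → (inj₁ (E i) : AA) ∈ S)
    (hE₂ : ∀ i : Fin 18, (i : ℕ) < 12 → (inj₂ (E i) : AA) ∈ S) : S = ⊤ := by
  obtain ⟨a1, a2, a3⟩ := closure₁ h0 S hS hE₁
  obtain ⟨b1, b2, -⟩ := closure₂ h0 S hS hE₂
  rw [eq_top_iff]
  intro u _
  have : u = inj₁ u.1.1 + u.1.2 • ((0, 1), (0, 0), 0) + inj₂ u.2.1.1 +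
      u.2.1.2 • ((0, 0), (0, 1), 0) + u.2.2 • ((0, 0), (0, 0), 1) := by
    refine Prod.ext (Prod.ext ?_ ?_) (Prod.ext (Prod.ext ?_ ?_) ?_)
    · simp [inj₁, inj₂]
    · simp [inj₁, inj₂]
    · simp [inj₁, inj₂]
    · simp [inj₁, inj₂]
    · simp [inj₁, inj₂]
  rw [this]
  exact add_mem (add_mem (add_mem (add_mem (a1 _) (S.smul_mem _ a2)) (b1 _)) (S.smul_mem _ b2))
    (S.smul_mem _ a3)

theorem axial {η : ℝ} (h0 : 0 < η) (h1 : η < 1 / 2) :
    IsPrimitiveAxialAlgebra (mA η) (monsterLaw (2 * η) η) XX := by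
  refine ⟨mA_comm η, ax_XX h0 h1, ?_⟩
  intro S hX hS
  apply top_of h0 S hS
  · intro i hi
    exact hX ⟨i, hi, Or.inl rfl⟩
  · intro i hi
    exact hX ⟨i, hi, Or.inr rfl⟩

theorem not_connected (η : ℝ) : ¬ (nonAnnGraph (mA η) XX).Connected := by
  intro hc
  have key : ∀ x y : XX, (nonAnnGraph (mA η) XX).Reachable x y →
      (∃ i, (x : AA) = inj₁ (E i)) → (∃ i, (y : AA) = inj₁ (E i)) := by
    rintro x y ⟨w⟩
    induction w with
    | nil => exact id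
    | @cons x z y hadj _ ih =>
      rintro ⟨i, hx⟩
      apply ih
      obtain ⟨j, hj, hz | hz⟩ := z.2
      · exact ⟨j, hz⟩
      · exfalso
        rw [nonAnnGraph, SimpleGraph.fromRel_adj] at hadj
        rcases hadj.2 with h | h
        · apply h
          rw [hx, hz]
          exact mul_inj₁_inj₂ (d := data η) _ _
        · apply h
          rw [hx, hz]
          exact mul_inj₂_inj₁ (d := data η) _ _
  obtain ⟨i, hi⟩ := key ⟨inj₁ (E 0), 0, by decide, Or.inl rfl⟩ ⟨inj₂ (E 0), 0, by decide, Or.inr rfl⟩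
    (hc.preconnected _ _) ⟨0, rfl⟩
  have h2 := congrArg (fun a : AA => a.2.1.1 0) hi
  simp [inj₁, inj₂, E_apply] at h2

theorem form_next (η : ℝ) (i j : Fin 18) (hi : (i : ℕ) < 12) (hj : (j : ℕ) < 12)
    (h : (j : ℕ) / 4 = ((i : ℕ) / 4 + 1) % 3) : fD η (E i) (E j) = η := by
  have hi' : i = 0 ∨ i = 1 ∨ i = 2 ∨ i = 3 ∨ i = 4 ∨ i = 5 ∨ i = 6 ∨ i = 7 ∨ i = 8 ∨ i = 9 ∨
    i = 10 ∨ i = 11 := by omega
  rcases hi' with rfl | rfl | rfl | rfl | rfl | rfl | rfl | rfl | rfl | rfl | rfl | rfl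
  all_goals
    first
    | (have hj' : j = 0 ∨ j = 1 ∨ j = 2 ∨ j = 3 := by
        simp at h; omega
       rcases hj' with rfl | rfl | rfl | rfl <;> (rw [fD_apply]; simp [E_apply]))
    | (have hj' : j = 4 ∨ j = 5 ∨ j = 6 ∨ j = 7 := by
        simp at h; omega
       rcases hj' with rfl | rfl | rfl | rfl <;> (rw [fD_apply]; simp [E_apply]))
    | (have hj' : j = 8 ∨ j = 9 ∨ j = 10 ∨ j = 11 := by
        simp at h; omega
       rcases hj' with rfl | rfl | rfl | rfl <;> (rw [fD_apply]; simp [E_apply]))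

theorem χ_E (η : ℝ) (i : Fin 18) (hi : (i : ℕ) < 12) : χD η (E i) = η := by
  have hi' : i = 0 ∨ i = 1 ∨ i = 2 ∨ i = 3 ∨ i = 4 ∨ i = 5 ∨ i = 6 ∨ i = 7 ∨ i = 8 ∨ i = 9 ∨
    i = 10 ∨ i = 11 := by omega
  rcases hi' with rfl | rfl | rfl | rfl | rfl | rfl | rfl | rfl | rfl | rfl | rfl | rfl <;>
    (rw [χD_apply]; simp [E_apply])

theorem ideal_step {η : ℝ} (h0 : 0 < η) (h1 : η < 1 / 2) (I : Submodule ℝ AA)
    (hI : IsIdeal (mA η) I) (i j : Fin 18) (hi : (i : ℕ) < 12) (hj : (j : ℕ) < 12)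
    (h : (j : ℕ) / 4 = ((i : ℕ) / 4 + 1) % 3) (hx : (inj₁ (E i) : AA) ∈ I) :
    (inj₁ (E j) : AA) ∈ I := by
  refine axis_mem_of_form (mA_comm η) (ax_all h0 h1 j hj) (B_frobenius η) ?_ ?_ hI hx ?_
  · intro h2; linarith
  · intro h2; linarith
  · rw [B_apply]
    simp only [inj₁, form_next η i j hi hj h]
    simp [h0.ne']

theorem ideal_all₁ {η : ℝ} (h0 : 0 < η) (h1 : η < 1 / 2) (I : Submodule ℝ AA)
    (hI : IsIdeal (mA η) I) (i : Fin 18) (hi : (i : ℕ) < 12) (hx : (inj₁ (E i) : AA) ∈ I) :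
    ∀ j : Fin 18, (j : ℕ) < 12 → (inj₁ (E j) : AA) ∈ I := by
  obtain ⟨m1, hm1⟩ : ∃ m : Fin 18, (m : ℕ) = 4 * (((i : ℕ) / 4 + 1) % 3) :=
    ⟨⟨4 * (((i : ℕ) / 4 + 1) % 3), by omega⟩, rfl⟩
  obtain ⟨m2, hm2⟩ : ∃ m : Fin 18, (m : ℕ) = 4 * (((i : ℕ) / 4 + 2) % 3) :=
    ⟨⟨4 * (((i : ℕ) / 4 + 2) % 3), by omega⟩, rfl⟩
  have k1 : ∀ j : Fin 18, (j : ℕ) < 12 → (j : ℕ) / 4 = ((i : ℕ) / 4 + 1) % 3 →
      (inj₁ (E j) : AA) ∈ I := fun j hj h => ideal_step h0 h1 I hI i j hi hj h hx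
  have x1 := k1 m1 (by omega) (by omega)
  have k2 : ∀ j : Fin 18, (j : ℕ) < 12 → (j : ℕ) / 4 = ((i : ℕ) / 4 + 2) % 3 →
      (inj₁ (E j) : AA) ∈ I :=
    fun j hj h => ideal_step h0 h1 I hI m1 j (by omega) hj (by omega) x1
  have x2 := k2 m2 (by omega) (by omega)
  have k3 : ∀ j : Fin 18, (j : ℕ) < 12 → (j : ℕ) / 4 = (i : ℕ) / 4 →
      (inj₁ (E j) : AA) ∈ I :=
    fun j hj h => ideal_step h0 h1 I hI m2 j (by omega) hj (by omega) x2
  intro j hj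
  have : (j : ℕ) / 4 = ((i : ℕ) / 4 + 1) % 3 ∨ (j : ℕ) / 4 = ((i : ℕ) / 4 + 2) % 3 ∨
      (j : ℕ) / 4 = (i : ℕ) / 4 := by omega
  rcases this with h | h | h
  · exact k1 j hj h
  · exact k2 j hj h
  · exact k3 j hj h

theorem ideal_top₁ {η : ℝ} (h0 : 0 < η) (h1 : η < 1 / 2) (I : Submodule ℝ AA)
    (hI : IsIdeal (mA η) I) (i : Fin 18) (hi : (i : ℕ) < 12) (hx : (inj₁ (E i) : AA) ∈ I) :
    I = ⊤ := by
  have hE₁ := ideal_all₁ h0 h1 I hI i hi hx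
  have hmul : ∀ u ∈ I, ∀ v ∈ I, mA η u v ∈ I := fun u _ v hv => hI v hv u
  obtain ⟨-, -, hw⟩ := closure₁ h0 I hmul hE₁
  have he2 : (((0, 0), (0, 1), 0) : AA) ∈ I := by
    have h2 := hI _ hw ((0, 0), (0, 1), 0)
    have h3 : mA η ((0, 0), (0, 1), 0) ((0, 0), (0, 0), 1) = (((0, 0), (0, 1), 0) : AA) := by
      refine Prod.ext (Prod.ext ?_ ?_) (Prod.ext (Prod.ext ?_ ?_) ?_)
      · simp [mul_apply, hp]
      · simp [mul_apply, hp]
      · simp [mul_apply, hp]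
      · simp [mul_apply, hp]
      · simp [mul_apply]
    rwa [h3] at h2
  have hZ : (inj₂ (ZD η) : AA) ∈ I := by
    have h2 := hI _ he2 ((0, 0), (0, 1), 0)
    have h3 : (inj₂ (ZD η) : AA) = mA η ((0, 0), (0, 1), 0) ((0, 0), (0, 1), 0) -
        ((0, 0), (0, 0), 1) := by
      refine Prod.ext (Prod.ext ?_ ?_) (Prod.ext (Prod.ext ?_ ?_) ?_)
      · simp [mul_apply, hp, inj₂, data]
      · simp [mul_apply, hp, inj₂, data]
      · simp [mul_apply, hp, inj₂, data]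
      · simp [mul_apply, hp, inj₂, data]
      · simp [mul_apply, inj₂]
    rw [h3]
    exact sub_mem h2 hw
  refine top_of h0 I hmul hE₁ ?_
  intro j hj
  refine axis_mem_of_form (mA_comm η) (ax_XX h0 h1 _ ⟨j, hj, Or.inr rfl⟩) (B_frobenius η)
    ?_ ?_ hI hZ ?_
  · intro h2; linarith
  · intro h2; linarith
  · rw [B_apply]
    have h2 : fD η (ZD η) (E j) = eps η * η := by
      rw [fD_Z, χ_E η j hj]; rfl
    simp only [inj₂, h2]
    simp [h0.ne', (eps_pos h0 h1).ne']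

theorem ideal_top {η : ℝ} (h0 : 0 < η) (h1 : η < 1 / 2) (I : Submodule ℝ AA)
    (hI : IsIdeal (mA η) I) (x : AA) (hx : x ∈ XX) (hxI : x ∈ I) : I = ⊤ := by
  obtain ⟨i, hi, rfl | rfl⟩ := hx
  · exact ideal_top₁ h0 h1 I hI i hi hxI
  · have h := ideal_top₁ h0 h1 (I.comap ((swap ℝ (Fin 18 → ℝ) : AA ≃ₗ[ℝ] AA) : AA →ₗ[ℝ] AA))
      (by
        intro u hu v
        rw [Submodule.mem_comap] at hu ⊢
        have := hI _ hu (swap ℝ (Fin 18 → ℝ) v)
        have h2 : mA η ((swap ℝ (Fin 18 → ℝ)) v) ((swap ℝ (Fin 18 → ℝ)) u) =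
          (swap ℝ (Fin 18 → ℝ)) (mA η v u) := (swap_mul (d := data η) v u).symm
        exact h2 ▸ this) i hi
      (by
        rw [Submodule.mem_comap]
        exact hxI)
    rw [eq_top_iff]
    intro u _
    have hu : swap ℝ (Fin 18 → ℝ) u ∈
        I.comap ((swap ℝ (Fin 18 → ℝ) : AA ≃ₗ[ℝ] AA) : AA →ₗ[ℝ] AA) := by
      rw [h]; exact Submodule.mem_top
    exact hu

theorem simple {η : ℝ} (h0 : 0 < η) (h1 : η < 1 / 2) : IsSimpleAlg (mA η) := by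
  refine isSimple_of (α := 2 * η) (β := η) ?_ ?_ (axial h0 h1) (B_frobenius η) ?_
    ⟨_, 0, by decide, Or.inl rfl⟩ (ideal_top h0 h1)
  · intro h; linarith
  · intro h; linarith
  · intro u hu
    by_contra hne
    exact (B_pos h0 h1 u hne).ne' (hu u)

theorem finrank_AA : Module.finrank ℝ AA = 39 := by
  simp [AA, A, Module.finrank_prod]

/-- The 24 axes as a family. -/
def axisFun (p : Bool × Fin 12) : AA :=
  if p.1 then inj₂ (E (Fin.castLE (by decide) p.2)) else inj₁ (E (Fin.castLE (by decide) p.2))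

theorem axisFun_injective : Function.Injective axisFun := by
  rintro ⟨b, i⟩ ⟨c, j⟩ h
  have hE : ∀ a b : Fin 18, (E a : Fin 18 → ℝ) = E b → a = b := by
    intro a b hab
    have := congrFun hab a
    by_contra hne
    simp [E_apply, hne] at this
  have hE0 : ∀ a : Fin 18, (E a : Fin 18 → ℝ) ≠ 0 := by
    intro a ha
    have := congrFun ha a
    simp [E_apply] at this
  have hcast : ∀ i j : Fin 12, (Fin.castLE (by decide) i : Fin 18) = Fin.castLE (by decide) j →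
      i = j := by
    intro i j hij
    exact Fin.castLE_injective _ hij
  have h1 := congrArg (fun a : AA => a.1.1) h
  have h2 := congrArg (fun a : AA => a.2.1.1) h
  cases b <;> cases c
  · have := hcast _ _ (hE _ _ (by simpa [axisFun, inj₁] using h1))
    rw [this]
  · exact absurd (by simpa [axisFun, inj₁, inj₂] using h1) (hE0 _)
  · exact absurd (by simpa [axisFun, inj₁, inj₂] using h2) (hE0 _)
  · have := hcast _ _ (hE _ _ (by simpa [axisFun, inj₂] using h2))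
    rw [this]

theorem XX_eq : XX = axisFun '' Set.univ := by
  ext a
  constructor
  · rintro ⟨i, hi, rfl | rfl⟩
    · exact ⟨(false, ⟨i, hi⟩), trivial, by simp [axisFun]⟩
    · exact ⟨(true, ⟨i, hi⟩), trivial, by simp [axisFun]⟩
  · rintro ⟨⟨b, i⟩, -, rfl⟩
    cases b
    · exact ⟨Fin.castLE (by decide) i, i.2, Or.inl (by simp [axisFun])⟩
    · exact ⟨Fin.castLE (by decide) i, i.2, Or.inr (by simp [axisFun])⟩

theorem ncard_XX : XX.ncard = 24 := by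
  rw [XX_eq, Set.ncard_image_of_injective _ axisFun_injective, Set.ncard_univ]
  simp

end

end Pool.Agent.H.MP_8db76d_al.Final
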