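import Pool.Agent.H.MP_8db76d_al.Defs

/-!
A 9-dimensional simple primitive axial algebra with a Seress fusion law and a disconnected
non-annihilation graph.  Basis `a, b, d, e, a', b', d', e', w` (coordinates `0, ..., 8`), with
`a a = a`, `b b = b`, `a b = d`, `a d = b/4`, `b d = a/4`, `d d = e`, `a e = e/2`, `b e = e/2`,
`d e = d`, `e e = (a + b)/8 + w`, `w e = e`, the same for the primed elements (with the same `w`),
and all other products of basis vectors zero.
-/

namespace Pool.Agent.H.MP_8db76d_al.Nine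

open Pool.Agent.H.MP_8db76d_al

/-- The underlying space. -/
def Alg (K : Type*) : Type _ := Fin 9 → K

variable {K : Type*} [Field K]

instance : AddCommGroup (Alg K) := inferInstanceAs (AddCommGroup (Fin 9 → K))
instance : Module K (Alg K) := inferInstanceAs (Module K (Fin 9 → K))

omit [Field K] in
@[ext] theorem Alg.ext {u v : Alg K} (h : ∀ i, u i = v i) : u = v := funext h

@[simp] theorem add_apply' (u v : Alg K) (i : Fin 9) : (u + v) i = u i + v i := rfl
@[simp] theorem smul_apply' (c : K) (u : Alg K) (i : Fin 9) : (c • u) i = c * u i := rfl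
@[simp] theorem zero_apply' (i : Fin 9) : (0 : Alg K) i = 0 := rfl

/-- The product. -/
def mulF (u v : Alg K) : Alg K :=
  ![u 0 * v 0 + (u 1 * v 2 + u 2 * v 1) / 4 + u 3 * v 3 / 8,
    u 1 * v 1 + (u 0 * v 2 + u 2 * v 0) / 4 + u 3 * v 3 / 8,
    u 0 * v 1 + u 1 * v 0 + u 2 * v 3 + u 3 * v 2,
    u 2 * v 2 + (u 0 * v 3 + u 3 * v 0) / 2 + (u 1 * v 3 + u 3 * v 1) / 2 + u 8 * v 3 + u 3 * v 8,
    u 4 * v 4 + (u 5 * v 6 + u 6 * v 5) / 4 + u 7 * v 7 / 8,
    u 5 * v 5 + (u 4 * v 6 + u 6 * v 4) / 4 + u 7 * v 7 / 8,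
    u 4 * v 5 + u 5 * v 4 + u 6 * v 7 + u 7 * v 6,
    u 6 * v 6 + (u 4 * v 7 + u 7 * v 4) / 2 + (u 5 * v 7 + u 7 * v 5) / 2 + u 8 * v 7 + u 7 * v 8,
    u 3 * v 3 + u 7 * v 7]

instance : Mul (Alg K) := ⟨mulF⟩

theorem mul0 (u v : Alg K) : (u * v) 0 = u 0 * v 0 + (u 1 * v 2 + u 2 * v 1) / 4 + u 3 * v 3 / 8 :=
  rfl
theorem mul1 (u v : Alg K) : (u * v) 1 = u 1 * v 1 + (u 0 * v 2 + u 2 * v 0) / 4 + u 3 * v 3 / 8 :=
  rfl
theorem mul2 (u v : Alg K) : (u * v) 2 = u 0 * v 1 + u 1 * v 0 + u 2 * v 3 + u 3 * v 2 := rfl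
theorem mul3 (u v : Alg K) : (u * v) 3 = u 2 * v 2 + (u 0 * v 3 + u 3 * v 0) / 2 +
    (u 1 * v 3 + u 3 * v 1) / 2 + u 8 * v 3 + u 3 * v 8 := rfl
theorem mul4 (u v : Alg K) : (u * v) 4 = u 4 * v 4 + (u 5 * v 6 + u 6 * v 5) / 4 + u 7 * v 7 / 8 :=
  rfl
theorem mul5 (u v : Alg K) : (u * v) 5 = u 5 * v 5 + (u 4 * v 6 + u 6 * v 4) / 4 + u 7 * v 7 / 8 :=
  rfl
theorem mul6 (u v : Alg K) : (u * v) 6 = u 4 * v 5 + u 5 * v 4 + u 6 * v 7 + u 7 * v 6 := rfl
theorem mul7 (u v : Alg K) : (u * v) 7 = u 6 * v 6 + (u 4 * v 7 + u 7 * v 4) / 2 +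
    (u 5 * v 7 + u 7 * v 5) / 2 + u 8 * v 7 + u 7 * v 8 := rfl
theorem mul8 (u v : Alg K) : (u * v) 8 = u 3 * v 3 + u 7 * v 7 := rfl

theorem forall_fin9 {P : Fin 9 → Prop} :
    (∀ i, P i) ↔ P 0 ∧ P 1 ∧ P 2 ∧ P 3 ∧ P 4 ∧ P 5 ∧ P 6 ∧ P 7 ∧ P 8 := by
  constructor
  · intro h; exact ⟨h 0, h 1, h 2, h 3, h 4, h 5, h 6, h 7, h 8⟩
  · rintro ⟨h0, h1, h2, h3, h4, h5, h6, h7, h8⟩ i
    fin_cases i <;> assumption

omit [Field K] in
theorem ext9 {u v : Alg K} (h : u 0 = v 0 ∧ u 1 = v 1 ∧ u 2 = v 2 ∧ u 3 = v 3 ∧ u 4 = v 4 ∧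
    u 5 = v 5 ∧ u 6 = v 6 ∧ u 7 = v 7 ∧ u 8 = v 8) : u = v :=
  Alg.ext (forall_fin9.mpr h)

instance : NonUnitalNonAssocCommRing (Alg K) :=
  { (inferInstance : AddCommGroup (Alg K)), (inferInstance : Mul (Alg K)) with
    left_distrib := fun u v w => by
      apply ext9
      simp only [add_apply', mul0, mul1, mul2, mul3, mul4, mul5, mul6, mul7, mul8]
      refine ⟨?_, ?_, ?_, ?_, ?_, ?_, ?_, ?_, ?_⟩ <;> ring
    right_distrib := fun u v w => by
      apply ext9
      simp only [add_apply', mul0, mul1, mul2, mul3, mul4, mul5, mul6, mul7, mul8]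
      refine ⟨?_, ?_, ?_, ?_, ?_, ?_, ?_, ?_, ?_⟩ <;> ring
    zero_mul := fun u => by
      apply ext9
      simp only [zero_apply', mul0, mul1, mul2, mul3, mul4, mul5, mul6, mul7, mul8]
      refine ⟨?_, ?_, ?_, ?_, ?_, ?_, ?_, ?_, ?_⟩ <;> ring
    mul_zero := fun u => by
      apply ext9
      simp only [zero_apply', mul0, mul1, mul2, mul3, mul4, mul5, mul6, mul7, mul8]
      refine ⟨?_, ?_, ?_, ?_, ?_, ?_, ?_, ?_, ?_⟩ <;> ring
    mul_comm := fun u v => by
      apply ext9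
      simp only [mul0, mul1, mul2, mul3, mul4, mul5, mul6, mul7, mul8]
      refine ⟨?_, ?_, ?_, ?_, ?_, ?_, ?_, ?_, ?_⟩ <;> ring }

instance : IsScalarTower K (Alg K) (Alg K) := ⟨fun c u v => by
  show (c • u) * v = c • (u * v)
  apply ext9
  simp only [smul_apply', mul0, mul1, mul2, mul3, mul4, mul5, mul6, mul7, mul8]
  refine ⟨?_, ?_, ?_, ?_, ?_, ?_, ?_, ?_, ?_⟩ <;> ring⟩

instance : SMulCommClass K (Alg K) (Alg K) := ⟨fun c u v => by
  show c • (u * v) = u * (c • v)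
  apply ext9
  simp only [smul_apply', mul0, mul1, mul2, mul3, mul4, mul5, mul6, mul7, mul8]
  refine ⟨?_, ?_, ?_, ?_, ?_, ?_, ?_, ?_, ?_⟩ <;> ring⟩

/-- The standard basis vectors. -/
def E (K : Type*) [Field K] (i : Fin 9) : Alg K := fun j => if j = i then 1 else 0

omit [Field K] in
/-- Regard a function as an element of the algebra. -/
def mk (f : Fin 9 → K) : Alg K := f

omit [Field K] in
@[simp] theorem mk_apply (f : Fin 9 → K) (i : Fin 9) : mk f i = f i := rfl

theorem E_apply (i j : Fin 9) : E K i j = if j = i then 1 else 0 := rfl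

/-- The set of eigenvalues. -/
def S (K : Type*) [Field K] : Set K := {1, 0, 1 / 2, -1 / 2}

theorem one_mem_S : (1 : K) ∈ S K := by simp [S]
theorem zero_mem_S : (0 : K) ∈ S K := by simp [S]

/-- The four axes. -/
def X (K : Type*) [Field K] : Set (Alg K) := {E K 0, E K 1, E K 4, E K 5}

theorem mem_eig_E0 {l : K} {v : Alg K} : v ∈ eig (E K 0) l ↔
    (v 0 = l * v 0 ∧ v 2 / 4 = l * v 1 ∧ v 1 = l * v 2 ∧ v 3 / 2 = l * v 3 ∧ 0 = l * v 4 ∧
      0 = l * v 5 ∧ 0 = l * v 6 ∧ 0 = l * v 7 ∧ 0 = l * v 8) := by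
  rw [mem_eig]
  constructor
  · intro h
    have h' := fun i => congrFun h i
    have := forall_fin9.mp h'
    simpa [mul0, mul1, mul2, mul3, mul4, mul5, mul6, mul7, mul8, E_apply] using this
  · intro h
    apply ext9
    simpa [mul0, mul1, mul2, mul3, mul4, mul5, mul6, mul7, mul8, E_apply] using h

theorem axis0 (h2 : (2 : K) ≠ 0) (h3 : (3 : K) ≠ 0) :
    IsPrimitiveAxis (seressLaw (S K) one_mem_S) (E K 0) := by
  have h4 : (4 : K) ≠ 0 := by
    have : (4 : K) = 2 * 2 := by norm_num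
    rw [this]; exact mul_ne_zero h2 h2
  apply isPrimitiveAxis_of_seress
  · intro h
    have := congrFun h 0
    simp [E_apply] at this
  · apply ext9
    simp [mul0, mul1, mul2, mul3, mul4, mul5, mul6, mul7, mul8, E_apply]
  · rw [eq_top_iff]
    intro v _
    have key : ∀ l ∈ S K, ∀ x ∈ eig (E K 0) l, x ∈ ⨆ l : S K, eig (E K 0) (l : K) :=
      fun l hl x hx => Submodule.mem_iSup_of_mem (⟨l, hl⟩ : S K) hx
    have hv : v = (mk ![v 0, 0, 0, 0, 0, 0, 0, 0, 0]) +
        (mk ![0, 0, 0, 0, v 4, v 5, v 6, v 7, v 8]) +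
        (mk ![0, (v 2 + 2 * v 1) / 4, (v 2 + 2 * v 1) / 2, v 3, 0, 0, 0, 0, 0]) +
        (mk ![0, -(v 2 - 2 * v 1) / 4, (v 2 - 2 * v 1) / 2, 0, 0, 0, 0, 0, 0])
        := by
      apply ext9
      simp only [add_apply']
      refine ⟨?_, ?_, ?_, ?_, ?_, ?_, ?_, ?_, ?_⟩ <;> simp <;> field_simp <;> ring
    rw [hv]
    refine Submodule.add_mem _ (Submodule.add_mem _ (Submodule.add_mem _ ?_ ?_) ?_) ?_
    · refine key 1 one_mem_S _ ?_
      rw [mem_eig_E0]; simp
    · refine key 0 zero_mem_S _ ?_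
      rw [mem_eig_E0]; simp
    · refine key (1 / 2) (by simp [S]) _ ?_
      rw [mem_eig_E0]
      refine ⟨?_, ?_, ?_, ?_, ?_, ?_, ?_, ?_, ?_⟩ <;> simp <;> field_simp <;> ring
    · refine key (-1 / 2) (by simp [S]) _ ?_
      rw [mem_eig_E0]
      refine ⟨?_, ?_, ?_, ?_, ?_, ?_, ?_, ?_, ?_⟩ <;> simp <;> field_simp <;> ring
  · intro v hv
    rw [mem_eig_E0] at hv
    obtain ⟨-, e1, e2, e3, e4, e5, e6, e7, e8⟩ := hv
    rw [Submodule.mem_span_singleton]
    refine ⟨v 0, ?_⟩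
    have f2 : v 2 = 0 := by
      have : (3 : K) * v 2 = 0 := by
        field_simp at e1
        linear_combination (-1 : K) * e1 - 4 * e2
      exact (mul_eq_zero.mp this).resolve_left h3
    have f3 : v 3 = 0 := by
      field_simp at e3
      linear_combination (-1 : K) * e3
    apply ext9
    simp only [one_mul] at e2 e4 e5 e6 e7 e8
    simp [E_apply, e2, f2, f3, ← e4, ← e5, ← e6, ← e7, ← e8]
  · intro u hu l hl v hv
    rw [mem_eig_E0] at hu hv ⊢
    simp only [zero_mul] at hu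
    obtain ⟨u0, u2, u1, u3, -, -, -, -, -⟩ := hu
    have u2 : u 2 = 0 := by
      field_simp at u2
      simpa using u2
    have u3 : u 3 = 0 := by
      field_simp at u3
      simpa using u3
    obtain ⟨v0, v1, v2, v3, v4, v5, v6, v7, v8⟩ := hv
    simp only [mul0, mul1, mul2, mul3, mul4, mul5, mul6, mul7, mul8, u0, u1, u2, u3, zero_mul,
      add_zero, zero_add, zero_div]
    refine ⟨?_, ?_, ?_, ?_, ?_, ?_, ?_, ?_, ?_⟩
    · ring
    · ring
    · ring
    · linear_combination u 8 * v3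
    · linear_combination u 4 * v4 + (u 5 * v6 + u 6 * v5) / 4 + u 7 * v7 / 8
    · linear_combination u 5 * v5 + (u 4 * v6 + u 6 * v4) / 4 + u 7 * v7 / 8
    · linear_combination u 4 * v5 + u 5 * v4 + u 6 * v7 + u 7 * v6
    · linear_combination u 6 * v6 + (u 4 * v7 + u 7 * v4) / 2 + (u 5 * v7 + u 7 * v5) / 2 +
        u 8 * v7 + u 7 * v8
    · linear_combination u 7 * v7

/-- Permuting the coordinates. -/
def perm (π : Equiv.Perm (Fin 9)) : Alg K ≃ₗ[K] Alg K where
  toFun v := fun i => v (π i)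
  map_add' _ _ := rfl
  map_smul' _ _ := rfl
  invFun v := fun i => v (π.symm i)
  left_inv v := by ext i; simp
  right_inv v := by ext i; simp

theorem perm_apply (π : Equiv.Perm (Fin 9)) (v : Alg K) (i : Fin 9) : perm π v i = v (π i) := rfl

/-- The coordinate permutation exchanging `a` and `b`. -/
def sg : Equiv.Perm (Fin 9) := Equiv.swap 0 1

/-- The coordinate permutation exchanging primed and unprimed elements. -/
def kp : Equiv.Perm (Fin 9) :=
  Equiv.swap 0 4 * Equiv.swap 1 5 * Equiv.swap 2 6 * Equiv.swap 3 7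

theorem perm_sg_mul (u v : Alg K) : perm sg (u * v) = perm sg u * perm sg v := by
  apply ext9
  simp only [mul0, mul1, mul2, mul3, mul4, mul5, mul6, mul7, mul8, perm_apply,
    show sg 0 = 1 from by decide, show sg 1 = 0 from by decide, show sg 2 = 2 from by decide,
    show sg 3 = 3 from by decide, show sg 4 = 4 from by decide, show sg 5 = 5 from by decide,
    show sg 6 = 6 from by decide, show sg 7 = 7 from by decide, show sg 8 = 8 from by decide]
  refine ⟨?_, ?_, ?_, ?_, ?_, ?_, ?_, ?_, ?_⟩ <;> first | trivial | ring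

theorem perm_kp_mul (u v : Alg K) : perm kp (u * v) = perm kp u * perm kp v := by
  apply ext9
  simp only [mul0, mul1, mul2, mul3, mul4, mul5, mul6, mul7, mul8, perm_apply,
    show kp 0 = 4 from by decide, show kp 1 = 5 from by decide, show kp 2 = 6 from by decide,
    show kp 3 = 7 from by decide, show kp 4 = 0 from by decide, show kp 5 = 1 from by decide,
    show kp 6 = 2 from by decide, show kp 7 = 3 from by decide, show kp 8 = 8 from by decide]
  refine ⟨?_, ?_, ?_, ?_, ?_, ?_, ?_, ?_, ?_⟩ <;> first | trivial | ring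

theorem perm_E (π : Equiv.Perm (Fin 9)) (i : Fin 9) : perm π (E K i) = E K (π.symm i) := by
  ext j
  simp only [perm_apply, E_apply, Equiv.eq_symm_apply]

theorem isPrimitiveAxis (h2 : (2 : K) ≠ 0) (h3 : (3 : K) ≠ 0) (x : Alg K) (hx : x ∈ X K) :
    IsPrimitiveAxis (seressLaw (S K) one_mem_S) x := by
  have a0 := axis0 h2 h3
  have a1 := a0.map (perm sg) perm_sg_mul
  rw [perm_E, show sg.symm 0 = 1 from by decide] at a1
  have a4 := a0.map (perm kp) perm_kp_mul
  rw [perm_E, show kp.symm 0 = 4 from by decide] at a4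
  have a5 := a1.map (perm kp) perm_kp_mul
  rw [perm_E, show kp.symm 1 = 5 from by decide] at a5
  rcases hx with rfl | rfl | rfl | rfl
  · exact a0
  · exact a1
  · exact a4
  · exact a5

theorem E0_mul_E1 : E K 0 * E K 1 = E K 2 := by
  apply ext9
  simp [mul0, mul1, mul2, mul3, mul4, mul5, mul6, mul7, mul8, E_apply]

theorem E4_mul_E5 : E K 4 * E K 5 = E K 6 := by
  apply ext9
  simp [mul0, mul1, mul2, mul3, mul4, mul5, mul6, mul7, mul8, E_apply]

theorem E2_mul_E2 : E K 2 * E K 2 = E K 3 := by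
  apply ext9
  simp [mul0, mul1, mul2, mul3, mul4, mul5, mul6, mul7, mul8, E_apply]

theorem E6_mul_E6 : E K 6 * E K 6 = E K 7 := by
  apply ext9
  simp [mul0, mul1, mul2, mul3, mul4, mul5, mul6, mul7, mul8, E_apply]

theorem E3_mul_E3 : E K 3 * E K 3 = (1 / 8 : K) • (E K 0 + E K 1) + E K 8 := by
  apply ext9
  simp [mul0, mul1, mul2, mul3, mul4, mul5, mul6, mul7, mul8, E_apply]

theorem E7_mul_E7 : E K 7 * E K 7 = (1 / 8 : K) • (E K 4 + E K 5) + E K 8 := by
  apply ext9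
  simp [mul0, mul1, mul2, mul3, mul4, mul5, mul6, mul7, mul8, E_apply]

theorem eq_sum (v : Alg K) : v = v 0 • E K 0 + v 1 • E K 1 + v 2 • E K 2 + v 3 • E K 3 +
    v 4 • E K 4 + v 5 • E K 5 + v 6 • E K 6 + v 7 • E K 7 + v 8 • E K 8 := by
  apply ext9
  simp [E_apply]

theorem adjoin_X : NonUnitalAlgebra.adjoin K (X K) = ⊤ := by
  rw [eq_top_iff]
  intro v _
  set B := NonUnitalAlgebra.adjoin K (X K) with hB
  have hsub : ∀ x ∈ X K, x ∈ B := fun x hx => NonUnitalAlgebra.subset_adjoin K hx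
  have m0 : E K 0 ∈ B := hsub _ (by simp [X])
  have m1 : E K 1 ∈ B := hsub _ (by simp [X])
  have m4 : E K 4 ∈ B := hsub _ (by simp [X])
  have m5 : E K 5 ∈ B := hsub _ (by simp [X])
  have m2 : E K 2 ∈ B := by rw [← E0_mul_E1]; exact mul_mem m0 m1
  have m6 : E K 6 ∈ B := by rw [← E4_mul_E5]; exact mul_mem m4 m5
  have m3 : E K 3 ∈ B := by rw [← E2_mul_E2]; exact mul_mem m2 m2
  have m7 : E K 7 ∈ B := by rw [← E6_mul_E6]; exact mul_mem m6 m6
  have m8 : E K 8 ∈ B := by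
    have : E K 8 = E K 3 * E K 3 - (1 / 8 : K) • (E K 0 + E K 1) := by
      rw [E3_mul_E3]; abel
    rw [this]
    exact sub_mem (mul_mem m3 m3) (B.smul_mem' _ (add_mem m0 m1))
  rw [eq_sum v]
  exact add_mem (add_mem (add_mem (add_mem (add_mem (add_mem (add_mem (add_mem
    (B.smul_mem' _ m0) (B.smul_mem' _ m1)) (B.smul_mem' _ m2)) (B.smul_mem' _ m3)) (B.smul_mem' _ m4))
    (B.smul_mem' _ m5)) (B.smul_mem' _ m6)) (B.smul_mem' _ m7)) (B.smul_mem' _ m8)

theorem E_ne {i j : Fin 9} (h : i ≠ j) : E K i ≠ E K j := by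
  intro he
  have := congrFun he i
  simp [E_apply, h] at this

theorem not_connected : ¬ (nonAnnGraph (X K)).Connected := by
  intro hc
  have key : ∀ x y : X K, (nonAnnGraph (X K)).Reachable x y →
      ((x : Alg K) = E K 0 ∨ (x : Alg K) = E K 1) → ((y : Alg K) = E K 0 ∨ (y : Alg K) = E K 1) := by
    rintro x y ⟨w⟩
    induction w with
    | nil => exact id
    | @cons x z y hadj _ ih =>
      intro hx
      apply ih
      obtain ⟨-, hne⟩ := hadj
      have hz : (z : Alg K) ∈ X K := z.2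
      rcases hz with hz | hz | hz | hz
      · exact Or.inl hz
      · exact Or.inr hz
      · exfalso
        apply hne
        rw [hz]
        rcases hx with hx | hx <;> rw [hx] <;> apply ext9 <;>
          simp [mul0, mul1, mul2, mul3, mul4, mul5, mul6, mul7, mul8, E_apply]
      · exfalso
        apply hne
        rw [hz]
        rcases hx with hx | hx <;> rw [hx] <;> apply ext9 <;>
          simp [mul0, mul1, mul2, mul3, mul4, mul5, mul6, mul7, mul8, E_apply]
  have := key ⟨E K 0, by simp [X]⟩ ⟨E K 4, by simp [X]⟩ (hc.preconnected _ _) (Or.inl rfl)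
  rcases this with h | h
  · exact E_ne (by decide) h
  · exact E_ne (by decide) h

section simple

theorem four_ne (h2 : (2 : K) ≠ 0) : (4 : K) ≠ 0 := by
  have : (4 : K) = 2 * 2 := by norm_num
  rw [this]; exact mul_ne_zero h2 h2

theorem eight_ne (h2 : (2 : K) ≠ 0) : (8 : K) ≠ 0 := by
  have : (8 : K) = 2 * 4 := by norm_num
  rw [this]; exact mul_ne_zero h2 (four_ne h2)

theorem mem_of_smul_mem {I : Submodule K (Alg K)} {c : K} (hc : c ≠ 0) {v : Alg K}
    (h : c • v ∈ I) : v ∈ I := by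
  have := I.smul_mem c⁻¹ h
  rwa [smul_smul, inv_mul_cancel₀ hc, one_smul] at this

theorem E1_mul_E2 : E K 1 * E K 2 = (1 / 4 : K) • E K 0 := by
  apply ext9
  simp [mul0, mul1, mul2, mul3, mul4, mul5, mul6, mul7, mul8, E_apply]

theorem E0_mul_E2 : E K 0 * E K 2 = (1 / 4 : K) • E K 1 := by
  apply ext9
  simp [mul0, mul1, mul2, mul3, mul4, mul5, mul6, mul7, mul8, E_apply]

theorem E5_mul_E6 : E K 5 * E K 6 = (1 / 4 : K) • E K 4 := by
  apply ext9
  simp [mul0, mul1, mul2, mul3, mul4, mul5, mul6, mul7, mul8, E_apply]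

theorem E4_mul_E6 : E K 4 * E K 6 = (1 / 4 : K) • E K 5 := by
  apply ext9
  simp [mul0, mul1, mul2, mul3, mul4, mul5, mul6, mul7, mul8, E_apply]

theorem E3_mul_E8 : E K 3 * E K 8 = E K 3 := by
  apply ext9
  simp [mul0, mul1, mul2, mul3, mul4, mul5, mul6, mul7, mul8, E_apply]

theorem E7_mul_E8 : E K 7 * E K 8 = E K 7 := by
  apply ext9
  simp [mul0, mul1, mul2, mul3, mul4, mul5, mul6, mul7, mul8, E_apply]

theorem sum45 (h2 : (2 : K) ≠ 0) :
    (E K 4 + E K 5) - E K 4 * (E K 4 * (E K 4 + E K 5)) = (3 / 4 : K) • E K 5 := by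
  have h4 := four_ne h2
  apply ext9
  simp [sub_eq_add_neg, mul0, mul1, mul2, mul3, mul4, mul5, mul6, mul7, mul8, E_apply,
    show ∀ (u : Alg K) (i : Fin 9), (-u) i = - u i from fun _ _ => rfl]
  field_simp
  norm_num

theorem top_of_E0 (h2 : (2 : K) ≠ 0) (h3 : (3 : K) ≠ 0) (I : Submodule K (Alg K))
    (hI : IsIdeal K I) (m0 : E K 0 ∈ I) : I = ⊤ := by
  have h4 := four_ne h2
  have h8 := eight_ne h2
  have q4 : (1 / 4 : K) ≠ 0 := one_div_ne_zero h4
  have m2 : E K 2 ∈ I := by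
    rw [← E0_mul_E1, mul_comm]; exact hI _ m0 _
  have m1 : E K 1 ∈ I := by
    apply mem_of_smul_mem q4
    rw [← E0_mul_E2]; exact hI _ m2 _
  have m3 : E K 3 ∈ I := by
    rw [← E2_mul_E2]; exact hI _ m2 _
  have m8 : E K 8 ∈ I := by
    have : E K 8 = E K 3 * E K 3 - (1 / 8 : K) • (E K 0 + E K 1) := by
      rw [E3_mul_E3]; abel
    rw [this]
    exact sub_mem (hI _ m3 _) (I.smul_mem _ (add_mem m0 m1))
  have m7 : E K 7 ∈ I := by
    rw [← E7_mul_E8]; exact hI _ m8 _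
  have m45 : E K 4 + E K 5 ∈ I := by
    apply mem_of_smul_mem (one_div_ne_zero h8)
    have : (1 / 8 : K) • (E K 4 + E K 5) = E K 7 * E K 7 - E K 8 := by
      rw [E7_mul_E7]; abel
    rw [this]
    exact sub_mem (hI _ m7 _) m8
  have m5 : E K 5 ∈ I := by
    apply mem_of_smul_mem (div_ne_zero h3 h4)
    rw [← sum45 h2]
    exact sub_mem m45 (hI _ (hI _ m45 _) _)
  have m4 : E K 4 ∈ I := by
    have : E K 4 = (E K 4 + E K 5) - E K 5 := by abel
    rw [this]; exact sub_mem m45 m5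
  have m6 : E K 6 ∈ I := by
    rw [← E4_mul_E5]; exact hI _ m5 _
  rw [eq_top_iff]
  intro v _
  rw [eq_sum v]
  exact add_mem (add_mem (add_mem (add_mem (add_mem (add_mem (add_mem (add_mem
    (I.smul_mem _ m0) (I.smul_mem _ m1)) (I.smul_mem _ m2)) (I.smul_mem _ m3)) (I.smul_mem _ m4))
    (I.smul_mem _ m5)) (I.smul_mem _ m6)) (I.smul_mem _ m7)) (I.smul_mem _ m8)

theorem E0_of_E1 (h2 : (2 : K) ≠ 0) (I : Submodule K (Alg K))
    (hI : IsIdeal K I) (m1 : E K 1 ∈ I) : E K 0 ∈ I := by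
  have q4 : (1 / 4 : K) ≠ 0 := one_div_ne_zero (four_ne h2)
  have m2 : E K 2 ∈ I := by
    rw [← E0_mul_E1]; exact hI _ m1 _
  apply mem_of_smul_mem q4
  rw [← E1_mul_E2]; exact hI _ m2 _

theorem proj0 (h2 : (2 : K) ≠ 0) (v : Alg K) :
    E K 0 * (E K 0 * (E K 0 * v)) - (1 / 4 : K) • (E K 0 * v) = (3 / 4 * v 0) • E K 0 := by
  have h4 := four_ne h2
  apply ext9
  simp only [sub_eq_add_neg, mul0, mul1, mul2, mul3, mul4, mul5, mul6, mul7, mul8, E_apply,
    show ∀ (u : Alg K) (i : Fin 9), (-u) i = - u i from fun _ _ => rfl, add_apply', smul_apply']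
  refine ⟨?_, ?_, ?_, ?_, ?_, ?_, ?_, ?_, ?_⟩ <;> simp <;> field_simp <;> ring

theorem mem0 (h2 : (2 : K) ≠ 0) (h3 : (3 : K) ≠ 0) (I : Submodule K (Alg K))
    (hI : IsIdeal K I) (v : Alg K) (hv : v ∈ I) (h : v 0 ≠ 0) : E K 0 ∈ I := by
  have h4 := four_ne h2
  apply mem_of_smul_mem (c := 3 / 4 * v 0) (mul_ne_zero (div_ne_zero h3 h4) h)
  rw [← proj0 h2]
  exact sub_mem (hI _ (hI _ (hI _ hv _) _) _) (I.smul_mem _ (hI _ hv _))

/-- The image of an ideal under an automorphism. -/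
theorem isIdeal_map (φ : Alg K ≃ₗ[K] Alg K) (hφ : ∀ u v, φ (u * v) = φ u * φ v)
    (I : Submodule K (Alg K)) (hI : IsIdeal K I) :
    IsIdeal K (I.comap (φ : Alg K →ₗ[K] Alg K)) := by
  intro x hx y
  rw [Submodule.mem_comap] at hx ⊢
  have : (φ : Alg K →ₗ[K] Alg K) (y * x) = φ y * φ x := hφ y x
  rw [this]
  exact hI _ hx _

theorem mem1 (h2 : (2 : K) ≠ 0) (h3 : (3 : K) ≠ 0) (I : Submodule K (Alg K))
    (hI : IsIdeal K I) (v : Alg K) (hv : v ∈ I) (h : v 1 ≠ 0) : E K 1 ∈ I := by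
  have := mem0 h2 h3 _ (isIdeal_map (perm sg) perm_sg_mul I hI) ((perm sg).symm v)
    (by rw [Submodule.mem_comap]
        show perm sg ((perm sg).symm v) ∈ I
        rwa [LinearEquiv.apply_symm_apply])
    (by show v (sg.symm 0) ≠ 0
        rwa [show sg.symm 0 = 1 from by decide])
  rw [Submodule.mem_comap] at this
  have h' : perm sg (E K 0) ∈ I := this
  rwa [perm_E, show sg.symm 0 = 1 from by decide] at h'

theorem top_of_coord01 (h2 : (2 : K) ≠ 0) (h3 : (3 : K) ≠ 0) (I : Submodule K (Alg K))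
    (hI : IsIdeal K I) (v : Alg K) (hv : v ∈ I) (h : v 0 ≠ 0 ∨ v 1 ≠ 0) : I = ⊤ := by
  rcases h with h | h
  · exact top_of_E0 h2 h3 I hI (mem0 h2 h3 I hI v hv h)
  · exact top_of_E0 h2 h3 I hI (E0_of_E1 h2 I hI (mem1 h2 h3 I hI v hv h))

/-- If an ideal contains a vector with a nonzero coordinate at `0, 1, 2, 3` or `8`, it is
everything. -/
theorem top_of_coord (h2 : (2 : K) ≠ 0) (h3 : (3 : K) ≠ 0) (I : Submodule K (Alg K))
    (hI : IsIdeal K I) (v : Alg K) (hv : v ∈ I)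
    (h : v 0 ≠ 0 ∨ v 1 ≠ 0 ∨ v 2 ≠ 0 ∨ v 3 ≠ 0 ∨ v 8 ≠ 0) : I = ⊤ := by
  have h4 := four_ne h2
  have h8 := eight_ne h2
  by_cases h0 : v 0 = 0
  swap
  · exact top_of_coord01 h2 h3 I hI v hv (Or.inl h0)
  by_cases h1 : v 1 = 0
  swap
  · exact top_of_coord01 h2 h3 I hI v hv (Or.inr h1)
  rcases h with h | h | h | h | h
  · exact absurd h0 h
  · exact absurd h1 h
  · refine top_of_coord01 h2 h3 I hI (E K 1 * v) (hI _ hv _) (Or.inl ?_)
    simpa [mul0, E_apply, h4] using h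
  · refine top_of_coord01 h2 h3 I hI (E K 3 * v) (hI _ hv _) (Or.inl ?_)
    simpa [mul0, E_apply, h8] using h
  · refine top_of_coord01 h2 h3 I hI (E K 3 * (E K 3 * v)) (hI _ (hI _ hv _) _) (Or.inl ?_)
    simpa [mul0, mul3, E_apply, h8, h0, h1] using h

theorem simple (h2 : (2 : K) ≠ 0) (h3 : (3 : K) ≠ 0) : IsSimpleAlg K (Alg K) := by
  refine ⟨⟨E K 0, E K 1, ?_⟩, ?_⟩
  · rw [E0_mul_E1]
    intro h
    have := congrFun h 2
    simp [E_apply] at this
  · intro I hI
    by_contra hcon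
    push Not at hcon
    obtain ⟨hbot, htop⟩ := hcon
    obtain ⟨v, hv, hv0⟩ := (Submodule.ne_bot_iff I).mp hbot
    apply hv0
    have h01 : ∀ i : Fin 9, (i = 0 ∨ i = 1 ∨ i = 2 ∨ i = 3 ∨ i = 8) → v i = 0 := by
      intro i hi
      by_contra hne
      apply htop
      refine top_of_coord h2 h3 I hI v hv ?_
      rcases hi with rfl | rfl | rfl | rfl | rfl <;> tauto
    have h02 : ∀ i : Fin 9, (i = 4 ∨ i = 5 ∨ i = 6 ∨ i = 7) → v i = 0 := by
      intro i hi
      by_contra hne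
      apply htop
      have hJ := top_of_coord h2 h3 _ (isIdeal_map (perm kp) perm_kp_mul I hI) ((perm kp).symm v)
        (by rw [Submodule.mem_comap]
            show perm kp ((perm kp).symm v) ∈ I
            rwa [LinearEquiv.apply_symm_apply])
        (by
          show v (kp.symm 0) ≠ 0 ∨ v (kp.symm 1) ≠ 0 ∨ v (kp.symm 2) ≠ 0 ∨ v (kp.symm 3) ≠ 0 ∨
            v (kp.symm 8) ≠ 0
          rw [show kp.symm 0 = 4 from by decide, show kp.symm 1 = 5 from by decide,
            show kp.symm 2 = 6 from by decide, show kp.symm 3 = 7 from by decide,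
            show kp.symm 8 = 8 from by decide]
          rcases hi with rfl | rfl | rfl | rfl <;> tauto)
      rw [eq_top_iff]
      intro u _
      have hu : (perm kp).symm u ∈ I.comap ((perm kp : Alg K ≃ₗ[K] Alg K) : Alg K →ₗ[K] Alg K) := by
        rw [hJ]; exact Submodule.mem_top
      rw [Submodule.mem_comap] at hu
      have hu' : perm kp ((perm kp).symm u) ∈ I := hu
      rwa [LinearEquiv.apply_symm_apply] at hu'
    apply ext9
    simp only [zero_apply']
    exact ⟨h01 0 (by tauto), h01 1 (by tauto), h01 2 (by tauto), h01 3 (by tauto),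
      h02 4 (by tauto), h02 5 (by tauto), h02 6 (by tauto), h02 7 (by tauto), h01 8 (by tauto)⟩

end simple

section form

/-- The Frobenius form. -/
def form (K : Type*) [Field K] : LinearMap.BilinForm K (Alg K) :=
  LinearMap.mk₂ K (fun u v => u 0 * v 0 + u 1 * v 1 + u 2 * v 2 / 4 + u 3 * v 3 / 4 +
    u 4 * v 4 + u 5 * v 5 + u 6 * v 6 / 4 + u 7 * v 7 / 4 + u 8 * v 8 / 4)
    (by intro u v w; simp only [add_apply']; ring)
    (by intro c u v; simp only [smul_apply', smul_eq_mul]; ring)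
    (by intro u v w; simp only [add_apply']; ring)
    (by intro c u v; simp only [smul_apply', smul_eq_mul]; ring)

theorem form_apply (u v : Alg K) : form K u v = u 0 * v 0 + u 1 * v 1 + u 2 * v 2 / 4 +
    u 3 * v 3 / 4 + u 4 * v 4 + u 5 * v 5 + u 6 * v 6 / 4 + u 7 * v 7 / 4 + u 8 * v 8 / 4 := rfl

theorem form_frobenius (h2 : (2 : K) ≠ 0) : IsFrobenius K (Alg K) (form K) := by
  have h4 := four_ne h2
  have h8 := eight_ne h2
  constructor
  · intro x y
    rw [form_apply, form_apply]; ring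
  · intro x y z
    rw [form_apply, form_apply]
    simp only [mul0, mul1, mul2, mul3, mul4, mul5, mul6, mul7, mul8]
    field_simp
    ring

/-- The scaling coefficients of an orthonormal basis. -/
def coef (K : Type*) [Field K] : Fin 9 → K := ![1, 1, 2, 2, 1, 1, 2, 2, 2]

theorem coef_ne (h2 : (2 : K) ≠ 0) (i : Fin 9) : coef K i ≠ 0 := by
  fin_cases i <;> simp [coef, h2]

/-- An orthonormal basis. -/
noncomputable def onb (h2 : (2 : K) ≠ 0) : Module.Basis (Fin 9) K (Alg K) :=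
  Module.Basis.ofEquivFun
    { toFun := fun v i => (coef K i)⁻¹ * v i
      map_add' := by intro u v; funext i; simp [mul_add]
      map_smul' := by intro c u; funext i; simp [mul_left_comm]
      invFun := fun f => mk fun i => coef K i * f i
      left_inv := by
        intro v; ext i
        simp only [mk_apply]
        rw [← mul_assoc, mul_inv_cancel₀ (coef_ne h2 i), one_mul]
      right_inv := by
        intro v; funext i
        simp only [mk_apply]
        rw [← mul_assoc, inv_mul_cancel₀ (coef_ne h2 i), one_mul] }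

theorem onb_apply (h2 : (2 : K) ≠ 0) (i j : Fin 9) :
    onb h2 i j = if j = i then coef K i else 0 := by
  have : onb h2 i = mk fun j => coef K j * (Pi.single i (1 : K) : Fin 9 → K) j := by
    rw [onb, Module.Basis.coe_ofEquivFun]
    rfl
  rw [this, mk_apply]
  by_cases h : j = i
  · subst h; simp
  · simp [h]

theorem onb_form (h2 : (2 : K) ≠ 0) (i j : Fin 9) :
    form K (onb h2 i) (onb h2 j) = if i = j then 1 else 0 := by
  have h4 := four_ne h2
  rw [form_apply]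
  simp only [onb_apply]
  fin_cases i <;> fin_cases j <;> simp [coef] <;> field_simp <;> norm_num

end form

end Pool.Agent.H.MP_8db76d_al.Nine
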